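import Mathlib

/-!
The angle of two vectors is proportional to the volume of the set of the points of the unit ball
whose orthogonal hyperplanes separate them (helper39).
-/

set_option autoImplicit false

namespace Pool.Agent.U39.AN

open MeasureTheory Set Real InnerProductGeometry Metric
open scoped RealInnerProductSpace

variable {V : Type*} [NormedAddCommGroup V] [InnerProductSpace ℝ V] [FiniteDimensional ℝ V]
  [MeasurableSpace V] [BorelSpace V]

/-- the points `a` of the unit ball whose orthogonal hyperplane separates `p` and `q` -/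
def sep (p q : V) : Set V := {a | a ∈ ball (0 : V) 1 ∧ ⟪a, p⟫ * ⟪a, q⟫ < 0}

lemma sep_meas (p q : V) : MeasurableSet (sep p q) := by
  have hc : Continuous fun a : V => ⟪a, p⟫ * ⟪a, q⟫ := by fun_prop
  exact (isOpen_ball.inter (isOpen_lt hc continuous_const)).measurableSet

/-- its volume -/
noncomputable def sp (p q : V) : ℝ := volume.real (sep p q)

/-- the volume of the unit ball -/
noncomputable def vb (V : Type*) [NormedAddCommGroup V] [InnerProductSpace ℝ V]
    [FiniteDimensional ℝ V] [MeasurableSpace V] [BorelSpace V] : ℝ :=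
  volume.real (ball (0 : V) 1)

lemma sep_fin (p q : V) : volume (sep p q) ≠ ⊤ :=
  ((measure_mono fun _ h => h.1).trans_lt measure_ball_lt_top).ne

lemma sp_nonneg (p q : V) : 0 ≤ sp p q := measureReal_nonneg

lemma sp_map (T : V ≃ₗᵢ[ℝ] V) (p q : V) : sp (T p) (T q) = sp p q := by
  have h := T.measurePreserving.measure_preimage (sep_meas (T p) (T q)).nullMeasurableSet
  have e : T ⁻¹' sep (T p) (T q) = sep p q := by
    ext a
    simp only [sep, mem_preimage, mem_setOf_eq, mem_ball_zero_iff, T.norm_map, T.inner_map_map]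
  rw [e] at h
  unfold sp Measure.real
  rw [h]

lemma plane_zero {q : V} (hq : q ≠ 0) : volume {a : V | ⟪a, q⟫ = 0} = 0 := by
  have h1 : {a : V | ⟪a, q⟫ = 0} = ((ℝ ∙ q)ᗮ : Submodule ℝ V) := by
    ext a
    simp only [mem_setOf_eq, SetLike.mem_coe, Submodule.mem_orthogonal_singleton_iff_inner_left]
  rw [h1]
  refine Measure.addHaar_submodule _ _ fun h => hq ?_
  have h2 : q ∈ (ℝ ∙ q)ᗮ := by rw [h]; trivial
  rw [Submodule.mem_orthogonal_singleton_iff_inner_left] at h2
  exact inner_self_eq_zero.1 h2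

lemma sp_split {p q r : V} (hp : p ≠ 0) (hq : q ≠ 0) (hr : r ≠ 0)
    (h : ∀ a : V, ¬(⟪a, p⟫ * ⟪a, q⟫ < 0 ∧ ⟪a, q⟫ * ⟪a, r⟫ < 0)) :
    sp p r = sp p q + sp q r := by
  have h1 : sp p q + sp q r = volume.real (sep p q ∪ sep q r) := by
    refine (measureReal_union ?_ (sep_meas _ _) (sep_fin _ _) (sep_fin _ _)).symm
    rw [Set.disjoint_left]
    intro a ha hb
    exact h a ⟨ha.2, hb.2⟩
  rw [h1]
  refine measureReal_congr ?_
  have n1 : ∀ᵐ a : V, ⟪a, p⟫ ≠ 0 := by
    rw [ae_iff]; simpa using plane_zero hp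
  have n2 : ∀ᵐ a : V, ⟪a, q⟫ ≠ 0 := by
    rw [ae_iff]; simpa using plane_zero hq
  have n3 : ∀ᵐ a : V, ⟪a, r⟫ ≠ 0 := by
    rw [ae_iff]; simpa using plane_zero hr
  filter_upwards [n1, n2, n3] with a a1 a2 a3
  have key : (⟪a, p⟫ * ⟪a, r⟫ < 0) ↔
      (⟪a, p⟫ * ⟪a, q⟫ < 0 ∨ ⟪a, q⟫ * ⟪a, r⟫ < 0) := by
    have h2 := h a
    constructor
    · intro h3
      by_contra h4
      push Not at h4
      have h5 : 0 < ⟪a, p⟫ * ⟪a, q⟫ := lt_of_le_of_ne h4.1 (mul_ne_zero a1 a2).symm
      have h6 : 0 < ⟪a, q⟫ * ⟪a, r⟫ := lt_of_le_of_ne h4.2 (mul_ne_zero a2 a3).symm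
      have h7 : 0 < (⟪a, p⟫ * ⟪a, q⟫) * (⟪a, q⟫ * ⟪a, r⟫) := mul_pos h5 h6
      have h8 : 0 < ⟪a, q⟫ ^ 2 := by positivity
      nlinarith [mul_neg_of_neg_of_pos h3 h8]
    · rintro (h3 | h3)
      · have h6 : 0 < ⟪a, q⟫ * ⟪a, r⟫ := by
          refine lt_of_le_of_ne ?_ (mul_ne_zero a2 a3).symm
          by_contra h9
          exact h2 ⟨h3, not_le.1 h9⟩
        have h7 := mul_neg_of_neg_of_pos h3 h6
        have h8 : 0 < ⟪a, q⟫ ^ 2 := by positivity
        by_contra h9
        nlinarith [mul_nonneg (not_lt.1 h9) h8.le]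
      · have h6 : 0 < ⟪a, p⟫ * ⟪a, q⟫ := by
          refine lt_of_le_of_ne ?_ (mul_ne_zero a1 a2).symm
          by_contra h9
          exact h2 ⟨not_le.1 h9, h3⟩
        have h7 := mul_neg_of_pos_of_neg h6 h3
        have h8 : 0 < ⟪a, q⟫ ^ 2 := by positivity
        by_contra h9
        nlinarith [mul_nonneg (not_lt.1 h9) h8.le]
  have e : (a ∈ sep p r) = (a ∈ sep p q ∪ sep q r) := by
    simp only [sep, mem_setOf_eq, mem_union, key]
    apply propext
    tauto
  exact e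

/-- isometries act transitively on orthonormal pairs -/
lemma exists_iso {e1 e2 f1 f2 : V} (he1 : ‖e1‖ = 1) (he2 : ‖e2‖ = 1) (he : ⟪e1, e2⟫ = 0)
    (hf1 : ‖f1‖ = 1) (hf2 : ‖f2‖ = 1) (hf : ⟪f1, f2⟫ = 0) :
    ∃ T : V ≃ₗᵢ[ℝ] V, T e1 = f1 ∧ T e2 = f2 := by
  obtain ⟨L0, hL0⟩ : ∃ L0 : V →ₗ[ℝ] V, ∀ x, L0 x = ⟪e1, x⟫ • f1 + ⟪e2, x⟫ • f2 :=
    ⟨((innerₛₗ ℝ e1).smulRight f1) + ((innerₛₗ ℝ e2).smulRight f2), fun x => by simp⟩
  have e11 : ⟪e1, e1⟫ = 1 := by rw [real_inner_self_eq_norm_sq, he1]; norm_num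
  have e22 : ⟪e2, e2⟫ = 1 := by rw [real_inner_self_eq_norm_sq, he2]; norm_num
  have f11 : ⟪f1, f1⟫ = 1 := by rw [real_inner_self_eq_norm_sq, hf1]; norm_num
  have f22 : ⟪f2, f2⟫ = 1 := by rw [real_inner_self_eq_norm_sq, hf2]; norm_num
  have he' : ⟪e2, e1⟫ = 0 := by rw [real_inner_comm]; exact he
  have hf' : ⟪f2, f1⟫ = 0 := by rw [real_inner_comm]; exact hf
  have h1 : L0 e1 = f1 := by rw [hL0, e11, he']; simp
  have h2 : L0 e2 = f2 := by rw [hL0, e22, he]; simp
  let Sb : Submodule ℝ V := Submodule.span ℝ {e1, e2}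
  have hn : ∀ x : Sb, ‖(L0.domRestrict Sb) x‖ = ‖x‖ := by
    rintro ⟨x, hx⟩
    obtain ⟨α, β, rfl⟩ := Submodule.mem_span_pair.1 hx
    have h3 : L0 (α • e1 + β • e2) = α • f1 + β • f2 := by rw [map_add, map_smul, map_smul, h1, h2]
    show ‖L0 (α • e1 + β • e2)‖ = ‖α • e1 + β • e2‖
    rw [h3]
    have h4 : ‖α • f1 + β • f2‖ ^ 2 = ‖α • e1 + β • e2‖ ^ 2 := by
      rw [← real_inner_self_eq_norm_sq, ← real_inner_self_eq_norm_sq]
      simp only [inner_add_left, inner_add_right, real_inner_smul_left, real_inner_smul_right,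
        e11, e22, f11, f22, he, he', hf, hf']
    exact (pow_left_inj₀ (norm_nonneg _) (norm_nonneg _) two_ne_zero).1 h4
  let L : Sb →ₗᵢ[ℝ] V := ⟨L0.domRestrict Sb, hn⟩
  have m1 : e1 ∈ Sb := Submodule.subset_span (by simp)
  have m2 : e2 ∈ Sb := Submodule.subset_span (by simp)
  refine ⟨L.extend.toLinearIsometryEquiv rfl, ?_, ?_⟩
  · have := L.extend_apply ⟨e1, m1⟩
    exact this.trans h1
  · have := L.extend_apply ⟨e2, m2⟩
    exact this.trans h2

/-- additive nonnegative functions on `[0, π]` are linear -/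
lemma add_lin {g : ℝ → ℝ} {B : ℝ} (hB : 0 < B) (h0 : ∀ x, 0 ≤ g x)
    (ha : ∀ x y, 0 ≤ x → 0 ≤ y → x + y ≤ B → g (x + y) = g x + g y) {x : ℝ} (hx : 0 ≤ x)
    (hx' : x ≤ B) : B * g x = x * g B := by
  have mono : ∀ x y, 0 ≤ x → x ≤ y → y ≤ B → g x ≤ g y := by
    intro x y h1 h2 h3
    have h4 := ha x (y - x) h1 (by linarith) (by linarith)
    rw [add_sub_cancel] at h4
    linarith [h0 (y - x)]
  have g0 : g 0 = 0 := by
    have := ha 0 0 le_rfl le_rfl (by linarith)
    rw [add_zero] at this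
    linarith
  have mul : ∀ (n : ℕ) (x : ℝ), 0 ≤ x → n * x ≤ B → g (n * x) = n * g x := by
    intro n x hx
    induction n with
    | zero => intro _; simp [g0]
    | succ n ih =>
      intro h
      push_cast at h ⊢
      have h1 : (n : ℝ) * x ≤ B := by nlinarith
      rw [add_mul, one_mul, ha _ _ (by positivity) hx (by linarith), ih h1]
      ring
  have key : ∀ N : ℕ, 1 ≤ N → |B * g x - x * g B| ≤ B * g B / N := by
    intro N hN
    have hN' : (0 : ℝ) < N := by exact_mod_cast hN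
    have hδ : 0 < B / N := by positivity
    have hg : g B = N * g (B / N) := by
      have := mul N (B / N) hδ.le (by rw [mul_div_cancel₀ _ hN'.ne'])
      rwa [mul_div_cancel₀ _ hN'.ne'] at this
    obtain ⟨j, hj⟩ : ∃ j : ℕ, j = ⌊x / (B / N)⌋₊ := ⟨_, rfl⟩
    have j1 : (j : ℝ) * (B / N) ≤ x := by
      have := Nat.floor_le (a := x / (B / N)) (by positivity)
      rw [← hj] at this
      rwa [le_div_iff₀ hδ] at this
    have j2 : x < (j + 1) * (B / N) := by
      have := Nat.lt_floor_add_one (x / (B / N))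
      rw [← hj] at this
      rwa [div_lt_iff₀ hδ] at this
    have gj : (j : ℝ) * g (B / N) ≤ g x := by
      rw [← mul j (B / N) hδ.le (j1.trans hx')]
      exact mono _ _ (by positivity) j1 hx'
    have gj2 : g x ≤ (j + 1) * g (B / N) := by
      by_cases h : ((j : ℝ) + 1) * (B / N) ≤ B
      · have h1 := mul (j + 1) (B / N) hδ.le (by push_cast; exact h)
        push_cast at h1
        rw [← h1]
        exact mono _ _ hx j2.le h
      · push Not at h
        have h1 : (N : ℝ) < j + 1 := by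
          rw [← mul_div_assoc, lt_div_iff₀ hN'] at h
          nlinarith
        calc g x ≤ g B := mono _ _ hx hx' le_rfl
          _ = N * g (B / N) := hg
          _ ≤ _ := mul_le_mul_of_nonneg_right h1.le (h0 _)
    have hG : 0 ≤ g (B / N) := h0 _
    have e1 : B * g B / N = B * g (B / N) := by rw [hg]; field_simp
    have j1' : (j : ℝ) * B ≤ x * N := by
      rw [← mul_div_assoc, div_le_iff₀ hN'] at j1; exact j1
    have j2' : x * N ≤ (j + 1) * B := by
      rw [← mul_div_assoc, lt_div_iff₀ hN'] at j2; exact j2.le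
    rw [e1, hg, abs_le]
    constructor
    · nlinarith [mul_le_mul_of_nonneg_right j2' hG, mul_le_mul_of_nonneg_left gj hB.le]
    · nlinarith [mul_le_mul_of_nonneg_right j1' hG, mul_le_mul_of_nonneg_left gj2 hB.le]
  have h3 : |B * g x - x * g B| ≤ 0 := by
    refine ge_of_tendsto (x := Filter.atTop) (f := fun N : ℕ => B * g B / (N : ℝ)) ?_ ?_
    · exact tendsto_const_div_atTop_nhds_zero_nat _
    · filter_upwards [Filter.eventually_ge_atTop 1] with N hN using key N hN
  have h4 := abs_nonpos_iff.1 h3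
  linarith

end Pool.Agent.U39.AN
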