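import Pool.Agent.U39.AN.A

/-!
The angle of two vectors is proportional to the volume of the set of the points of the unit ball
whose orthogonal hyperplanes separate them (helper39).
-/

set_option autoImplicit false

namespace Pool.Agent.U39.AN

open MeasureTheory Set Real InnerProductGeometry Metric
open scoped RealInnerProductSpace

variable {V : Type*} [NormedAddCommGroup V] [InnerProductSpace ℝ V] [FiniteDimensional ℝ V]
  [MeasurableSpace V] [BorelSpace V]

/-- the point of the unit circle of the plane of `e1`, `e2` -/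
noncomputable def ee (e1 e2 : V) (θ : ℝ) : V := cos θ • e1 + sin θ • e2

lemma ee_zero (e1 e2 : V) : ee e1 e2 0 = e1 := by simp [ee]

lemma ee_pi (e1 e2 : V) : ee e1 e2 π = -e1 := by simp [ee]

section
variable {e1 e2 : V} (h1 : ‖e1‖ = 1) (h2 : ‖e2‖ = 1) (h12 : ⟪e1, e2⟫ = 0)
include h1 h2 h12

lemma ee_inner (α β : ℝ) : ⟪ee e1 e2 α, ee e1 e2 β⟫ = cos (β - α) := by
  have e11 : ⟪e1, e1⟫ = 1 := by rw [real_inner_self_eq_norm_sq, h1]; norm_num
  have e22 : ⟪e2, e2⟫ = 1 := by rw [real_inner_self_eq_norm_sq, h2]; norm_num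
  have h21 : ⟪e2, e1⟫ = 0 := by rw [real_inner_comm]; exact h12
  unfold ee
  simp only [inner_add_left, inner_add_right, real_inner_smul_left, real_inner_smul_right,
    e11, e22, h12, h21]
  rw [cos_sub]
  ring

lemma ee_norm (α : ℝ) : ‖ee e1 e2 α‖ = 1 := by
  have h := ee_inner h1 h2 h12 α α
  rw [sub_self, cos_zero, real_inner_self_eq_norm_sq] at h
  exact (pow_eq_one_iff_of_nonneg (norm_nonneg _) two_ne_zero).1 h

lemma ee_ne (α : ℝ) : ee e1 e2 α ≠ 0 := by
  intro h
  have := ee_norm h1 h2 h12 α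
  rw [h, norm_zero] at this
  norm_num at this

lemma sp_rot (α θ : ℝ) : sp (ee e1 e2 α) (ee e1 e2 (α + θ)) = sp e1 (ee e1 e2 θ) := by
  have h3 : ⟪ee e1 e2 α, ee e1 e2 (α + π / 2)⟫ = 0 := by
    rw [ee_inner h1 h2 h12, add_sub_cancel_left, cos_pi_div_two]
  obtain ⟨T, hT1, hT2⟩ := exists_iso h1 h2 h12 (ee_norm h1 h2 h12 α)
    (ee_norm h1 h2 h12 (α + π / 2)) h3
  have h4 : T (ee e1 e2 θ) = ee e1 e2 (α + θ) := by
    show T (cos θ • e1 + sin θ • e2) = _
    rw [map_add, map_smul, map_smul, hT1, hT2]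
    unfold ee
    rw [cos_add_pi_div_two, sin_add_pi_div_two, cos_add, sin_add]
    module
  rw [← h4, ← hT1, sp_map]

lemma sp_add {x y : ℝ} (hx : 0 ≤ x) (hy : 0 ≤ y) (hxy : x + y ≤ π) :
    sp e1 (ee e1 e2 (x + y)) = sp e1 (ee e1 e2 x) + sp e1 (ee e1 e2 y) := by
  have e0 : e1 ≠ 0 := by
    intro h
    rw [h, norm_zero] at h1
    norm_num at h1
  rw [← sp_rot h1 h2 h12 x y]
  refine sp_split e0 (ee_ne h1 h2 h12 _) (ee_ne h1 h2 h12 _) fun a h => ?_
  obtain ⟨ha, hb⟩ := h
  obtain ⟨X, hX⟩ : ∃ X, X = ⟪a, e1⟫ := ⟨_, rfl⟩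
  obtain ⟨Y, hY⟩ : ∃ Y, Y = ⟪a, e2⟫ := ⟨_, rfl⟩
  have q1 : ⟪a, ee e1 e2 x⟫ = cos x * X + sin x * Y := by
    unfold ee
    rw [inner_add_right, real_inner_smul_right, real_inner_smul_right, hX, hY]
  have q2 : ⟪a, ee e1 e2 (x + y)⟫ = cos (x + y) * X + sin (x + y) * Y := by
    unfold ee
    rw [inner_add_right, real_inner_smul_right, real_inner_smul_right, hX, hY]
  rw [← hX, q1] at ha
  rw [q1, q2] at hb
  have sx : 0 ≤ sin x := sin_nonneg_of_nonneg_of_le_pi hx (by linarith)
  have sy : 0 ≤ sin y := sin_nonneg_of_nonneg_of_le_pi hy (by linarith)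
  have sxy : 0 ≤ sin (x + y) := sin_nonneg_of_nonneg_of_le_pi (by linarith) hxy
  have id1 : sin (x + y) * (cos x * X + sin x * Y) =
      sin y * X + sin x * (cos (x + y) * X + sin (x + y) * Y) := by
    have := sin_sq_add_cos_sq x
    rw [sin_add, cos_add]
    have e3 : (sin x * cos y + cos x * sin y) * (cos x * X + sin x * Y) -
      (sin y * X + sin x * ((cos x * cos y - sin x * sin y) * X +
        (sin x * cos y + cos x * sin y) * Y)) = (sin x ^ 2 + cos x ^ 2 - 1) * (sin y * X) := by ring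
    rw [this] at e3
    linarith
  have id2 : sin (x + y) * (cos x * X + sin x * Y) ^ 2 =
      sin y * (X * (cos x * X + sin x * Y)) + sin x * ((cos x * X + sin x * Y) *
        (cos (x + y) * X + sin (x + y) * Y)) := by
    calc _ = (sin (x + y) * (cos x * X + sin x * Y)) * (cos x * X + sin x * Y) := by ring
      _ = _ := by rw [id1]; ring
  have l1 : 0 ≤ sin (x + y) * (cos x * X + sin x * Y) ^ 2 := by positivity
  have l2 : sin y * (X * (cos x * X + sin x * Y)) ≤ 0 :=
    mul_nonpos_of_nonneg_of_nonpos sy ha.le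
  have l3 : sin x * ((cos x * X + sin x * Y) * (cos (x + y) * X + sin (x + y) * Y)) ≤ 0 :=
    mul_nonpos_of_nonneg_of_nonpos sx hb.le
  have z2 : sin y = 0 := by
    have : sin y * (X * (cos x * X + sin x * Y)) = 0 := by linarith
    rcases mul_eq_zero.1 this with h | h
    · exact h
    · rw [h] at ha; exact absurd ha (lt_irrefl _)
  have z3 : sin x = 0 := by
    have : sin x * ((cos x * X + sin x * Y) * (cos (x + y) * X + sin (x + y) * Y)) = 0 := by
      linarith
    rcases mul_eq_zero.1 this with h | h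
    · exact h
    · rw [h] at hb; exact absurd hb (lt_irrefl _)
  rcases hx.eq_or_lt with h0 | h0
  · rw [← h0] at ha
    simp only [cos_zero, sin_zero, one_mul, zero_mul, add_zero] at ha
    nlinarith [mul_self_nonneg X]
  · have xp : x = π := by
      by_contra h
      have h5 : x < π := lt_of_le_of_ne (by linarith) h
      exact (sin_pos_of_pos_of_lt_pi h0 h5).ne' z3
    have yp : y = 0 := by linarith
    rw [xp, yp] at hb
    simp only [add_zero, cos_pi, sin_pi, zero_mul] at hb
    nlinarith [mul_self_nonneg X]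

lemma sp_ee {θ : ℝ} (h0 : 0 ≤ θ) (hπ : θ ≤ π) : π * sp e1 (ee e1 e2 θ) = θ * sp e1 (-e1) := by
  have h := add_lin (g := fun θ => sp e1 (ee e1 e2 θ)) pi_pos (fun x => sp_nonneg _ _)
    (fun x y hx hy hxy => sp_add h1 h2 h12 hx hy hxy) h0 hπ
  rw [ee_pi] at h
  exact h

end

lemma sp_self (p : V) {c : ℝ} (hc : 0 ≤ c) : sp p (c • p) = 0 := by
  have : sep p (c • p) = ∅ := by
    ext a
    simp only [sep, mem_setOf_eq, mem_empty_iff_false, iff_false, not_and, not_lt]
    intro _
    rw [real_inner_smul_right]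
    nlinarith [mul_nonneg hc (mul_self_nonneg ⟪a, p⟫)]
  unfold sp
  rw [this, measureReal_empty]

lemma sp_neg {p : V} (hp : p ≠ 0) {c : ℝ} (hc : c < 0) : sp p (c • p) = vb V := by
  refine measureReal_congr ?_
  have n1 : ∀ᵐ a : V, ⟪a, p⟫ ≠ 0 := by
    rw [ae_iff]; simpa using plane_zero hp
  filter_upwards [n1] with a ha
  have h1 : ⟪a, p⟫ * ⟪a, c • p⟫ < 0 := by
    rw [real_inner_smul_right]
    have : 0 < ⟪a, p⟫ * ⟪a, p⟫ := mul_self_pos.2 ha
    nlinarith
  have e : (a ∈ sep p (c • p)) = (a ∈ ball (0 : V) 1) := by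
    simp only [sep, mem_setOf_eq, h1, and_true]
  exact e

lemma sp_scale (p q : V) {b c : ℝ} (hb : 0 < b) (hc : 0 < c) : sp (b • p) (c • q) = sp p q := by
  have : sep (b • p) (c • q) = sep p q := by
    ext a
    simp only [sep, mem_setOf_eq]
    rw [real_inner_smul_right, real_inner_smul_right]
    have e : b * ⟪a, p⟫ * (c * ⟪a, q⟫) = (b * c) * (⟪a, p⟫ * ⟪a, q⟫) := by ring
    rw [e]
    have hbc : 0 < b * c := mul_pos hb hc
    constructor
    · rintro ⟨h1, h2⟩
      refine ⟨h1, ?_⟩
      by_contra h3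
      nlinarith [mul_nonneg hbc.le (not_lt.1 h3)]
    · rintro ⟨h1, h2⟩
      exact ⟨h1, mul_neg_of_pos_of_neg hbc h2⟩
  unfold sp
  rw [this]

/-- the angle is proportional to the volume of the separating set -/
theorem angle_sp {p q : V} (hp : p ≠ 0) (hq : q ≠ 0) : angle p q * vb V = π * sp p q := by
  -- unit vectors
  have unit : ∀ p q : V, ‖p‖ = 1 → ‖q‖ = 1 → angle p q * vb V = π * sp p q := by
    intro p q np nq
    have p0 : p ≠ 0 := by
      intro h
      rw [h, norm_zero] at np
      norm_num at np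
    obtain ⟨c, hc⟩ : ∃ c, c = ⟪p, q⟫ := ⟨_, rfl⟩
    have pp : ⟪p, p⟫ = 1 := by rw [real_inner_self_eq_norm_sq, np]; norm_num
    have qq : ⟪q, q⟫ = 1 := by rw [real_inner_self_eq_norm_sq, nq]; norm_num
    have ec : cos (angle p q) = c := by
      rw [cos_angle, np, nq, hc]; norm_num
    have hs : ‖q - c • p‖ ^ 2 = sin (angle p q) ^ 2 := by
      rw [← real_inner_self_eq_norm_sq]
      simp only [inner_sub_left, inner_sub_right, real_inner_smul_left, real_inner_smul_right,
        pp, qq]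
      rw [real_inner_comm p q, ← hc]
      have := sin_sq_add_cos_sq (angle p q)
      rw [ec] at this
      linarith
    have hs2 : ‖q - c • p‖ = sin (angle p q) :=
      (pow_left_inj₀ (norm_nonneg _) (sin_angle_nonneg p q) two_ne_zero).1 hs
    by_cases h0 : sin (angle p q) = 0
    · have hqc : q = c • p := by
        rw [h0, norm_eq_zero, sub_eq_zero] at hs2
        exact hs2
      have hc1 : c ^ 2 = 1 := by
        have := sin_sq_add_cos_sq (angle p q)
        rw [ec, h0] at this
        linarith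
      have hc2 : (c - 1) * (c + 1) = 0 := by linarith
      have hc3 : c = 1 ∨ c = -1 := by
        rcases mul_eq_zero.1 hc2 with h | h
        · exact Or.inl (by linarith)
        · exact Or.inr (by linarith)
      rcases hc3 with h | h
      · have h1 : angle p q = 0 := by
          rw [hqc, h, one_smul]
          exact angle_self p0
        rw [h1, hqc, h, sp_self p zero_le_one]
        ring
      · have h1 : angle p q = π := by
          rw [hqc, h, neg_smul, one_smul]
          exact angle_self_neg_of_nonzero p0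
        rw [h1, hqc, h, sp_neg p0 (by norm_num)]
    · have spos : 0 < sin (angle p q) := lt_of_le_of_ne (sin_angle_nonneg p q) (Ne.symm h0)
      obtain ⟨e2, he2⟩ : ∃ e2, e2 = (sin (angle p q))⁻¹ • (q - c • p) := ⟨_, rfl⟩
      have n2 : ‖e2‖ = 1 := by
        rw [he2, norm_smul, hs2, norm_inv, Real.norm_eq_abs, abs_of_pos spos,
          inv_mul_cancel₀ spos.ne']
      have o2 : ⟪p, e2⟫ = 0 := by
        rw [he2, real_inner_smul_right, inner_sub_right, real_inner_smul_right, pp, ← hc]
        ring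
      have hqe : q = ee p e2 (angle p q) := by
        unfold ee
        rw [ec, he2, smul_smul, mul_inv_cancel₀ spos.ne', one_smul]
        abel
      have h1 := sp_ee np n2 o2 (angle_nonneg p q) (angle_le_pi p q)
      rw [← hqe] at h1
      rw [h1]
      have h2 : sp p (-p) = vb V := by
        have := sp_neg p0 (c := -1) (by norm_num)
        rwa [neg_smul, one_smul] at this
      rw [h2]
  have np : 0 < ‖p‖ := norm_pos_iff.2 hp
  have nq : 0 < ‖q‖ := norm_pos_iff.2 hq
  have h := unit (‖p‖⁻¹ • p) (‖q‖⁻¹ • q)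
    (by rw [norm_smul, norm_inv, norm_norm, inv_mul_cancel₀ np.ne'])
    (by rw [norm_smul, norm_inv, norm_norm, inv_mul_cancel₀ nq.ne'])
  rw [angle_smul_left_of_pos _ _ (inv_pos.2 np), angle_smul_right_of_pos _ _ (inv_pos.2 nq),
    sp_scale _ _ (inv_pos.2 np) (inv_pos.2 nq)] at h
  exact h

end Pool.Agent.U39.AN
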