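import Pool.Agent.U39.AN.B

/-!
The mean angle of two random vectors, and the mean angular velocity of a random curve (helper39).
-/

set_option autoImplicit false

namespace Pool.Agent.U39.AN

open MeasureTheory Set Real InnerProductGeometry Metric Filter Topology
open scoped RealInnerProductSpace

variable {V : Type*} [NormedAddCommGroup V] [InnerProductSpace ℝ V] [FiniteDimensional ℝ V]
  [MeasurableSpace V] [BorelSpace V] {S : Type*} [MeasurableSpace S] {P : Measure S}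

lemma vb_pos : 0 < vb V := by
  refine ENNReal.toReal_pos (measure_ball_pos _ _ one_pos).ne' measure_ball_lt_top.ne

theorem mean_angle [IsProbabilityMeasure P] {H K : S → V} (mH : Measurable H) (mK : Measurable K)
    {ρ : ENNReal} (hρ : ∀ a, P {s | ⟪a, H s⟫ * ⟪a, K s⟫ < 0} ≤ ρ) :
    ∫⁻ s in {s | H s ≠ 0 ∧ K s ≠ 0}, ENNReal.ofReal (angle (H s) (K s)) ∂P ≤
      ENNReal.ofReal π * ρ := by
  have mS : MeasurableSet {s | H s ≠ 0 ∧ K s ≠ 0} :=
    ((mH (measurableSet_singleton 0)).compl).inter ((mK (measurableSet_singleton 0)).compl)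
  obtain ⟨A, hA⟩ : ∃ A : Set (S × V), A = {p | p.2 ∈ ball (0 : V) 1 ∧
    ⟪p.2, H p.1⟫ * ⟪p.2, K p.1⟫ < 0} := ⟨_, rfl⟩
  have mA : MeasurableSet A := by
    rw [hA]
    have h0 : Measurable fun p : S × V => ⟪p.2, H p.1⟫ * ⟪p.2, K p.1⟫ :=
      (measurable_snd.inner (mH.comp measurable_fst)).mul
        (measurable_snd.inner (mK.comp measurable_fst))
    exact (measurable_snd measurableSet_ball).inter (measurableSet_lt h0 measurable_const)
  have h1 : (P.prod volume) A = ∫⁻ s, volume (sep (H s) (K s)) ∂P := by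
    rw [Measure.prod_apply mA]
    refine lintegral_congr fun s => ?_
    congr 1
    ext a
    simp only [hA, sep, mem_preimage, mem_setOf_eq]
  have h2 : (P.prod volume) A ≤ ρ * volume (ball (0 : V) 1) := by
    rw [Measure.prod_apply_symm mA]
    have h3 : ∀ a : V, P ((fun s => (s, a)) ⁻¹' A) ≤ (ball (0 : V) 1).indicator (fun _ => ρ) a := by
      intro a
      by_cases ha : a ∈ ball (0 : V) 1
      · rw [indicator_of_mem ha]
        refine le_trans (measure_mono fun s hs => ?_) (hρ a)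
        rw [hA] at hs
        exact hs.2
      · rw [indicator_of_notMem ha]
        have : (fun s => (s, a)) ⁻¹' A = ∅ := by
          ext s
          simp only [hA, mem_preimage, mem_setOf_eq, mem_empty_iff_false, iff_false]
          exact fun h => ha h.1
        rw [this, measure_empty]
    calc _ ≤ ∫⁻ a, (ball (0 : V) 1).indicator (fun _ => ρ) a := lintegral_mono h3
      _ = _ := by rw [lintegral_indicator measurableSet_ball, setLIntegral_const]
  have h3 : ∀ s ∈ {s | H s ≠ 0 ∧ K s ≠ 0}, ENNReal.ofReal (angle (H s) (K s)) *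
      volume (ball (0 : V) 1) = ENNReal.ofReal π * volume (sep (H s) (K s)) := by
    intro s hs
    have h4 := angle_sp hs.1 hs.2
    have e1 : volume (ball (0 : V) 1) = ENNReal.ofReal (vb V) :=
      (ENNReal.ofReal_toReal measure_ball_lt_top.ne).symm
    have e2 : volume (sep (H s) (K s)) = ENNReal.ofReal (sp (H s) (K s)) :=
      (ENNReal.ofReal_toReal (sep_fin _ _)).symm
    rw [e1, e2, ← ENNReal.ofReal_mul (angle_nonneg _ _), ← ENNReal.ofReal_mul pi_pos.le, h4]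
  have v0 : volume (ball (0 : V) 1) ≠ 0 := (measure_ball_pos _ _ one_pos).ne'
  have v1 : volume (ball (0 : V) 1) ≠ ⊤ := measure_ball_lt_top.ne
  have h4 : (∫⁻ s in {s | H s ≠ 0 ∧ K s ≠ 0}, ENNReal.ofReal (angle (H s) (K s)) ∂P) *
      volume (ball (0 : V) 1) ≤ (ENNReal.ofReal π * ρ) * volume (ball (0 : V) 1) := by
    rw [← lintegral_mul_const' _ _ v1, setLIntegral_congr_fun mS h3,
      lintegral_const_mul' _ _ ENNReal.ofReal_ne_top, mul_assoc]
    gcongr
    calc _ ≤ ∫⁻ s, volume (sep (H s) (K s)) ∂P := setLIntegral_le_lintegral _ _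
      _ = _ := h1.symm
      _ ≤ _ := h2
  exact (ENNReal.mul_le_mul_iff_left v0 v1).1 h4

/-- the angular velocity of a curve at a point `p ≠ 0` with the velocity `w` -/
noncomputable def av (p w : V) : ℝ := √(‖p‖ ^ 2 * ‖w‖ ^ 2 - ⟪p, w⟫ ^ 2) / ‖p‖ ^ 2

lemma sin_form {p q : V} (hp : p ≠ 0) (hq : q ≠ 0) {t : ℝ} (ht : 0 < t) :
    √(‖p‖ ^ 2 * ‖t⁻¹ • (q - p)‖ ^ 2 - ⟪p, t⁻¹ • (q - p)⟫ ^ 2) / (‖p‖ * ‖q‖) ≤
      angle p q / t := by
  have np : 0 < ‖p‖ := norm_pos_iff.2 hp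
  have nq : 0 < ‖q‖ := norm_pos_iff.2 hq
  have e1 : ‖p‖ ^ 2 * ‖t⁻¹ • (q - p)‖ ^ 2 - ⟪p, t⁻¹ • (q - p)⟫ ^ 2 =
      (⟪p, p⟫ * ⟪q, q⟫ - ⟪p, q⟫ * ⟪p, q⟫) * (t⁻¹) ^ 2 := by
    rw [← real_inner_self_eq_norm_sq (t⁻¹ • (q - p)), ← real_inner_self_eq_norm_sq p]
    simp only [real_inner_smul_left, real_inner_smul_right, inner_sub_left, inner_sub_right]
    rw [real_inner_comm p q]
    ring
  have h2 := sin_angle_mul_norm_mul_norm p q
  rw [e1, Real.sqrt_mul' _ (sq_nonneg _), ← h2, Real.sqrt_sq (inv_pos.2 ht).le]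
  have h3 : sin (angle p q) ≤ angle p q := sin_le (angle_nonneg p q)
  have e2 : sin (angle p q) * (‖p‖ * ‖q‖) * t⁻¹ / (‖p‖ * ‖q‖) = sin (angle p q) / t := by
    field_simp
  rw [e2]
  gcongr

theorem mean_speed {c : ℝ → S → V} (mc : ∀ t, Measurable (c t)) {w : S → V}
    (hd : ∀ s, HasDerivAt (fun t => c t s) (w s) 0) {m : ℝ} (hm : 0 ≤ m)
    (h : ∀ t, 0 < t → ∫⁻ s in {s | c 0 s ≠ 0 ∧ c t s ≠ 0},
      ENNReal.ofReal (angle (c 0 s) (c t s)) ∂P ≤ ENNReal.ofReal (m * t)) :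
    ∫⁻ s in {s | c 0 s ≠ 0}, ENNReal.ofReal (av (c 0 s) (w s)) ∂P ≤ ENNReal.ofReal m := by
  obtain ⟨T, hT⟩ : ∃ T : ℕ → ℝ, T = fun n : ℕ => 1 / ((n : ℝ) + 1) := ⟨_, rfl⟩
  have T0 : ∀ n, 0 < T n := fun n => by rw [hT]; positivity
  have Tl : Tendsto T atTop (𝓝 0) := by rw [hT]; exact tendsto_one_div_add_atTop_nhds_zero_nat
  obtain ⟨k, hk⟩ : ∃ k : ℕ → S → ℝ, k = fun n s =>
    √(‖c 0 s‖ ^ 2 * ‖(T n)⁻¹ • (c (T n) s - c 0 s)‖ ^ 2 -
      ⟪c 0 s, (T n)⁻¹ • (c (T n) s - c 0 s)⟫ ^ 2) / (‖c 0 s‖ * ‖c (T n) s‖) := ⟨_, rfl⟩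
  have mk : ∀ n, Measurable (k n) := by
    intro n
    rw [hk]
    have a1 := mc 0
    have a2 := mc (T n)
    have a3 : Measurable fun s => (T n)⁻¹ • (c (T n) s - c 0 s) := (a2.sub a1).const_smul _
    exact ((((a1.norm.pow_const 2).mul (a3.norm.pow_const 2)).sub
      ((a1.inner a3).pow_const 2)).sqrt).div (a1.norm.mul a2.norm)
  have mS : MeasurableSet {s | c 0 s ≠ 0} := (mc 0 (measurableSet_singleton 0)).compl
  have b1 : ∀ n, ∫⁻ s in {s | c 0 s ≠ 0}, ENNReal.ofReal (k n s) ∂P ≤ ENNReal.ofReal m := by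
    intro n
    have mS2 : MeasurableSet {s | c 0 s ≠ 0 ∧ c (T n) s ≠ 0} :=
      mS.inter (mc (T n) (measurableSet_singleton 0)).compl
    have c1 : ∫⁻ s in {s | c 0 s ≠ 0}, ENNReal.ofReal (k n s) ∂P ≤
        ∫⁻ s in {s | c 0 s ≠ 0 ∧ c (T n) s ≠ 0},
          ENNReal.ofReal (angle (c 0 s) (c (T n) s)) * ENNReal.ofReal (T n)⁻¹ ∂P := by
      rw [← lintegral_indicator mS, ← lintegral_indicator mS2]
      refine lintegral_mono fun s => ?_
      by_cases h0 : c 0 s = 0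
      · rw [indicator_of_notMem (by simpa using h0)]
        exact bot_le
      · rw [indicator_of_mem (by simpa using h0)]
        by_cases h1 : c (T n) s = 0
        · have : k n s = 0 := by rw [hk]; simp [h1]
          rw [this, ENNReal.ofReal_zero]
          exact bot_le
        · rw [indicator_of_mem (show s ∈ {s | c 0 s ≠ 0 ∧ c (T n) s ≠ 0} from ⟨h0, h1⟩),
            ← ENNReal.ofReal_mul (angle_nonneg _ _), ← div_eq_mul_inv]
          refine ENNReal.ofReal_le_ofReal ?_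
          rw [hk]
          exact sin_form h0 h1 (T0 n)
    refine c1.trans ?_
    rw [lintegral_mul_const' _ _ ENNReal.ofReal_ne_top]
    calc _ ≤ ENNReal.ofReal (m * T n) * ENNReal.ofReal (T n)⁻¹ := by gcongr; exact h _ (T0 n)
      _ = ENNReal.ofReal m := by
          rw [← ENNReal.ofReal_mul (mul_nonneg hm (T0 n).le), mul_assoc,
            mul_inv_cancel₀ (T0 n).ne', mul_one]
  have lim : ∀ s ∈ {s | c 0 s ≠ 0}, Tendsto (fun n => ENNReal.ofReal (k n s)) atTop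
      (𝓝 (ENNReal.ofReal (av (c 0 s) (w s)))) := by
    intro s hs
    have np : ‖c 0 s‖ ≠ 0 := norm_ne_zero_iff.2 hs
    have l1 : Tendsto (fun n => (T n)⁻¹ • (c (T n) s - c 0 s)) atTop (𝓝 (w s)) := by
      have h1 := (hasDerivAt_iff_tendsto_slope_zero.1 (hd s))
      have h2 : Tendsto T atTop (𝓝[≠] 0) :=
        tendsto_nhdsWithin_of_tendsto_nhds_of_eventually_within _ Tl
          (Eventually.of_forall fun n => (T0 n).ne')
      have h3 := h1.comp h2
      simpa [Function.comp_def] using h3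
    have l2 : Tendsto (fun n => c (T n) s) atTop (𝓝 (c 0 s)) :=
      ((hd s).continuousAt.tendsto).comp Tl
    have l3 := ((((tendsto_const_nhds (x := ‖c 0 s‖ ^ 2)).mul (l1.norm.pow 2)).sub
      (((tendsto_const_nhds (x := c 0 s)).inner l1).pow 2)).sqrt).div
      ((tendsto_const_nhds (x := ‖c 0 s‖)).mul l2.norm) (mul_ne_zero np np)
    have l4 := (ENNReal.continuous_ofReal.tendsto _).comp l3
    have e : av (c 0 s) (w s) = √(‖c 0 s‖ ^ 2 * ‖w s‖ ^ 2 - ⟪c 0 s, w s⟫ ^ 2) /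
        (‖c 0 s‖ * ‖c 0 s‖) := by
      unfold av
      rw [sq ‖c 0 s‖]
    rw [e, hk]
    exact l4
  calc ∫⁻ s in {s | c 0 s ≠ 0}, ENNReal.ofReal (av (c 0 s) (w s)) ∂P
      = ∫⁻ s in {s | c 0 s ≠ 0}, liminf (fun n => ENNReal.ofReal (k n s)) atTop ∂P :=
        setLIntegral_congr_fun mS fun s hs => ((lim s hs).liminf_eq).symm
    _ ≤ liminf (fun n => ∫⁻ s in {s | c 0 s ≠ 0}, ENNReal.ofReal (k n s) ∂P) atTop :=
        lintegral_liminf_le fun n => (mk n).ennreal_ofReal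
    _ ≤ ENNReal.ofReal m := by
        refine liminf_le_of_frequently_le' ?_
        exact (Eventually.of_forall b1).frequently

end Pool.Agent.U39.AN
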