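import Pool.Agent.U39.SZ.X
import Pool.Agent.U39.AN.C

/-!
Several jointly stationary waves (helper39).
-/

set_option autoImplicit false

namespace Pool.Agent.U39.AN

open Pool.Agent.Y139.SW Pool.Agent.U39.SZ MeasureTheory Filter Topology Set
open scoped ContDiff

variable {d k : ℕ}

/-- polynomials in all partial derivatives of several functions -/
noncomputable def poK (Q : MvPolynomial (Fin k × List (Fin d)) ℝ) (f : Fin k → E d → ℝ)
    (y : E d) : ℝ := MvPolynomial.eval (fun j => jt j.2 (f j.1) y) Q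

lemma jt_sm {f : E d → ℝ} (hf : ContDiff ℝ ∞ f) (L : List (Fin d)) : ContDiff ℝ ∞ (jt L f) := by
  induction L with
  | nil => exact hf
  | cons i L ih => exact D_sm ih i

lemma D_scale {g : E d → ℝ} (hg : ContDiff ℝ ∞ g) (c κ : ℝ) (i : Fin d) :
    D i (fun y => c * g (κ • y)) = fun y => c * κ * D i g (κ • y) := by
  funext y
  have h1 : HasFDerivAt (fun y : E d => κ • y) (κ • ContinuousLinearMap.id ℝ (E d)) y :=
    (hasFDerivAt_id y).const_smul κ
  have h2 := (((sdiff hg (κ • y)).hasFDerivAt).comp y h1).const_mul c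
  show fderiv ℝ (fun y => c * g (κ • y)) y _ = _
  have h3 : fderiv ℝ (fun y => c * g (κ • y)) y = _ := h2.fderiv
  rw [h3]
  show c * (fderiv ℝ g (κ • y) (κ • (EuclideanSpace.single i 1 : E d))) = _
  rw [map_smul, smul_eq_mul]
  unfold D
  ring

lemma jt_scale {g : E d → ℝ} (hg : ContDiff ℝ ∞ g) (κ : ℝ) (L : List (Fin d)) :
    jt L (fun y => g (κ • y)) = fun y => κ ^ L.length * jt L g (κ • y) := by
  induction L with
  | nil => simp [jt]
  | cons i L ih =>
    show D i (jt L (fun y => g (κ • y))) = _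
    rw [ih, D_scale (jt_sm hg L)]
    funext y
    rw [List.length_cons, pow_succ]
    rfl

lemma Lap_scale {g : E d → ℝ} (hg : ContDiff ℝ ∞ g) (κ : ℝ) (y : E d) :
    Lap (fun y => g (κ • y)) y = κ ^ 2 * Lap g (κ • y) := by
  unfold Lap
  rw [Finset.mul_sum]
  refine Finset.sum_congr rfl fun i _ => ?_
  have h := jt_scale hg κ [i, i]
  exact congrFun h y

variable {S : Type*} [MeasurableSpace S] {P : Measure S} {τ : E d → S → S}

/-- jointly stationary waves with the frequencies `κ i` -/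
structure JW (P : Measure S) (τ : E d → S → S) (κ : Fin k → ℝ) (F : Fin k → S → E d → ℝ) :
    Prop where
  k0 : ∀ i, 0 < κ i
  k1 : ∀ i, κ i ≤ 1
  meas : ∀ i y, Measurable fun s => F i s y
  smooth : ∀ i s, ContDiff ℝ ∞ (F i s)
  eq : ∀ i s y, Lap (F i s) y = -(κ i ^ 2 * F i s y)
  cov : ∀ i x s y, F i (τ x s) y = F i s (y + x)
  l2 : ∀ i, Integrable (fun s => F i s 0 ^ 2) P

variable {κ : Fin k → ℝ} {F : Fin k → S → E d → ℝ}

lemma JW.wave (h : JW P τ κ F) (i : Fin k) :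
    Wave P (fun x => τ ((κ i)⁻¹ • x)) (fun s y => F i s ((κ i)⁻¹ • y)) := by
  refine ⟨⟨fun y => h.meas i _, fun s => ?_, fun x s y => ?_⟩, fun s y => ?_, ?_⟩
  · exact (h.smooth i s).comp (contDiff_const_smul _)
  · show F i (τ ((κ i)⁻¹ • x) s) ((κ i)⁻¹ • y) = F i s ((κ i)⁻¹ • (y + x))
    rw [h.cov, smul_add]
  · rw [Lap_scale (h.smooth i s), h.eq]
    have := (h.k0 i).ne'
    field_simp
  · have := h.l2 i
    simpa using this

lemma fam {ι : Type*} [Fintype ι] {θ : ℝ → S → S} (hmp : ∀ a, MeasurePreserving (θ a) P P)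
    {u0 : ι → ℕ → S → ℝ → ℝ} (c : ι → ℝ) {b : ι → ℝ}
    (hj : ∀ j, Sys P θ (fun _ : Unit => u0 j) (b j)) :
    Sys P θ (fun j n s t => c j * u0 j n s t) (∑ j, c j ^ 2 * b j) := by
  refine ⟨hmp, fun j n t => ((hj j).meas () n t).const_mul _,
    fun j n s t => ((hj j).der () n s t).const_mul _, fun j n a s t => ?_,
    Finset.sum_nonneg fun j _ => mul_nonneg (sq_nonneg _) (hj j).b0, fun n t => ?_⟩
  · rw [(hj j).cov () n a s t]
  · have m1 : ∀ j, Measurable fun s => ENNReal.ofReal ((c j * u0 j n s t) ^ 2) := fun j =>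
      ((((hj j).meas () n t).const_mul _).pow_const 2).ennreal_ofReal
    rw [lintegral_finsetSum _ fun j _ => m1 j,
      ENNReal.ofReal_sum_of_nonneg fun j _ => mul_nonneg (sq_nonneg _) (hj j).b0]
    refine Finset.sum_le_sum fun j _ => ?_
    have h1 := (hj j).bd n t
    simp only [Finset.univ_unique, Finset.sum_singleton] at h1
    rw [ENNReal.ofReal_mul (sq_nonneg _)]
    calc _ = ∫⁻ s, ENNReal.ofReal (c j ^ 2) * ENNReal.ofReal (u0 j n s t ^ 2) ∂P := by
          refine lintegral_congr fun s => ?_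
          rw [mul_pow, ENNReal.ofReal_mul (sq_nonneg _)]
      _ = ENNReal.ofReal (c j ^ 2) * ∫⁻ s, ENNReal.ofReal (u0 j n s t ^ 2) ∂P :=
          lintegral_const_mul' _ _ ENNReal.ofReal_ne_top
      _ ≤ _ := by gcongr

/-- polynomials on lines are polynomials of stationary systems -/
lemma JW.rep [IsProbabilityMeasure P] (hτ : ∀ x, MeasurePreserving (τ x) P P) (h : JW P τ κ F)
    (Q : MvPolynomial (Fin k × List (Fin d)) ℝ) (x : E d) {v : E d} (hv : ‖v‖ ≤ 1) :
    ∃ (T : Finset (Fin k × List (Fin d))) (u : {j // j ∈ T} → ℕ → S → ℝ → ℝ) (b : ℝ)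
      (q : MvPolynomial {j // j ∈ T} ℝ), Sys P (fun a => τ (a • v)) u b ∧
      q.totalDegree ≤ Q.totalDegree ∧
      ∀ s, hF u q s = fun t => poK Q (fun i => F i s) (x + t • v) := by
  obtain ⟨T, q, hq⟩ := MvPolynomial.exists_finset_rename Q
  have hdeg : q.totalDegree ≤ Q.totalDegree := by
    rw [hq]
    exact deg_rename Subtype.val_injective q
  have hv' : ∀ i, ‖κ i • v‖ ≤ 1 := by
    intro i
    rw [norm_smul, Real.norm_eq_abs, abs_of_pos (h.k0 i)]
    exact mul_le_one₀ (h.k1 i) (norm_nonneg _) hv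
  have hs : ∀ j : {j // j ∈ T}, Sys P (fun a => τ (a • v))
      (fun _ : Unit => ln (fun (_ : Unit) s => jt j.1.2 (fun y => F j.1.1 s ((κ j.1.1)⁻¹ • y)))
        (κ j.1.1 • x) (κ j.1.1 • v) ())
      (∫ s, jt j.1.2 (fun y => F j.1.1 s ((κ j.1.1)⁻¹ • y)) 0 ^ 2 ∂P) := by
    intro j
    have h1 := sys (P := P) (τ := fun x => τ ((κ j.1.1)⁻¹ • x)) (fun x => hτ _)
      (U := fun (_ : Unit) s => jt j.1.2 (fun y => F j.1.1 s ((κ j.1.1)⁻¹ • y)))
      (fun _ => Wave.jt (fun x => hτ _) (h.wave j.1.1) j.1.2) (κ j.1.1 • x) (hv' j.1.1)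
    have e : (fun a : ℝ => (fun x => τ ((κ j.1.1)⁻¹ • x)) (a • κ j.1.1 • v)) =
        fun a => τ (a • v) := by
      funext a
      show τ ((κ j.1.1)⁻¹ • a • κ j.1.1 • v) = τ (a • v)
      rw [smul_comm (κ j.1.1)⁻¹ a, smul_smul (κ j.1.1)⁻¹, inv_mul_cancel₀ (h.k0 _).ne', one_smul]
    rw [e] at h1
    simpa using h1
  refine ⟨T, _, _, q, fam (fun a => hτ _) (fun j => κ j.1.1 ^ j.1.2.length) hs, hdeg, ?_⟩
  intro s
  funext t
  unfold hF poK
  rw [hq, MvPolynomial.eval_rename]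
  congr 1
  congr 1
  funext j
  have h2 : F j.1.1 s = fun y => (fun y => F j.1.1 s ((κ j.1.1)⁻¹ • y)) (κ j.1.1 • y) := by
    funext y
    show F j.1.1 s y = F j.1.1 s ((κ j.1.1)⁻¹ • κ j.1.1 • y)
    rw [smul_smul, inv_mul_cancel₀ (h.k0 _).ne', one_smul]
  have h3 := jt_scale (g := fun y => F j.1.1 s ((κ j.1.1)⁻¹ • y))
    ((h.smooth j.1.1 s).comp (contDiff_const_smul _)) (κ j.1.1) j.1.2
  have h4 : jt j.1.2 (F j.1.1 s) = fun y => κ j.1.1 ^ j.1.2.length *
      jt j.1.2 (fun y => F j.1.1 s ((κ j.1.1)⁻¹ • y)) (κ j.1.1 • y) := by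
    conv_lhs => rw [h2]
    exact h3
  show κ j.1.1 ^ j.1.2.length * jt j.1.2 (fun y => F j.1.1 s ((κ j.1.1)⁻¹ • y))
    (κ j.1.1 • x + t • κ j.1.1 • v) = jt j.1.2 (F j.1.1 s) (x + t • v)
  rw [h4]
  show _ = κ j.1.1 ^ j.1.2.length * jt j.1.2 _ (κ j.1.1 • (x + t • v))
  rw [smul_add, smul_comm (κ j.1.1) t v]

/-- the probability of a change of sign -/
theorem JW.sign [IsProbabilityMeasure P] (hτ : ∀ x, MeasurePreserving (τ x) P P)
    (h : JW P τ κ F) {Q : MvPolynomial (Fin k × List (Fin d)) ℝ} {m : ℕ}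
    (hQ : Q.totalDegree ≤ m) (x y : E d) :
    P {s | poK Q (fun i => F i s) x * poK Q (fun i => F i s) y < 0} ≤
      ENNReal.ofReal (m * ‖y - x‖ / Real.pi) := by
  by_cases hxy : y = x
  · have : {s | poK Q (fun i => F i s) x * poK Q (fun i => F i s) y < 0} = ∅ := by
      ext s
      rw [hxy]
      simp only [mem_setOf_eq, mem_empty_iff_false, iff_false, not_lt]
      exact mul_self_nonneg _
    rw [this, measure_empty]
    exact bot_le
  obtain ⟨r, hr⟩ : ∃ r, r = ‖y - x‖ := ⟨_, rfl⟩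
  have r0 : 0 < r := by rw [hr]; exact norm_pos_iff.2 (sub_ne_zero.2 hxy)
  obtain ⟨v, hv⟩ : ∃ v, v = r⁻¹ • (y - x) := ⟨_, rfl⟩
  have nv : ‖v‖ ≤ 1 := by
    rw [hv, norm_smul, norm_inv, Real.norm_eq_abs, abs_of_pos r0, ← hr, inv_mul_cancel₀ r0.ne']
  have ey : x + r • v = y := by
    rw [hv, smul_smul, mul_inv_cancel₀ r0.ne', one_smul]
    abel
  obtain ⟨T, u, b, q, hs, hdeg, hrep⟩ := h.rep hτ Q x nv
  have h1 := seg_bound hs (hdeg.trans hQ) MeasurableSet.univ (fun _ _ => Iff.rfl) r0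
  rw [univ_inter, ← hr] at *
  have hsub : {s | poK Q (fun i => F i s) x * poK Q (fun i => F i s) y < 0} ⊆
      AA u q ∩ {s | 1 ≤ nz (hF u q s) 0 r} := by
    intro s hs'
    have e0 : hF u q s 0 = poK Q (fun i => F i s) x := by
      rw [hrep]; simp
    have er : hF u q s r = poK Q (fun i => F i s) y := by
      rw [hrep]
      show poK Q _ (x + r • v) = _
      rw [ey]
    have hlt : hF u q s 0 * hF u q s r < 0 := by rw [e0, er]; exact hs'
    refine ⟨⟨0, fun h0 => ?_⟩, ?_⟩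
    · rw [h0, zero_mul] at hlt
      exact lt_irrefl _ hlt
    · have hc := hF_cont hs q s
      have h3 : ∃ t ∈ Icc (0 : ℝ) r, hF u q s t = 0 := by
        rcases mul_neg_iff.1 hlt with ⟨p1, p2⟩ | ⟨p1, p2⟩
        · have := intermediate_value_Icc' r0.le hc.continuousOn
          exact this ⟨p2.le, p1.le⟩
        · have := intermediate_value_Icc r0.le hc.continuousOn
          exact this ⟨p1.le, p2.le⟩
      obtain ⟨t, ht, ht0⟩ := h3
      have htr : t ≠ r := by
        rintro rfl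
        rw [ht0, mul_zero] at hlt
        exact lt_irrefl _ hlt
      have hne : ({t | t ∈ Ico (0 : ℝ) r ∧ hF u q s t = 0} : Set ℝ).Nonempty :=
        ⟨t, ⟨ht.1, lt_of_le_of_ne ht.2 htr⟩, ht0⟩
      show (1 : ENNReal) ≤ nz (hF u q s) 0 r
      unfold nz
      have h4 := Set.one_le_encard_iff_nonempty.2 hne
      exact_mod_cast h4
  have mA := AA_meas hs q
  have mN := nz_meas (a := 0) (hF_meas hs q) (hF_cont hs q) r0
  rw [zero_add] at mN
  have mN' : MeasurableSet {s | 1 ≤ nz (hF u q s) 0 r} := measurableSet_le measurable_const mN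
  calc _ ≤ P (AA u q ∩ {s | 1 ≤ nz (hF u q s) 0 r}) := measure_mono hsub
    _ = ∫⁻ s in AA u q, ({s | 1 ≤ nz (hF u q s) 0 r} : Set S).indicator (fun _ => 1) s ∂P := by
        rw [lintegral_indicator mN', setLIntegral_const, one_mul, Measure.restrict_apply mN',
          inter_comm]
    _ ≤ ∫⁻ s in AA u q, nz (hF u q s) 0 r ∂P := by
        refine lintegral_mono fun s => ?_
        by_cases hs' : s ∈ ({s | 1 ≤ nz (hF u q s) 0 r} : Set S)
        · rw [indicator_of_mem hs']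
          exact hs'
        · rw [indicator_of_notMem hs']
          exact bot_le
    _ ≤ ENNReal.ofReal (m * r / Real.pi) * P (AA u q) := h1
    _ ≤ ENNReal.ofReal (m * r / Real.pi) * 1 := by gcongr; exact prob_le_one
    _ = _ := by rw [mul_one]

lemma poK_cont {f : Fin k → E d → ℝ} (hf : ∀ i, ContDiff ℝ ∞ (f i))
    (Q : MvPolynomial (Fin k × List (Fin d)) ℝ) : Continuous (poK Q f) := by
  unfold poK
  exact (MvPolynomial.continuous_eval Q).comp
    (continuous_pi fun j => (jt_sm (hf j.1) j.2).continuous)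

/-- relations at one point hold everywhere -/
theorem JW.rigid [IsProbabilityMeasure P] (hτ : ∀ x, MeasurePreserving (τ x) P P)
    (h : JW P τ κ F) (Q : MvPolynomial (Fin k × List (Fin d)) ℝ) (x : E d) :
    P {s | poK Q (fun i => F i s) x = 0 ∧ ∃ y, poK Q (fun i => F i s) y ≠ 0} = 0 := by
  obtain ⟨D0, cD, dD⟩ := TopologicalSpace.exists_countable_dense (E d)
  have key : ∀ v ∈ D0, P {s | poK Q (fun i => F i s) x = 0 ∧
      poK Q (fun i => F i s) (x + v) ≠ 0} = 0 := by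
    intro v _
    obtain ⟨c, hc⟩ : ∃ c, c = ‖v‖ + 1 := ⟨_, rfl⟩
    have c0 : 0 < c := by rw [hc]; positivity
    have nv : ‖c⁻¹ • v‖ ≤ 1 := by
      rw [norm_smul, norm_inv, Real.norm_eq_abs, abs_of_pos c0, inv_mul_le_iff₀ c0, hc]
      linarith
    obtain ⟨T, u, b, q, hs, -, hrep⟩ := h.rep hτ Q x nv
    refine measure_mono_null (fun s hs' => ?_) (null_at hs q)
    refine ⟨⟨c, ?_⟩, ?_⟩
    · rw [hrep]
      show poK Q _ (x + c • c⁻¹ • v) ≠ 0
      rw [smul_smul, mul_inv_cancel₀ c0.ne', one_smul]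
      exact hs'.2
    · show hF u q s 0 = 0
      rw [hrep]
      show poK Q _ (x + (0 : ℝ) • c⁻¹ • v) = 0
      rw [zero_smul, add_zero]
      exact hs'.1
  have h1 : P (⋃ v ∈ D0, {s | poK Q (fun i => F i s) x = 0 ∧
      poK Q (fun i => F i s) (x + v) ≠ 0}) = 0 :=
    (measure_biUnion_null_iff cD).2 key
  refine measure_mono_null (fun s hs => ?_) h1
  obtain ⟨h2, y, hy⟩ := hs
  have hc : Continuous fun v => poK Q (fun i => F i s) (x + v) :=
    (poK_cont (fun i => h.smooth i s) Q).comp (by fun_prop)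
  have ho : IsOpen {v | poK Q (fun i => F i s) (x + v) ≠ 0} := isOpen_ne_fun hc continuous_const
  obtain ⟨v, hv, hv'⟩ := dD.exists_mem_open ho ⟨y - x, by
    show poK Q _ (x + (y - x)) ≠ 0
    rw [add_sub_cancel]
    exact hy⟩
  simp only [mem_iUnion]
  exact ⟨v, hv, h2, hv'⟩

end Pool.Agent.U39.AN
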