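import Pool.Agent.U39.AN.D

/-!
Several jointly stationary waves: the canonical space and the mean angle (helper39).
-/

set_option autoImplicit false

namespace Pool.Agent.U39.AN

open Pool.Agent.Y139.SW Pool.Agent.U39.SZ MeasureTheory Filter Topology Set InnerProductGeometry
open scoped ContDiff RealInnerProductSpace

/-- the space of tuples of smooth solutions -/
abbrev SpK (d : ℕ) {k : ℕ} (κ : Fin k → ℝ) : Type :=
  {f : Fin k → E d → ℝ // ∀ i, ContDiff ℝ ∞ (f i) ∧ ∀ y, Lap (f i) y = -(κ i ^ 2 * f i y)}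

variable {d k : ℕ} {κ : Fin k → ℝ}

/-- the shift -/
def shK (x : E d) (f : SpK d κ) : SpK d κ :=
  ⟨fun i y => f.1 i (y + x), fun i => ⟨(f.2 i).1.comp (contDiff_id.add contDiff_const), fun y => by
    rw [Lap_tr]; exact (f.2 i).2 _⟩⟩

lemma shK_me (x : E d) : Measurable (shK (κ := κ) x) := by
  refine Measurable.subtype_mk (measurable_pi_iff.2 fun i => measurable_pi_iff.2 fun y => ?_)
  exact (measurable_pi_apply (y + x)).comp ((measurable_pi_apply i).comp measurable_subtype_coe)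

variable {S : Type*} [MeasurableSpace S] {P : Measure S}

/-- jointly stationary waves, in law -/
structure JL (P : Measure S) (κ : Fin k → ℝ) (F : Fin k → S → E d → ℝ) : Prop where
  k0 : ∀ i, 0 < κ i
  k1 : ∀ i, κ i ≤ 1
  mF : ∀ i y, Measurable fun s => F i s y
  sF : ∀ i s, ContDiff ℝ ∞ (F i s)
  eF : ∀ i s y, Lap (F i s) y + κ i ^ 2 * F i s y = 0
  st : ∀ x : E d, P.map (fun s i y => F i s (y + x)) = P.map (fun s i y => F i s y)
  l2 : ∀ i, Integrable (fun s => F i s 0 ^ 2) P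

theorem JL.canon [IsProbabilityMeasure P] {F : Fin k → S → E d → ℝ} (h : JL P κ F) :
    ∃ Φ : S → SpK d κ, Measurable Φ ∧ (∀ s, (Φ s).1 = fun i => F i s) ∧
      (∀ x : E d, MeasurePreserving (shK (κ := κ) x) (P.map Φ) (P.map Φ)) ∧
      JW (P.map Φ) (shK (κ := κ)) κ (fun i f => f.1 i) := by
  obtain ⟨Φ, hΦ⟩ : ∃ Φ : S → SpK d κ, Φ = fun s => ⟨fun i => F i s, fun i => ⟨h.sF i s, fun y => by
    have := h.eF i s y; linarith⟩⟩ := ⟨_, rfl⟩
  have v1 : ∀ s, (Φ s).1 = fun i => F i s := fun s => by rw [hΦ]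
  have mΦ : Measurable Φ := by
    rw [hΦ]
    exact Measurable.subtype_mk (measurable_pi_iff.2 fun i => measurable_pi_iff.2 (h.mF i))
  refine ⟨Φ, mΦ, v1, fun x => ⟨shK_me x, ?_⟩, h.k0, h.k1, fun i y => ?_, fun i f => (f.2 i).1,
    fun i f y => (f.2 i).2 y, fun i x f y => rfl, fun i => ?_⟩
  · rw [Measure.map_map (shK_me x) mΦ]
    ext A mA
    obtain ⟨B, mB, rfl⟩ := mA
    have e1 : ((shK x ∘ Φ) ⁻¹' (Subtype.val ⁻¹' B)) = (fun s i y => F i s (y + x)) ⁻¹' B := by
      ext s
      show (fun i y => (Φ s).1 i (y + x)) ∈ B ↔ (fun i y => F i s (y + x)) ∈ B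
      rw [v1]
    have e2 : (Φ ⁻¹' (Subtype.val ⁻¹' B)) = (fun s i y => F i s y) ⁻¹' B := by
      ext s
      show (Φ s).1 ∈ B ↔ (fun i y => F i s y) ∈ B
      rw [v1]
    have mV : MeasurableSet (Subtype.val ⁻¹' B : Set (SpK d κ)) := ⟨B, mB, rfl⟩
    rw [Measure.map_apply ((shK_me x).comp mΦ) mV, Measure.map_apply mΦ mV, e1, e2,
      ← Measure.map_apply (measurable_pi_iff.2 fun i => measurable_pi_iff.2 fun y =>
        h.mF i (y + x)) mB,
      ← Measure.map_apply (measurable_pi_iff.2 fun i => measurable_pi_iff.2 fun y => h.mF i y) mB,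
      h.st x]
  · exact (measurable_pi_apply y).comp ((measurable_pi_apply i).comp measurable_subtype_coe)
  · have m0 : Measurable fun f : SpK d κ => f.1 i 0 :=
      (measurable_pi_apply 0).comp ((measurable_pi_apply i).comp measurable_subtype_coe)
    refine (integrable_map_measure (m0.pow_const 2).aestronglyMeasurable mΦ.aemeasurable).2 ?_
    refine (h.l2 i).congr (ae_of_all _ fun s => ?_)
    show F i s 0 ^ 2 = (Φ s).1 i 0 ^ 2
    rw [v1]

theorem JL.facts [IsProbabilityMeasure P] {F : Fin k → S → E d → ℝ} (h : JL P κ F)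
    (Q : MvPolynomial (Fin k × List (Fin d)) ℝ) (x : E d) :
    Measurable (fun s => poK Q (fun i => F i s) x) ∧
    P {s | poK Q (fun i => F i s) x = 0 ∧ ∃ y, poK Q (fun i => F i s) y ≠ 0} = 0 ∧
    ∀ (m : ℕ), Q.totalDegree ≤ m → ∀ y,
      P {s | poK Q (fun i => F i s) x * poK Q (fun i => F i s) y < 0} ≤
        ENNReal.ofReal (m * ‖y - x‖ / Real.pi) := by
  obtain ⟨Φ, mΦ, v1, hτ, hW⟩ := h.canon
  have hQ : IsProbabilityMeasure (P.map Φ) := Measure.isProbabilityMeasure_map mΦ.aemeasurable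
  have mp : ∀ x, Measurable fun f : SpK d κ => poK Q (fun i => f.1 i) x := by
    intro x
    obtain ⟨T, u, b, q, hs, -, hrep⟩ := hW.rep hτ Q x (v := 0) (by simp)
    have h1 := hF_meas hs q 0
    have e : (fun s => hF u q s 0) = fun f : SpK d κ => poK Q (fun i => f.1 i) x := by
      funext f
      rw [hrep]
      simp
    rw [e] at h1
    exact h1
  refine ⟨?_, ?_, fun m hm y => ?_⟩
  · have h1 := (mp x).comp mΦ
    have e : (fun f : SpK d κ => poK Q (fun i => f.1 i) x) ∘ Φ =
        fun s => poK Q (fun i => F i s) x := by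
      funext s
      simp only [Function.comp_apply, v1]
    rw [e] at h1
    exact h1
  · have h1 := hW.rigid hτ Q x
    have h2 : Measure.QuasiMeasurePreserving Φ P (P.map Φ) := ⟨mΦ, Measure.AbsolutelyContinuous.rfl⟩
    have h3 := h2.preimage_null h1
    have e : Φ ⁻¹' {f : SpK d κ | poK Q (fun i => f.1 i) x = 0 ∧
        ∃ y, poK Q (fun i => f.1 i) y ≠ 0} =
        {s | poK Q (fun i => F i s) x = 0 ∧ ∃ y, poK Q (fun i => F i s) y ≠ 0} := by
      ext s
      simp only [mem_preimage, mem_setOf_eq, v1]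
    rw [e] at h3
    exact h3
  · have h1 := hW.sign hτ hm x y
    have mS : MeasurableSet {f : SpK d κ | poK Q (fun i => f.1 i) x * poK Q (fun i => f.1 i) y < 0} :=
      measurableSet_lt ((mp x).mul (mp y)) measurable_const
    rw [Measure.map_apply mΦ mS] at h1
    have e : Φ ⁻¹' {f : SpK d κ | poK Q (fun i => f.1 i) x * poK Q (fun i => f.1 i) y < 0} =
        {s | poK Q (fun i => F i s) x * poK Q (fun i => F i s) y < 0} := by
      ext s
      simp only [mem_preimage, mem_setOf_eq, v1]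
    rw [e] at h1
    exact h1

/-- a vector of polynomials -/
noncomputable def vecK {n : ℕ} (Q : Fin n → MvPolynomial (Fin k × List (Fin d)) ℝ)
    (f : Fin k → E d → ℝ) (y : E d) : EuclideanSpace ℝ (Fin n) :=
  WithLp.toLp 2 fun l => poK (Q l) f y

lemma vecK_inner {n : ℕ} (Q : Fin n → MvPolynomial (Fin k × List (Fin d)) ℝ)
    (f : Fin k → E d → ℝ) (y : E d) (a : EuclideanSpace ℝ (Fin n)) :
    ⟪a, vecK Q f y⟫ = poK (∑ l, MvPolynomial.C (a l) * Q l) f y := by
  unfold poK vecK
  rw [PiLp.inner_apply, map_sum]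
  refine Finset.sum_congr rfl fun l _ => ?_
  rw [map_mul, MvPolynomial.eval_C]
  simp [poK, mul_comm]

lemma sum_deg {n m : ℕ} {Q : Fin n → MvPolynomial (Fin k × List (Fin d)) ℝ}
    (hQ : ∀ l, (Q l).totalDegree ≤ m) (a : Fin n → ℝ) :
    (∑ l, MvPolynomial.C (a l) * Q l).totalDegree ≤ m := by
  refine (MvPolynomial.totalDegree_finset_sum _ _).trans (Finset.sup_le fun l _ => ?_)
  refine (MvPolynomial.totalDegree_mul _ _).trans ?_
  rw [MvPolynomial.totalDegree_C, zero_add]
  exact hQ l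

lemma vecK_meas [IsProbabilityMeasure P] {F : Fin k → S → E d → ℝ} (h : JL P κ F) {n : ℕ}
    (Q : Fin n → MvPolynomial (Fin k × List (Fin d)) ℝ) (x : E d) :
    Measurable fun s => vecK Q (fun i => F i s) x := by
  have h1 : Measurable fun s => (fun l => poK (Q l) (fun i => F i s) x : Fin n → ℝ) :=
    measurable_pi_iff.2 fun l => (h.facts (Q l) x).1
  exact (WithLp.measurable_toLp 2 _).comp h1

/-- the mean angle -/
theorem JL.angle [IsProbabilityMeasure P] {F : Fin k → S → E d → ℝ} (h : JL P κ F) {n m : ℕ}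
    (Q : Fin n → MvPolynomial (Fin k × List (Fin d)) ℝ) (hQ : ∀ l, (Q l).totalDegree ≤ m)
    (x y : E d) :
    ∫⁻ s in {s | vecK Q (fun i => F i s) x ≠ 0 ∧ vecK Q (fun i => F i s) y ≠ 0},
      ENNReal.ofReal (InnerProductGeometry.angle (vecK Q (fun i => F i s) x)
        (vecK Q (fun i => F i s) y)) ∂P ≤ ENNReal.ofReal (m * ‖y - x‖) := by
  have h1 := mean_angle (P := P) (vecK_meas h Q x) (vecK_meas h Q y)
    (ρ := ENNReal.ofReal (m * ‖y - x‖ / Real.pi)) (fun a => by
      simp only [vecK_inner]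
      exact (h.facts (∑ l, MvPolynomial.C (a l) * Q l) x).2.2 m (sum_deg hQ _) y)
  refine h1.trans (le_of_eq ?_)
  rw [← ENNReal.ofReal_mul Real.pi_pos.le, mul_div_cancel₀ _ Real.pi_pos.ne']

lemma poK_sm {f : Fin k → E d → ℝ} (hf : ∀ i, ContDiff ℝ ∞ (f i))
    (Q : MvPolynomial (Fin k × List (Fin d)) ℝ) : ContDiff ℝ ∞ (poK Q f) := by
  induction Q using MvPolynomial.induction_on with
  | C a =>
    have : poK (MvPolynomial.C a) f = fun _ => a := by
      funext y
      simp [poK]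
    rw [this]
    exact contDiff_const
  | add p q hp hq =>
    have : poK (p + q) f = fun y => poK p f y + poK q f y := by
      funext y
      simp [poK]
    rw [this]
    exact hp.add hq
  | mul_X p j hp =>
    have : poK (p * MvPolynomial.X j) f = fun y => poK p f y * jt j.2 (f j.1) y := by
      funext y
      simp [poK]
    rw [this]
    exact hp.mul (jt_sm (hf j.1) j.2)

lemma vecK_sm {f : Fin k → E d → ℝ} (hf : ∀ i, ContDiff ℝ ∞ (f i)) {n : ℕ}
    (Q : Fin n → MvPolynomial (Fin k × List (Fin d)) ℝ) : ContDiff ℝ ∞ (vecK Q f) := by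
  have h1 : ContDiff ℝ ∞ (fun y => (fun l => poK (Q l) f y : Fin n → ℝ)) :=
    contDiff_pi.2 fun l => poK_sm hf (Q l)
  exact (PiLp.continuousLinearEquiv 2 ℝ (fun _ : Fin n => ℝ)).symm.contDiff.comp h1

/-- the mean angular velocity -/
theorem JL.speed [IsProbabilityMeasure P] {F : Fin k → S → E d → ℝ} (h : JL P κ F) {n m : ℕ}
    (Q : Fin n → MvPolynomial (Fin k × List (Fin d)) ℝ) (hQ : ∀ l, (Q l).totalDegree ≤ m)
    (x : E d) {v : E d} (hv : ‖v‖ ≤ 1) :
    ∫⁻ s in {s | vecK Q (fun i => F i s) x ≠ 0},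
      ENNReal.ofReal (av (vecK Q (fun i => F i s) x)
        (deriv (fun t : ℝ => vecK Q (fun i => F i s) (x + t • v)) 0)) ∂P ≤ ENNReal.ofReal m := by
  have hd : ∀ s, HasDerivAt (fun t : ℝ => vecK Q (fun i => F i s) (x + t • v))
      (deriv (fun t : ℝ => vecK Q (fun i => F i s) (x + t • v)) 0) 0 := by
    intro s
    have h1 : Differentiable ℝ (vecK Q (fun i => F i s)) :=
      (vecK_sm (fun i => h.sF i s) Q).differentiable (by simp)
    have h2 : Differentiable ℝ fun t : ℝ => vecK Q (fun i => F i s) (x + t • v) :=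
      h1.comp (by fun_prop)
    exact (h2 0).hasDerivAt
  have h3 := mean_speed (P := P) (c := fun t s => vecK Q (fun i => F i s) (x + t • v))
    (fun t => vecK_meas h Q _) hd (m := m) (by positivity) (fun t ht => by
      have h4 := h.angle Q hQ (x + (0 : ℝ) • v) (x + t • v)
      refine h4.trans (ENNReal.ofReal_le_ofReal ?_)
      have e : x + t • v - (x + (0 : ℝ) • v) = t • v := by rw [zero_smul]; abel
      rw [e, norm_smul, Real.norm_eq_abs, abs_of_pos ht]
      have h5 : t * ‖v‖ ≤ t * 1 := mul_le_mul_of_nonneg_left hv ht.le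
      rw [mul_one] at h5
      exact mul_le_mul_of_nonneg_left h5 (by positivity))
  simpa using h3

end Pool.Agent.U39.AN
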