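import Pool.Agent.U39.AN.F
import Pool.Agent.U39.SZ.Z

/-!
Sharpness of the bound for the mean angle: circularly polarised plane waves (helper39).
-/

set_option autoImplicit false

namespace Pool.Agent.U39.AN

open Pool.Agent.Y139.SW Pool.Agent.U39.SZ MeasureTheory Filter Topology Set InnerProductGeometry
open scoped ContDiff RealInnerProductSpace

variable {d : ℕ}

/-- the pair `cos (y_i0 + s)`, `sin (y_i0 + s)` -/
noncomputable def pp (i0 : Fin d) (i : Fin 2) (s : AddCircle (2 * Real.pi)) (y : E d) : ℝ :=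
  pw i0 (s + (((if i = 0 then 0 else -(Real.pi / 2) : ℝ)) : AddCircle (2 * Real.pi))) y

lemma pp_ex (i0 : Fin d) (s : AddCircle (2 * Real.pi)) :
    ∃ a : ℝ, ∀ y, pp i0 0 s y = Real.cos (y i0 + a) ∧ pp i0 1 s y = Real.sin (y i0 + a) := by
  obtain ⟨a, rfl⟩ := QuotientAddGroup.mk_surjective s
  refine ⟨a, fun y => ⟨?_, ?_⟩⟩
  · unfold pp
    rw [if_pos rfl]
    have := pw_mk i0 (a + 0) y
    rw [AddCircle.coe_add] at this
    rw [add_zero] at this
    exact this
  · unfold pp
    rw [if_neg (by decide)]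
    have := pw_mk i0 (a + -(Real.pi / 2)) y
    rw [AddCircle.coe_add] at this
    refine this.trans ?_
    rw [← add_assoc, ← sub_eq_add_neg, Real.cos_sub_pi_div_two]

lemma pp_JL (i0 : Fin d) : JL (AddCircle.haarAddCircle (T := 2 * Real.pi)) (fun _ : Fin 2 => 1)
    (pp i0) := by
  have mp : ∀ i y, Measurable fun s => pp i0 i s y := by
    intro i y
    exact (pw_meas i0 y).comp (measurable_add_const _)
  refine ⟨fun _ => one_pos, fun _ => le_rfl, mp, fun i s => pw_smooth i0 _, fun i s y => ?_,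
    fun x => ?_, fun i => ?_⟩
  · have := pw_eq i0 (s + (((if i = 0 then 0 else -(Real.pi / 2) : ℝ)) :
      AddCircle (2 * Real.pi))) y
    rw [one_pow, one_mul]
    exact this
  · have e : (fun (s : AddCircle (2 * Real.pi)) (i : Fin 2) (y : E d) => pp i0 i s (y + x)) =
        (fun s i y => pp i0 i s y) ∘ (fun s => s + ((x i0 : ℝ) : AddCircle (2 * Real.pi))) := by
      funext s i y
      simp only [Function.comp_apply]
      unfold pp pw
      have h1 : (y + x) i0 = y i0 + x i0 := rfl
      have h2 : ∀ c p q : AddCircle (2 * Real.pi), s + c + (p + q) = s + q + c + p := by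
        intro c p q
        abel
      rw [h1, AddCircle.coe_add, h2]
    have m1 : Measurable fun (s : AddCircle (2 * Real.pi)) (i : Fin 2) (y : E d) => pp i0 i s y :=
      measurable_pi_iff.2 fun i => measurable_pi_iff.2 fun y => mp i y
    rw [e, ← Measure.map_map m1 (measurable_add_const _), map_add_right_eq_self]
  · refine (integrable_const (1 : ℝ)).mono' ((mp i 0).pow_const 2).aestronglyMeasurable
      (ae_of_all _ fun s => ?_)
    obtain ⟨a, ha⟩ := pw_ex i0 (s + (((if i = 0 then 0 else -(Real.pi / 2) : ℝ)) :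
      AddCircle (2 * Real.pi)))
    unfold pp
    rw [ha, Real.norm_eq_abs, abs_of_nonneg (sq_nonneg _)]
    exact Real.cos_sq_le_one _

/-- real and imaginary part of `(F_0 + i F_1)^m` -/
noncomputable def RI (d : ℕ) : ℕ → MvPolynomial (Fin 2 × List (Fin d)) ℝ ×
    MvPolynomial (Fin 2 × List (Fin d)) ℝ
  | 0 => (1, 0)
  | m + 1 => ((RI d m).1 * MvPolynomial.X (0, []) - (RI d m).2 * MvPolynomial.X (1, []),
      (RI d m).1 * MvPolynomial.X (1, []) + (RI d m).2 * MvPolynomial.X (0, []))

lemma RI_deg (d m : ℕ) : (RI d m).1.totalDegree ≤ m ∧ (RI d m).2.totalDegree ≤ m := by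
  induction m with
  | zero => simp [RI]
  | succ m ih =>
    have h : ∀ (p : MvPolynomial (Fin 2 × List (Fin d)) ℝ) (j : Fin 2 × List (Fin d)),
        p.totalDegree ≤ m → (p * MvPolynomial.X j).totalDegree ≤ m + 1 := by
      intro p j hp
      refine (MvPolynomial.totalDegree_mul _ _).trans ?_
      rw [MvPolynomial.totalDegree_X]
      omega
    constructor
    · exact (MvPolynomial.totalDegree_sub _ _).trans (max_le (h _ _ ih.1) (h _ _ ih.2))
    · exact (MvPolynomial.totalDegree_add _ _).trans (max_le (h _ _ ih.1) (h _ _ ih.2))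

lemma RI_eval (m : ℕ) {f : Fin 2 → E d → ℝ} {y : E d} {φ : ℝ} (h0 : f 0 y = Real.cos φ)
    (h1 : f 1 y = Real.sin φ) :
    poK (RI d m).1 f y = Real.cos (m * φ) ∧ poK (RI d m).2 f y = Real.sin (m * φ) := by
  induction m with
  | zero => simp [RI, poK]
  | succ m ih =>
    have e0 : poK (MvPolynomial.X ((0 : Fin 2), ([] : List (Fin d)))) f y = Real.cos φ := by
      unfold poK
      rw [MvPolynomial.eval_X]
      exact h0
    have e1 : poK (MvPolynomial.X ((1 : Fin 2), ([] : List (Fin d)))) f y = Real.sin φ := by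
      unfold poK
      rw [MvPolynomial.eval_X]
      exact h1
    have a1 : poK (RI d (m + 1)).1 f y = poK (RI d m).1 f y * Real.cos φ -
        poK (RI d m).2 f y * Real.sin φ := by
      rw [← e0, ← e1]
      unfold poK
      rw [← map_mul, ← map_mul, ← map_sub]
      rfl
    have a2 : poK (RI d (m + 1)).2 f y = poK (RI d m).1 f y * Real.sin φ +
        poK (RI d m).2 f y * Real.cos φ := by
      rw [← e0, ← e1]
      unfold poK
      rw [← map_mul, ← map_mul, ← map_add]
      rfl
    rw [a1, a2, ih.1, ih.2]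
    push_cast
    rw [add_mul, one_mul, Real.cos_add, Real.sin_add]
    exact ⟨rfl, by ring⟩

/-- the vector of the real and imaginary part -/
noncomputable def RV (d m : ℕ) : Fin 2 → MvPolynomial (Fin 2 × List (Fin d)) ℝ :=
  ![(RI d m).1, (RI d m).2]

lemma RV_deg (d m : ℕ) (l : Fin 2) : (RV d m l).totalDegree ≤ m := by
  fin_cases l
  · exact (RI_deg d m).1
  · exact (RI_deg d m).2

lemma uc (φ : ℝ) {p : EuclideanSpace ℝ (Fin 2)} (h0 : p 0 = Real.cos φ) (h1 : p 1 = Real.sin φ) :
    ‖p‖ = 1 := by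
  have h : ‖p‖ ^ 2 = 1 := by
    rw [EuclideanSpace.norm_sq_eq, Fin.sum_univ_two, h0, h1, Real.norm_eq_abs, Real.norm_eq_abs,
      sq_abs, sq_abs, Real.cos_sq_add_sin_sq]
  exact (pow_eq_one_iff_of_nonneg (norm_nonneg _) two_ne_zero).1 h

lemma pp_angle (i0 : Fin d) (m : ℕ) (s : AddCircle (2 * Real.pi)) (x : E d) {t : ℝ} (h0 : 0 ≤ t)
    (ht : m * t ≤ Real.pi) :
    vecK (RV d m) (fun i => pp i0 i s) x ≠ 0 ∧
    vecK (RV d m) (fun i => pp i0 i s) (x + t • EuclideanSpace.single i0 1) ≠ 0 ∧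
    InnerProductGeometry.angle (vecK (RV d m) (fun i => pp i0 i s) x)
      (vecK (RV d m) (fun i => pp i0 i s) (x + t • EuclideanSpace.single i0 1)) = m * t := by
  obtain ⟨a, ha⟩ := pp_ex i0 s
  have hv : ∀ y : E d, vecK (RV d m) (fun i => pp i0 i s) y 0 = Real.cos (m * (y i0 + a)) ∧
      vecK (RV d m) (fun i => pp i0 i s) y 1 = Real.sin (m * (y i0 + a)) := by
    intro y
    have h := RI_eval (f := fun i => pp i0 i s) (y := y) (φ := y i0 + a) m (ha y).1 (ha y).2
    exact h
  have hn : ∀ y : E d, ‖vecK (RV d m) (fun i => pp i0 i s) y‖ = 1 := fun y =>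
    uc _ (hv y).1 (hv y).2
  have hne : ∀ y : E d, vecK (RV d m) (fun i => pp i0 i s) y ≠ 0 := by
    intro y h
    have := hn y
    rw [h, norm_zero] at this
    norm_num at this
  refine ⟨hne _, hne _, ?_⟩
  unfold InnerProductGeometry.angle
  rw [hn, hn, mul_one, div_one, PiLp.inner_apply, Fin.sum_univ_two, (hv _).1, (hv _).1, (hv _).2,
    (hv _).2]
  have e : (x + t • EuclideanSpace.single i0 (1 : ℝ) : E d) i0 = x i0 + t := by simp
  rw [e]
  have e2 : ⟪Real.cos (m * (x i0 + a)), Real.cos (m * (x i0 + t + a))⟫ +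
      ⟪Real.sin (m * (x i0 + a)), Real.sin (m * (x i0 + t + a))⟫ = Real.cos (m * t) := by
    have h3 : (m : ℝ) * t = m * (x i0 + t + a) - m * (x i0 + a) := by ring
    rw [h3, Real.cos_sub]
    simp
  rw [e2, Real.arccos_cos (by positivity) ht]

end Pool.Agent.U39.AN
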