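import Pool.Agent.U39.AN.G

/-!
A regularised power of a complex number and its derivative (helper39).
-/

set_option autoImplicit false

namespace Pool.Agent.U39.AN

open Filter Topology

/-- the point of the plane -/
noncomputable def zz (u w : ℝ) : ℂ := (u : ℂ) + (w : ℂ) * Complex.I

lemma zz_norm (u w : ℝ) : ‖zz u w‖ ^ 2 = u ^ 2 + w ^ 2 := by
  rw [Complex.sq_norm, Complex.normSq_apply]
  simp [zz]
  ring

/-- `z^n (ε + |z|²)^(-n/2)` -/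
noncomputable def gE (ε : ℝ) (n : ℕ) (u w : ℝ) : ℂ :=
  zz u w ^ n * (((ε + u ^ 2 + w ^ 2) ^ (-(n : ℝ) / 2) : ℝ) : ℂ)

/-- its derivative in the direction `a + b i` -/
noncomputable def gD (ε : ℝ) (n : ℕ) (u w a b : ℝ) : ℂ :=
  n * zz u w ^ (n - 1) * (((ε + u ^ 2 + w ^ 2) ^ (-(n : ℝ) / 2 - 1) : ℝ) : ℂ) *
    (ε * zz a b + Complex.I * zz u w * ((u * b - w * a : ℝ) : ℂ))

lemma gE_der {u w : ℝ → ℝ} {a b : ℝ} {t : ℝ} (hu : HasDerivAt u a t) (hw : HasDerivAt w b t)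
    {ε : ℝ} (hε : 0 < ε) {n : ℕ} (hn : 1 ≤ n) :
    HasDerivAt (fun t => gE ε n (u t) (w t)) (gD ε n (u t) (w t) a b) t := by
  obtain ⟨m, rfl⟩ : ∃ m, n = m + 1 := ⟨n - 1, by omega⟩
  have hz : HasDerivAt (fun t => zz (u t) (w t)) (zz a b) t :=
    hu.ofReal_comp.add (hw.ofReal_comp.mul_const Complex.I)
  have r0 : 0 < ε + u t ^ 2 + w t ^ 2 := by positivity
  have hr : HasDerivAt (fun t => ε + u t ^ 2 + w t ^ 2) (2 * u t * a + 2 * w t * b) t := by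
    have h1 : HasDerivAt (fun t => ε + u t ^ 2 + w t ^ 2) _ t :=
      ((hu.pow 2).const_add ε).add (hw.pow 2)
    refine h1.congr_deriv ?_
    simp
  have hc := (hr.rpow_const (p := -((m + 1 : ℕ) : ℝ) / 2) (Or.inl r0.ne')).ofReal_comp
  have h2 := (hz.pow (m + 1)).mul hc
  refine h2.congr_deriv ?_
  unfold gD
  have e1 : (ε + u t ^ 2 + w t ^ 2) ^ (-((m + 1 : ℕ) : ℝ) / 2) =
      (ε + u t ^ 2 + w t ^ 2) ^ (-((m + 1 : ℕ) : ℝ) / 2 - 1) * (ε + u t ^ 2 + w t ^ 2) := by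
    rw [Real.rpow_sub_one r0.ne']
    field_simp
  obtain ⟨c, hc'⟩ : ∃ c : ℝ, c = (ε + u t ^ 2 + w t ^ 2) ^ (-((m + 1 : ℕ) : ℝ) / 2 - 1) :=
    ⟨_, rfl⟩
  rw [e1, ← hc']
  simp only [Nat.add_sub_cancel, Pi.pow_apply]
  unfold zz
  push_cast
  linear_combination ((m + 1 : ℂ) * ((u t : ℂ) + w t * Complex.I) ^ m * c *
    ((w t : ℂ) * (w t * a - u t * b))) * Complex.I_sq

lemma pw_le {ε : ℝ} (hε : 0 < ε) (n : ℕ) (u w : ℝ) :
    ‖zz u w‖ ^ n * (ε + u ^ 2 + w ^ 2) ^ (-(n : ℝ) / 2) ≤ 1 := by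
  have r0 : 0 < ε + u ^ 2 + w ^ 2 := by positivity
  have h1 : ‖zz u w‖ ^ n = (‖zz u w‖ ^ 2) ^ ((n : ℝ) / 2) := by
    rw [← Real.rpow_natCast, ← Real.rpow_natCast, ← Real.rpow_mul (norm_nonneg _)]
    congr 1
    push_cast
    ring
  have h2 : (‖zz u w‖ ^ 2) ^ ((n : ℝ) / 2) ≤ (ε + u ^ 2 + w ^ 2) ^ ((n : ℝ) / 2) := by
    refine Real.rpow_le_rpow (by positivity) ?_ (by positivity)
    rw [zz_norm]
    linarith
  have h3 : -(n : ℝ) / 2 = -((n : ℝ) / 2) := by ring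
  rw [h1, h3, Real.rpow_neg r0.le]
  have h4 : 0 < (ε + u ^ 2 + w ^ 2) ^ ((n : ℝ) / 2) := Real.rpow_pos_of_pos r0 _
  rw [← div_eq_mul_inv, div_le_one h4]
  exact h2

lemma gE_norm {ε : ℝ} (hε : 0 < ε) (n : ℕ) (u w : ℝ) : ‖gE ε n u w‖ ≤ 1 := by
  unfold gE
  have r0 : 0 < ε + u ^ 2 + w ^ 2 := by positivity
  rw [norm_mul, norm_pow, Complex.norm_real, Real.norm_eq_abs,
    abs_of_nonneg (Real.rpow_nonneg r0.le _)]
  exact pw_le hε n u w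

lemma J_le (u w a b : ℝ) : |u * b - w * a| ≤ ‖zz u w‖ * ‖zz a b‖ := by
  refine abs_le_of_sq_le_sq ?_ (by positivity)
  rw [mul_pow, zz_norm, zz_norm]
  nlinarith [sq_nonneg (u * a + w * b)]

lemma gD_norm {ε : ℝ} (hε : 0 < ε) {n : ℕ} (hn : 1 ≤ n) (u w a b : ℝ) :
    ‖gD ε n u w a b * ((u * b - w * a : ℝ) : ℂ)‖ ≤ n * (a ^ 2 + b ^ 2) := by
  have r0 : 0 < ε + u ^ 2 + w ^ 2 := by positivity
  obtain ⟨z, hz⟩ : ∃ z, z = ‖zz u w‖ := ⟨_, rfl⟩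
  obtain ⟨h, hh⟩ : ∃ h, h = ‖zz a b‖ := ⟨_, rfl⟩
  obtain ⟨J, hJ⟩ : ∃ J, J = |u * b - w * a| := ⟨_, rfl⟩
  have z0 : 0 ≤ z := by rw [hz]; exact norm_nonneg _
  have h0 : 0 ≤ h := by rw [hh]; exact norm_nonneg _
  have J0 : 0 ≤ J := by rw [hJ]; exact abs_nonneg _
  have z2 : z ^ 2 = u ^ 2 + w ^ 2 := by rw [hz]; exact zz_norm u w
  have h2 : h ^ 2 = a ^ 2 + b ^ 2 := by rw [hh]; exact zz_norm a b
  have Jle : J ≤ z * h := by rw [hJ, hz, hh]; exact J_le u w a b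
  obtain ⟨c, hc⟩ : ∃ c, c = (ε + u ^ 2 + w ^ 2) ^ (-(n : ℝ) / 2 - 1) := ⟨_, rfl⟩
  have c0 : 0 < c := by rw [hc]; exact Real.rpow_pos_of_pos r0 _
  have e1 : (ε + u ^ 2 + w ^ 2) ^ (-(n : ℝ) / 2) = c * (ε + u ^ 2 + w ^ 2) := by
    rw [hc, Real.rpow_sub_one r0.ne']
    field_simp
  have hb := pw_le hε n u w
  rw [e1, ← hz] at hb
  have hs : ‖(ε : ℂ) * zz a b + Complex.I * zz u w * ((u * b - w * a : ℝ) : ℂ)‖ ≤
      (ε + z ^ 2) * h := by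
    refine (norm_add_le _ _).trans ?_
    rw [norm_mul, norm_mul, norm_mul, Complex.norm_I, one_mul, Complex.norm_real,
      Complex.norm_real, Real.norm_eq_abs, Real.norm_eq_abs, abs_of_pos hε, ← hz, ← hh, ← hJ]
    nlinarith [mul_le_mul_of_nonneg_left Jle z0]
  unfold gD
  rw [norm_mul, norm_mul, norm_mul, norm_mul, norm_pow, Complex.norm_natCast, Complex.norm_real,
    Complex.norm_real, Real.norm_eq_abs, Real.norm_eq_abs, ← hc, abs_of_pos c0, ← hz, ← hJ]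
  have zn : z ^ (n - 1) * z = z ^ n := by
    rw [← pow_succ]
    congr 1
    omega
  calc (n : ℝ) * z ^ (n - 1) * c * ‖(ε : ℂ) * zz a b + Complex.I * zz u w *
        ((u * b - w * a : ℝ) : ℂ)‖ * J
      ≤ (n : ℝ) * z ^ (n - 1) * c * ((ε + z ^ 2) * h) * (z * h) := by
        gcongr
    _ = n * ((z ^ (n - 1) * z) * (c * (ε + z ^ 2))) * h ^ 2 := by ring
    _ = n * (z ^ n * (c * (ε + u ^ 2 + w ^ 2))) * (a ^ 2 + b ^ 2) := by
        rw [zn, h2, z2, add_assoc]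
    _ ≤ n * 1 * (a ^ 2 + b ^ 2) := by gcongr
    _ = _ := by ring

/-- the limit -/
lemma gD_lim {n : ℕ} (hn : 1 ≤ n) (u w a b : ℝ) {T : ℕ → ℝ} (T0 : ∀ k, 0 < T k)
    (hT : Tendsto T atTop (𝓝 0)) :
    Tendsto (fun k => gD (T k) n u w a b * ((u * b - w * a : ℝ) : ℂ)) atTop
      (𝓝 (n * Complex.I * (zz u w / (‖zz u w‖ : ℂ)) ^ n *
        (((u * b - w * a) ^ 2 / ‖zz u w‖ ^ 2 : ℝ) : ℂ))) := by
  by_cases hz : zz u w = 0
  · have hJ : u * b - w * a = 0 := by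
      have := J_le u w a b
      rw [hz, norm_zero, zero_mul] at this
      exact abs_eq_zero.1 (le_antisymm this (abs_nonneg _))
    rw [hJ]
    simp
  · have nz : 0 < ‖zz u w‖ := norm_pos_iff.2 hz
    have r0 : 0 < u ^ 2 + w ^ 2 := by rw [← zz_norm]; positivity
    have l1 : Tendsto (fun k => T k + u ^ 2 + w ^ 2) atTop (𝓝 (u ^ 2 + w ^ 2)) := by
      have := (hT.add_const (u ^ 2)).add_const (w ^ 2)
      rwa [zero_add] at this
    have l2 : Tendsto (fun k => (T k + u ^ 2 + w ^ 2) ^ (-(n : ℝ) / 2 - 1)) atTop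
        (𝓝 ((u ^ 2 + w ^ 2) ^ (-(n : ℝ) / 2 - 1))) := l1.rpow_const (Or.inl r0.ne')
    have l3 : Tendsto (fun k => gD (T k) n u w a b * ((u * b - w * a : ℝ) : ℂ)) atTop
        (𝓝 (n * zz u w ^ (n - 1) * (((u ^ 2 + w ^ 2) ^ (-(n : ℝ) / 2 - 1) : ℝ) : ℂ) *
        ((0 : ℝ) * zz a b + Complex.I * zz u w * ((u * b - w * a : ℝ) : ℂ)) *
          ((u * b - w * a : ℝ) : ℂ))) := by
      have m1 := (Complex.continuous_ofReal.tendsto _).comp l2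
      have m2 := (Complex.continuous_ofReal.tendsto _).comp hT
      exact ((m1.const_mul _).mul ((m2.mul_const _).add_const _)).mul_const _
    convert l3 using 2
    have e1 : (u ^ 2 + w ^ 2) ^ (-(n : ℝ) / 2 - 1) = (‖zz u w‖ ^ n)⁻¹ * (‖zz u w‖ ^ 2)⁻¹ := by
      rw [← zz_norm, Real.rpow_sub_one (by positivity), ← Real.rpow_natCast ‖zz u w‖ 2,
        ← Real.rpow_mul nz.le, ← Real.rpow_natCast ‖zz u w‖ n, ← Real.rpow_neg nz.le,
        div_eq_mul_inv]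
      congr 2
      push_cast
      ring
    have zn : zz u w ^ n = zz u w ^ (n - 1) * zz u w := by
      rw [← pow_succ]
      congr 1
      omega
    rw [e1, div_pow, zn]
    push_cast
    ring

end Pool.Agent.U39.AN
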