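import Pool.Agent.U39.AN.H

/-!
The current of a pair of stationary waves: vanishing of the weighted circular moments (helper39).
-/

set_option autoImplicit false

namespace Pool.Agent.U39.AN

open Pool.Agent.Y139.SW Pool.Agent.U39.SZ MeasureTheory Filter Topology Set
open scoped ContDiff

variable {d : ℕ} {S : Type*} [MeasurableSpace S] {P : Measure S} {τ : E d → S → S}

lemma line_der {f : E d → ℝ} (hf : ContDiff ℝ ∞ f) (i : Fin d) :
    HasDerivAt (fun t : ℝ => f (t • EuclideanSpace.single i 1)) (D i f 0) 0 := by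
  have h1 : HasDerivAt (fun t : ℝ => t • (EuclideanSpace.single i (1 : ℝ) : E d))
      ((1 : ℝ) • EuclideanSpace.single i 1) 0 := (hasDerivAt_id 0).smul_const _
  have h2 := (sdiff hf ((0 : ℝ) • EuclideanSpace.single i 1)).hasFDerivAt.comp_hasDerivAt 0 h1
  rw [one_smul] at h2
  refine h2.congr_deriv ?_
  rw [zero_smul]
  rfl

lemma D_of {f : E d → ℝ} (hf : ContDiff ℝ ∞ f) (i : Fin d) {c : ℝ}
    (h : HasDerivAt (fun t : ℝ => f (t • EuclideanSpace.single i 1)) c 0) : D i f 0 = c :=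
  (line_der hf i).unique h

lemma gE_sm {ε : ℝ} (hε : 0 < ε) (n : ℕ) : ContDiff ℝ ∞ fun p : ℝ × ℝ => gE ε n p.1 p.2 := by
  have h1 : ContDiff ℝ ∞ fun p : ℝ × ℝ => zz p.1 p.2 :=
    (Complex.ofRealCLM.contDiff.comp contDiff_fst).add
      ((Complex.ofRealCLM.contDiff.comp contDiff_snd).mul contDiff_const)
  have h2 : ContDiff ℝ ∞ fun p : ℝ × ℝ => (ε + p.1 ^ 2 + p.2 ^ 2) ^ (-(n : ℝ) / 2) := by
    refine ContDiff.rpow_const_of_ne ?_ fun p => ?_
    · exact (contDiff_const.add (contDiff_fst.pow 2)).add (contDiff_snd.pow 2)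
    · positivity
  exact (h1.pow n).mul (Complex.ofRealCLM.contDiff.comp h2)

/-- the current -/
noncomputable def Jc (U V : S → E d → ℝ) (i : Fin d) (s : S) (y : E d) : ℝ :=
  U s y * D i (V s) y - V s y * D i (U s) y

lemma Jc_sf {U V : S → E d → ℝ} (hU : SF τ U) (hV : SF τ V) (i : Fin d) : SF τ (Jc U V i) := by
  have h1 := hU.mul (hV.der i)
  have h2 := hV.mul (hU.der i)
  exact ⟨fun y => (h1.meas y).sub (h2.meas y), fun s => (h1.smooth s).sub (h2.smooth s),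
    fun x s y => congrArg₂ (· - ·) (h1.cov x s y) (h2.cov x s y)⟩

lemma Gl_sf {U V : S → E d → ℝ} (hU : SF τ U) (hV : SF τ V) {ε : ℝ} (hε : 0 < ε) (n : ℕ)
    (l : ℂ →L[ℝ] ℝ) : SF τ (fun s y => l (gE ε n (U s y) (V s y))) := by
  refine ⟨fun y => ?_, fun s => ?_, fun x s y => by rw [hU.cov, hV.cov]⟩
  · exact l.continuous.measurable.comp ((gE_sm hε n).continuous.measurable.comp
      ((hU.meas y).prodMk (hV.meas y)))
  · exact l.contDiff.comp ((gE_sm hε n).comp ((hU.smooth s).prodMk (hV.smooth s)))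

/-- the integrand of the regularised identity -/
noncomputable def Ps (U V : S → E d → ℝ) (ε : ℝ) (n : ℕ) (i : Fin d) (s : S) : ℂ :=
  gD ε n (U s 0) (V s 0) (D i (U s) 0) (D i (V s) 0) * ((Jc U V i s 0 : ℝ) : ℂ)

lemma Ps_norm {U V : S → E d → ℝ} {ε : ℝ} (hε : 0 < ε) {n : ℕ} (hn : 1 ≤ n) (i : Fin d) (s : S) :
    ‖Ps U V ε n i s‖ ≤ n * (D i (U s) 0 ^ 2 + D i (V s) 0 ^ 2) :=
  gD_norm hε hn _ _ _ _

lemma Dl {U V : S → E d → ℝ} (hU : SF τ U) (hV : SF τ V) {ε : ℝ} (hε : 0 < ε) {n : ℕ}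
    (hn : 1 ≤ n) (l : ℂ →L[ℝ] ℝ) (i : Fin d) (s : S) :
    D i (fun y => l (gE ε n (U s y) (V s y)) * Jc U V i s y) 0 =
      l (Ps U V ε n i s) + l (gE ε n (U s 0) (V s 0)) *
        (U s 0 * D i (D i (V s)) 0 - V s 0 * D i (D i (U s)) 0) := by
  have hu := line_der (hU.smooth s) i
  have hv := line_der (hV.smooth s) i
  have hu' := line_der (D_sm (hU.smooth s) i) i
  have hv' := line_der (D_sm (hV.smooth s) i) i
  have h1 := l.hasFDerivAt.comp_hasDerivAt (0 : ℝ) (gE_der hu hv hε hn)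
  have h2 := (hu.mul hv').sub (hv.mul hu')
  have h3 := h1.mul h2
  have hs : ContDiff ℝ ∞ (fun y => l (gE ε n (U s y) (V s y)) * Jc U V i s y) :=
    ((Gl_sf hU hV hε n l).smooth s).mul ((Jc_sf hU hV i).smooth s)
  rw [D_of hs i h3]
  simp only [Function.comp_apply, Pi.sub_apply, Pi.mul_apply, zero_smul]
  have e1 : l (Ps U V ε n i s) = l (gD ε n (U s 0) (V s 0) (D i (U s) 0) (D i (V s) 0)) *
      Jc U V i s 0 := by
    unfold Ps
    rw [mul_comm (gD ε n _ _ _ _), ← Complex.real_smul, map_smul, smul_eq_mul, mul_comm]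
  rw [e1]
  unfold Jc
  ring

lemma Ps_meas {U V : S → E d → ℝ} (hU : SF τ U) (hV : SF τ V) {ε : ℝ} (hε : 0 < ε) {n : ℕ}
    (i : Fin d) : Measurable (Ps U V ε n i) := by
  have a1 := hU.meas 0
  have a2 := hV.meas 0
  have a3 := (hU.der i).meas 0
  have a4 := (hV.der i).meas 0
  have a5 := (Jc_sf hU hV i).meas 0
  have z1 : Measurable fun s => zz (U s 0) (V s 0) :=
    (Complex.measurable_ofReal.comp a1).add ((Complex.measurable_ofReal.comp a2).mul_const _)
  have z2 : Measurable fun s => zz (D i (U s) 0) (D i (V s) 0) :=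
    (Complex.measurable_ofReal.comp a3).add ((Complex.measurable_ofReal.comp a4).mul_const _)
  have r1 : Measurable fun s => (ε + U s 0 ^ 2 + V s 0 ^ 2) ^ (-(n : ℝ) / 2 - 1) :=
    ((measurable_const.add (a1.pow_const 2)).add (a2.pow_const 2)).pow_const _
  have r2 : Measurable fun s => U s 0 * D i (V s) 0 - V s 0 * D i (U s) 0 :=
    (a1.mul a4).sub (a2.mul a3)
  unfold Ps gD
  exact (((measurable_const.mul (z1.pow_const _)).mul (Complex.measurable_ofReal.comp r1)).mul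
    ((z2.const_mul _).add ((z1.const_mul _).mul (Complex.measurable_ofReal.comp r2)))).mul
    (Complex.measurable_ofReal.comp a5)

lemma Ps_int {U V : S → E d → ℝ} [IsProbabilityMeasure P]
    (hτ : ∀ x, MeasurePreserving (τ x) P P) (hU : Wave P τ U) (hV : Wave P τ V)
    {ε : ℝ} (hε : 0 < ε) {n : ℕ} (hn : 1 ≤ n) (i : Fin d) : Integrable (Ps U V ε n i) P := by
  have h1 : Integrable (fun s => (n : ℝ) * (D i (U s) 0 ^ 2 + D i (V s) 0 ^ 2)) P :=
    ((hU.der hτ i).l2.add (hV.der hτ i).l2).const_mul _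
  exact h1.mono' (Ps_meas hU.sf hV.sf hε i).aestronglyMeasurable
    (ae_of_all _ fun s => Ps_norm hε hn i s)

/-- the identity for the regularised function -/
lemma reg_l {U V : S → E d → ℝ} [IsProbabilityMeasure P]
    (hτ : ∀ x, MeasurePreserving (τ x) P P) (hU : Wave P τ U) (hV : Wave P τ V)
    {ε : ℝ} (hε : 0 < ε) {n : ℕ} (hn : 1 ≤ n) (l : ℂ →L[ℝ] ℝ) (hl : ∀ z, |l z| ≤ ‖z‖) :
    ∫ s, l (∑ i, Ps U V ε n i s) ∂P = 0 := by
  have sG := fun i => (Gl_sf hU.sf hV.sf hε n l).mul (Jc_sf hU.sf hV.sf i)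
  have WU := fun i => hU.der hτ i
  have WV := fun i => hV.der hτ i
  have WUU := fun i => (WU i).der hτ i
  have WVV := fun i => (WV i).der hτ i
  have iR : ∀ i, Integrable (fun s => l (gE ε n (U s 0) (V s 0)) *
      (U s 0 * D i (D i (V s)) 0 - V s 0 * D i (D i (U s)) 0)) P := by
    intro i
    have h1 : Integrable (fun s => (U s 0 ^ 2 + D i (D i (V s)) 0 ^ 2) +
        (V s 0 ^ 2 + D i (D i (U s)) 0 ^ 2)) P :=
      (hU.l2.add (WVV i).l2).add (hV.l2.add (WUU i).l2)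
    have m1 : Measurable (fun s => l (gE ε n (U s 0) (V s 0)) *
        (U s 0 * D i (D i (V s)) 0 - V s 0 * D i (D i (U s)) 0)) :=
      ((Gl_sf hU.sf hV.sf hε n l).meas 0).mul
        (((hU.sf.meas 0).mul ((WVV i).sf.meas 0)).sub ((hV.sf.meas 0).mul ((WUU i).sf.meas 0)))
    refine h1.mono' m1.aestronglyMeasurable (ae_of_all _ fun s => ?_)
    rw [Real.norm_eq_abs, abs_mul]
    have b1 : |l (gE ε n (U s 0) (V s 0))| ≤ 1 := (hl _).trans (gE_norm hε n _ _)
    have b2 : |U s 0 * D i (D i (V s)) 0 - V s 0 * D i (D i (U s)) 0| ≤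
        (U s 0 ^ 2 + D i (D i (V s)) 0 ^ 2) + (V s 0 ^ 2 + D i (D i (U s)) 0 ^ 2) := by
      rw [abs_le]
      constructor <;> nlinarith [sq_nonneg (U s 0 + D i (D i (V s)) 0),
        sq_nonneg (U s 0 - D i (D i (V s)) 0), sq_nonneg (V s 0 + D i (D i (U s)) 0),
        sq_nonneg (V s 0 - D i (D i (U s)) 0)]
    calc _ ≤ 1 * ((U s 0 ^ 2 + D i (D i (V s)) 0 ^ 2) + (V s 0 ^ 2 + D i (D i (U s)) 0 ^ 2)) :=
          mul_le_mul b1 b2 (abs_nonneg _) zero_le_one
      _ = _ := one_mul _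
  have iP : ∀ i, Integrable (fun s => l (Ps U V ε n i s)) P := fun i =>
    l.integrable_comp (Ps_int hτ hU hV hε hn i)
  have eD : ∀ i s, D i ((fun s y => l (gE ε n (U s y) (V s y)) * Jc U V i s y) s) 0 =
      l (Ps U V ε n i s) + l (gE ε n (U s 0) (V s 0)) *
        (U s 0 * D i (D i (V s)) 0 - V s 0 * D i (D i (U s)) 0) := fun i s =>
    Dl hU.sf hV.sf hε hn l i s
  have z : ∀ i, ∫ s, (l (Ps U V ε n i s) + l (gE ε n (U s 0) (V s 0)) *
        (U s 0 * D i (D i (V s)) 0 - V s 0 * D i (D i (U s)) 0)) ∂P = 0 := by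
    intro i
    have h1 := div0 hτ (sG i) i ?_ ?_
    · simp only [eD] at h1
      exact h1
    · have h1 : Integrable (fun s => (U s 0 ^ 2 + D i (V s) 0 ^ 2) +
          (V s 0 ^ 2 + D i (U s) 0 ^ 2)) P :=
        (hU.l2.add (WV i).l2).add (hV.l2.add (WU i).l2)
      refine h1.mono' ((sG i).meas 0).aestronglyMeasurable (ae_of_all _ fun s => ?_)
      show ‖l (gE ε n (U s 0) (V s 0)) * Jc U V i s 0‖ ≤ _
      rw [Real.norm_eq_abs, abs_mul]
      have b1 : |l (gE ε n (U s 0) (V s 0))| ≤ 1 := (hl _).trans (gE_norm hε n _ _)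
      have b2 : |Jc U V i s 0| ≤
          (U s 0 ^ 2 + D i (V s) 0 ^ 2) + (V s 0 ^ 2 + D i (U s) 0 ^ 2) := by
        unfold Jc
        rw [abs_le]
        constructor <;> nlinarith [sq_nonneg (U s 0 + D i (V s) 0),
          sq_nonneg (U s 0 - D i (V s) 0), sq_nonneg (V s 0 + D i (U s) 0),
          sq_nonneg (V s 0 - D i (U s) 0)]
      calc _ ≤ 1 * ((U s 0 ^ 2 + D i (V s) 0 ^ 2) + (V s 0 ^ 2 + D i (U s) 0 ^ 2)) :=
            mul_le_mul b1 b2 (abs_nonneg _) zero_le_one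
        _ = _ := one_mul _
    · simp only [eD]
      exact (iP i).add (iR i)
  have z2 : ∑ i, ∫ s, (l (Ps U V ε n i s) + l (gE ε n (U s 0) (V s 0)) *
        (U s 0 * D i (D i (V s)) 0 - V s 0 * D i (D i (U s)) 0)) ∂P = 0 :=
    Finset.sum_eq_zero fun i _ => z i
  have h5 : ∀ i ∈ (Finset.univ : Finset (Fin d)), Integrable (fun s => l (Ps U V ε n i s) +
      l (gE ε n (U s 0) (V s 0)) *
        (U s 0 * D i (D i (V s)) 0 - V s 0 * D i (D i (U s)) 0)) P :=
    fun i _ => (iP i).add (iR i)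
  rw [← integral_finsetSum _ h5] at z2
  rw [← z2]
  refine integral_congr_ae (ae_of_all _ fun s => ?_)
  show l (∑ i, Ps U V ε n i s) = ∑ i, _
  rw [Finset.sum_add_distrib, ← Finset.mul_sum, Finset.sum_sub_distrib, ← Finset.mul_sum,
    ← Finset.mul_sum, map_sum]
  have l1 : ∑ i, D i (D i (V s)) 0 = -V s 0 := hV.eq s 0
  have l2 : ∑ i, D i (D i (U s)) 0 = -U s 0 := hU.eq s 0
  rw [l1, l2]
  ring

/-- the weight -/
noncomputable def Wt2 (U V : S → E d → ℝ) (s : S) : ℝ :=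
  (∑ i, Jc U V i s 0 ^ 2) / ‖zz (U s 0) (V s 0)‖ ^ 2

/-- the weighted circular moments vanish -/
theorem circ {U V : S → E d → ℝ} [IsProbabilityMeasure P]
    (hτ : ∀ x, MeasurePreserving (τ x) P P) (hU : Wave P τ U) (hV : Wave P τ V)
    {n : ℕ} (hn : 1 ≤ n) :
    ∫ s, (zz (U s 0) (V s 0) / (‖zz (U s 0) (V s 0)‖ : ℂ)) ^ n * ((Wt2 U V s : ℝ) : ℂ) ∂P = 0 := by
  obtain ⟨T, hT⟩ : ∃ T : ℕ → ℝ, T = fun n : ℕ => 1 / ((n : ℝ) + 1) := ⟨_, rfl⟩
  have T0 : ∀ n, 0 < T n := fun n => by rw [hT]; positivity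
  have Tl : Tendsto T atTop (𝓝 0) := by rw [hT]; exact tendsto_one_div_add_atTop_nhds_zero_nat
  have z0 : ∀ k, ∫ s, ∑ i, Ps U V (T k) n i s ∂P = 0 := by
    intro k
    have iS : Integrable (fun s => ∑ i, Ps U V (T k) n i s) P :=
      integrable_finsetSum _ fun i _ => Ps_int hτ hU hV (T0 k) hn i
    refine Complex.ext ?_ ?_
    · have h1 := reg_l hτ hU hV (T0 k) hn Complex.reCLM (fun z => Complex.abs_re_le_norm z)
      have h2 := Complex.reCLM.integral_comp_comm iS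
      rw [h1] at h2
      exact h2.symm
    · have h1 := reg_l hτ hU hV (T0 k) hn Complex.imCLM (fun z => Complex.abs_im_le_norm z)
      have h2 := Complex.imCLM.integral_comp_comm iS
      rw [h1] at h2
      exact h2.symm
  have lim : Tendsto (fun k => ∫ s, ∑ i, Ps U V (T k) n i s ∂P) atTop
      (𝓝 (∫ s, ∑ i, (n * Complex.I * (zz (U s 0) (V s 0) / (‖zz (U s 0) (V s 0)‖ : ℂ)) ^ n *
        ((Jc U V i s 0 ^ 2 / ‖zz (U s 0) (V s 0)‖ ^ 2 : ℝ) : ℂ)) ∂P)) := by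
    refine tendsto_integral_of_dominated_convergence
      (fun s => ∑ i, (n : ℝ) * (D i (U s) 0 ^ 2 + D i (V s) 0 ^ 2)) (fun k => ?_) ?_ ?_ ?_
    · exact (Finset.measurable_fun_sum _ fun i _ =>
        Ps_meas hU.sf hV.sf (T0 k) i).aestronglyMeasurable
    · exact integrable_finsetSum _ fun i _ =>
        ((hU.der hτ i).l2.add (hV.der hτ i).l2).const_mul _
    · intro k
      refine ae_of_all _ fun s => ?_
      exact (norm_sum_le _ _).trans (Finset.sum_le_sum fun i _ => Ps_norm (T0 k) hn i s)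
    · refine ae_of_all _ fun s => ?_
      exact tendsto_finsetSum _ fun i _ => gD_lim hn _ _ _ _ T0 Tl
  simp only [z0] at lim
  have h1 := tendsto_nhds_unique lim tendsto_const_nhds
  have e : ∀ s, ∑ i, (n * Complex.I * (zz (U s 0) (V s 0) / (‖zz (U s 0) (V s 0)‖ : ℂ)) ^ n *
        ((Jc U V i s 0 ^ 2 / ‖zz (U s 0) (V s 0)‖ ^ 2 : ℝ) : ℂ)) = (n * Complex.I) *
      ((zz (U s 0) (V s 0) / (‖zz (U s 0) (V s 0)‖ : ℂ)) ^ n * ((Wt2 U V s : ℝ) : ℂ)) := by
    intro s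
    unfold Wt2
    rw [← Finset.mul_sum, Finset.sum_div]
    push_cast
    ring
  simp only [e] at h1
  rw [integral_const_mul] at h1
  rcases mul_eq_zero.1 h1 with h | h
  · exfalso
    rcases mul_eq_zero.1 h with h' | h'
    · have : (n : ℂ) ≠ 0 := by exact_mod_cast (by omega : n ≠ 0)
      exact this h'
    · exact Complex.I_ne_zero h'
  · exact h

end Pool.Agent.U39.AN
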