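import Pool.Agent.U39.AN.I

/-!
Measures on the circle and their Fourier coefficients; the law of a direction (helper39).
-/

set_option autoImplicit false

namespace Pool.Agent.U39.AN

open MeasureTheory Filter Topology Set AddCircle
open scoped ENNReal BoundedContinuousFunction

/-- the circle -/
abbrev Ci : Type := AddCircle (2 * Real.pi)

lemma cint_circle {μ : Measure Ci} [IsFiniteMeasure μ] (f : C(Ci, ℂ)) : Integrable f μ :=
  f.continuous.integrable_of_hasCompactSupport (HasCompactSupport.of_compactSpace _)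

/-- finite measures on the circle are determined by their Fourier coefficients -/
theorem fourier_unique {μ ν : Measure Ci} [IsFiniteMeasure μ] [IsFiniteMeasure ν]
    (h : ∀ n : ℤ, ∫ x, fourier n x ∂μ = ∫ x, fourier n x ∂ν) : μ = ν := by
  let L0 : C(Ci, ℂ) →ₗ[ℂ] ℂ :=
    { toFun := fun f => (∫ x, f x ∂μ) - ∫ x, f x ∂ν
      map_add' := fun f g => by
        have h1 : ∫ x, (f + g) x ∂μ = (∫ x, f x ∂μ) + ∫ x, g x ∂μ :=
          integral_add (cint_circle f) (cint_circle g)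
        have h2 : ∫ x, (f + g) x ∂ν = (∫ x, f x ∂ν) + ∫ x, g x ∂ν :=
          integral_add (cint_circle f) (cint_circle g)
        rw [h1, h2]
        ring
      map_smul' := fun c f => by
        have h1 : ∫ x, (c • f) x ∂μ = c * ∫ x, f x ∂μ := integral_const_mul c f
        have h2 : ∫ x, (c • f) x ∂ν = c * ∫ x, f x ∂ν := integral_const_mul c f
        rw [h1, h2, RingHom.id_apply, smul_eq_mul]
        ring }
  have hb : ∀ f, ‖L0 f‖ ≤ (μ.real univ + ν.real univ) * ‖f‖ := by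
    intro f
    have h1 : ‖∫ x, f x ∂μ‖ ≤ ‖f‖ * μ.real univ :=
      norm_integral_le_of_norm_le_const (ae_of_all _ fun x => f.norm_coe_le_norm x)
    have h2 : ‖∫ x, f x ∂ν‖ ≤ ‖f‖ * ν.real univ :=
      norm_integral_le_of_norm_le_const (ae_of_all _ fun x => f.norm_coe_le_norm x)
    calc ‖(∫ x, f x ∂μ) - ∫ x, f x ∂ν‖ ≤ ‖∫ x, f x ∂μ‖ + ‖∫ x, f x ∂ν‖ := norm_sub_le _ _
      _ ≤ ‖f‖ * μ.real univ + ‖f‖ * ν.real univ := add_le_add h1 h2
      _ = _ := by ring
  let L : C(Ci, ℂ) →L[ℂ] ℂ := L0.mkContinuous _ hb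
  have h1 : Submodule.span ℂ (range (@fourier (2 * Real.pi))) ≤ LinearMap.ker L.toLinearMap := by
    rw [Submodule.span_le]
    rintro _ ⟨n, rfl⟩
    show (∫ x, fourier n x ∂μ) - ∫ x, fourier n x ∂ν = 0
    rw [h n, sub_self]
  have h2 := Submodule.topologicalClosure_minimal _ h1 L.isClosed_ker
  rw [span_fourier_closure_eq_top] at h2
  have key : ∀ f : C(Ci, ℂ), ∫ x, f x ∂μ = ∫ x, f x ∂ν := by
    intro f
    have h3 : f ∈ LinearMap.ker L.toLinearMap := h2 trivial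
    have h4 : (∫ x, f x ∂μ) - ∫ x, f x ∂ν = 0 := h3
    exact sub_eq_zero.1 h4
  refine ext_of_forall_integral_eq_of_IsFiniteMeasure fun f => ?_
  have h3 := key ⟨fun x => ((f x : ℝ) : ℂ), Complex.continuous_ofReal.comp f.continuous⟩
  have h4 : ∫ x, ((f x : ℝ) : ℂ) ∂μ = ∫ x, ((f x : ℝ) : ℂ) ∂ν := h3
  rw [integral_complex_ofReal, integral_complex_ofReal] at h4
  exact_mod_cast h4

lemma haar_fourier {n : ℤ} (hn : n ≠ 0) :
    ∫ x, fourier n x ∂(haarAddCircle (T := 2 * Real.pi)) = 0 := by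
  have h1 := integral_add_right_eq_self (μ := haarAddCircle (T := 2 * Real.pi))
    (fun x => (fourier n x : ℂ)) (((2 * Real.pi / 2 / n : ℝ)) : AddCircle (2 * Real.pi))
  simp only [fourier_add_half_inv_index hn (by positivity : (0 : ℝ) < 2 * Real.pi)] at h1
  rw [integral_neg] at h1
  have h2 : (2 : ℂ) * ∫ x, fourier n x ∂(haarAddCircle (T := 2 * Real.pi)) = 0 := by
    linear_combination -h1
  rcases mul_eq_zero.1 h2 with h | h
  · norm_num at h
  · exact h

lemma fourier_arg {z : ℂ} (hz : z ≠ 0) (n : ℕ) :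
    (fourier (n : ℤ) ((z.arg : ℝ) : Ci) : ℂ) = (z / (‖z‖ : ℂ)) ^ n := by
  rw [fourier_coe_apply]
  have h1 : (‖z‖ : ℂ) ≠ 0 := by exact_mod_cast (norm_pos_iff.2 hz).ne'
  have h2 : z / (‖z‖ : ℂ) = Complex.exp (z.arg * Complex.I) := by
    rw [div_eq_iff h1, mul_comm]
    exact (Complex.norm_mul_exp_arg_mul_I z).symm
  rw [h2, ← Complex.exp_nat_mul]
  congr 1
  have : (Real.pi : ℂ) ≠ 0 := by exact_mod_cast Real.pi_ne_zero
  push_cast
  field_simp

variable {S : Type*} [MeasurableSpace S] {P : Measure S}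

/-- the law of the direction of `z`, weighted by `W` -/
theorem dir_law {z : S → ℂ} {W : S → ℝ} (mz : Measurable z) (mW : Measurable W)
    (W0 : ∀ s, 0 ≤ W s) (iW : Integrable W P) (hz : ∀ s, z s = 0 → W s = 0)
    (h : ∀ n : ℕ, 1 ≤ n → ∫ s, (z s / (‖z s‖ : ℂ)) ^ n * ((W s : ℝ) : ℂ) ∂P = 0)
    {B : Set Ci} (mB : MeasurableSet B) :
    ∫⁻ s in {s | (((z s).arg : ℝ) : Ci) ∈ B}, ENNReal.ofReal (W s) ∂P =
      haarAddCircle B * ∫⁻ s, ENNReal.ofReal (W s) ∂P := by
  obtain ⟨θ, hθ⟩ : ∃ θ : S → Ci, θ = fun s => (((z s).arg : ℝ) : Ci) := ⟨_, rfl⟩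
  have mθ : Measurable θ := by
    rw [hθ]
    exact (AddCircle.measurable_mk').comp (Complex.measurable_arg.comp mz)
  obtain ⟨Wn, hWn⟩ : ∃ Wn : S → NNReal, Wn = fun s => (W s).toNNReal := ⟨_, rfl⟩
  have mWn : Measurable Wn := by rw [hWn]; exact mW.real_toNNReal
  have eW : ∀ s, ((Wn s : NNReal) : ENNReal) = ENNReal.ofReal (W s) := fun s => by rw [hWn]; rfl
  have eW' : ∀ s, ((Wn s : NNReal) : ℝ) = W s := fun s => by
    rw [hWn]; exact Real.coe_toNNReal _ (W0 s)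
  have fin : ∫⁻ s, ENNReal.ofReal (W s) ∂P ≠ ⊤ := by
    have := iW.lintegral_lt_top
    exact this.ne
  obtain ⟨ρ, hρ⟩ : ∃ ρ : Measure S, ρ = P.withDensity (fun s => (Wn s : ENNReal)) := ⟨_, rfl⟩
  have fρ : IsFiniteMeasure ρ := by
    refine ⟨?_⟩
    rw [hρ, withDensity_apply _ MeasurableSet.univ, Measure.restrict_univ]
    simp only [eW]
    exact lt_top_iff_ne_top.2 fin
  have fμ : IsFiniteMeasure (ρ.map θ) := inferInstance
  obtain ⟨c, hc⟩ : ∃ c : ENNReal, c = ∫⁻ s, ENNReal.ofReal (W s) ∂P := ⟨_, rfl⟩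
  have c1 : c ≠ ⊤ := by rw [hc]; exact fin
  have fν : IsFiniteMeasure (c • (haarAddCircle : Measure Ci)) :=
    Measure.smul_finite _ c1
  have cR : c.toReal = ∫ s, W s ∂P := by
    rw [hc, integral_eq_lintegral_of_nonneg_ae (ae_of_all _ W0) mW.aestronglyMeasurable]
  have hμ : ∀ n : ℤ, ∫ x, fourier n x ∂(ρ.map θ) = ∫ s, ((W s : ℝ) : ℂ) * fourier n (θ s) ∂P := by
    intro n
    rw [integral_map mθ.aemeasurable (fourier n).continuous.aestronglyMeasurable, hρ,
      integral_withDensity_eq_integral_smul mWn]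
    refine integral_congr_ae (ae_of_all _ fun s => ?_)
    show Wn s • (fourier n (θ s) : ℂ) = ((W s : ℝ) : ℂ) * fourier n (θ s)
    rw [NNReal.smul_def, eW' s, Complex.real_smul]
  have hpos : ∀ n : ℕ, 1 ≤ n → ∫ s, ((W s : ℝ) : ℂ) * fourier (n : ℤ) (θ s) ∂P = 0 := by
    intro n hn
    rw [← h n hn]
    refine integral_congr_ae (ae_of_all _ fun s => ?_)
    show ((W s : ℝ) : ℂ) * fourier (n : ℤ) (θ s) = (z s / (‖z s‖ : ℂ)) ^ n * ((W s : ℝ) : ℂ)
    by_cases h0 : z s = 0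
    · rw [hz s h0]
      simp
    · rw [hθ, fourier_arg h0, mul_comm]
  have hall : ∀ n : ℤ, ∫ x, fourier n x ∂(ρ.map θ) =
      ∫ x, fourier n x ∂(c • (haarAddCircle : Measure Ci)) := by
    intro n
    rw [hμ, integral_smul_measure]
    rcases lt_trichotomy n 0 with hn | hn | hn
    · obtain ⟨m, hm⟩ : ∃ m : ℕ, n = -(m : ℤ) := ⟨n.natAbs, by omega⟩
      have hm1 : 1 ≤ m := by omega
      rw [haar_fourier (by omega), smul_zero, hm]
      have h1 := hpos m hm1
      have h2 : ∫ s, ((W s : ℝ) : ℂ) * fourier (-(m : ℤ)) (θ s) ∂P =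
          (starRingEnd ℂ) (∫ s, ((W s : ℝ) : ℂ) * fourier (m : ℤ) (θ s) ∂P) := by
        rw [← integral_conj]
        refine integral_congr_ae (ae_of_all _ fun s => ?_)
        show ((W s : ℝ) : ℂ) * fourier (-(m : ℤ)) (θ s) =
          (starRingEnd ℂ) (((W s : ℝ) : ℂ) * fourier (m : ℤ) (θ s))
        rw [map_mul, Complex.conj_ofReal, fourier_neg]
      rw [h2, h1, map_zero]
    · rw [hn]
      have e1 : ∀ x : Ci, (fourier (0 : ℤ) x : ℂ) = 1 := fun x => fourier_zero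
      simp only [e1, mul_one]
      rw [integral_const, integral_complex_ofReal, ← cR]
      simp
    · obtain ⟨m, hm⟩ : ∃ m : ℕ, n = (m : ℤ) := ⟨n.natAbs, by omega⟩
      rw [haar_fourier (by omega), smul_zero, hm]
      exact hpos m (by omega)
  have heq := fourier_unique hall
  have h5 : (ρ.map θ) B = (c • (haarAddCircle : Measure Ci)) B := by rw [heq]
  rw [Measure.map_apply mθ mB, hρ, withDensity_apply _ (mθ mB), Measure.smul_apply, smul_eq_mul,
    hc, mul_comm] at h5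
  simp only [eW] at h5
  rw [hθ] at h5
  exact h5

end Pool.Agent.U39.AN
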