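import Pool.Agent.U39.AN.K

/-!
The law of the direction of a pair of waves (helper39).
-/

set_option autoImplicit false

namespace Pool.Agent.U39.AN

open Pool.Agent.Y139.SW Pool.Agent.U39.SZ MeasureTheory Filter Topology Set AddCircle
open scoped ContDiff ENNReal

variable {d : ℕ} {S : Type*} [MeasurableSpace S] {P : Measure S} {τ : E d → S → S}

lemma Wt2_nonneg (U V : S → E d → ℝ) (s : S) : 0 ≤ Wt2 U V s :=
  div_nonneg (Finset.sum_nonneg fun _ _ => sq_nonneg _) (sq_nonneg _)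

lemma Wt2_meas {U V : S → E d → ℝ} (hU : SF τ U) (hV : SF τ V) : Measurable (Wt2 U V) := by
  have z1 : Measurable fun s => zz (U s 0) (V s 0) :=
    (Complex.measurable_ofReal.comp (hU.meas 0)).add
      ((Complex.measurable_ofReal.comp (hV.meas 0)).mul_const _)
  exact (Finset.measurable_fun_sum _ fun i _ => ((Jc_sf hU hV i).meas 0).pow_const 2).div
    (z1.norm.pow_const 2)

lemma Wt2_le (U V : S → E d → ℝ) (s : S) :
    Wt2 U V s ≤ ∑ i, (D i (U s) 0 ^ 2 + D i (V s) 0 ^ 2) := by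
  unfold Wt2
  rcases (norm_nonneg (zz (U s 0) (V s 0))).eq_or_lt with h | h
  · rw [← h]
    simp only [ne_eq, OfNat.ofNat_ne_zero, not_false_eq_true, zero_pow, div_zero]
    positivity
  · rw [div_le_iff₀ (by positivity), Finset.sum_mul]
    refine Finset.sum_le_sum fun i _ => ?_
    have h1 := J_le (U s 0) (V s 0) (D i (U s) 0) (D i (V s) 0)
    have h2 : Jc U V i s 0 ^ 2 ≤ (‖zz (U s 0) (V s 0)‖ * ‖zz (D i (U s) 0) (D i (V s) 0)‖) ^ 2 := by
      rw [← sq_abs (Jc U V i s 0)]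
      exact pow_le_pow_left₀ (abs_nonneg _) h1 2
    rw [mul_pow, zz_norm (D i (U s) 0)] at h2
    linarith

/-- the law on the canonical space -/
theorem wave_dir {U V : S → E d → ℝ} [IsProbabilityMeasure P]
    (hτ : ∀ x, MeasurePreserving (τ x) P P) (hU : Wave P τ U) (hV : Wave P τ V) {B : Set Ci}
    (mB : MeasurableSet B) :
    ∫⁻ s in {s | (((zz (U s 0) (V s 0)).arg : ℝ) : Ci) ∈ B}, ENNReal.ofReal (Wt2 U V s) ∂P =
      haarAddCircle B * ∫⁻ s, ENNReal.ofReal (Wt2 U V s) ∂P := by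
  have z1 : Measurable fun s => zz (U s 0) (V s 0) :=
    (Complex.measurable_ofReal.comp (hU.sf.meas 0)).add
      ((Complex.measurable_ofReal.comp (hV.sf.meas 0)).mul_const _)
  have iW : Integrable (Wt2 U V) P := by
    have h1 : Integrable (fun s => ∑ i, (D i (U s) 0 ^ 2 + D i (V s) 0 ^ 2)) P :=
      integrable_finsetSum _ fun i _ => (hU.der hτ i).l2.add (hV.der hτ i).l2
    refine h1.mono' (Wt2_meas hU.sf hV.sf).aestronglyMeasurable (ae_of_all _ fun s => ?_)
    rw [Real.norm_eq_abs, abs_of_nonneg (Wt2_nonneg U V s)]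
    exact Wt2_le U V s
  refine dir_law z1 (Wt2_meas hU.sf hV.sf) (Wt2_nonneg U V) iW (fun s hs => ?_)
    (fun n hn => circ hτ hU hV hn) mB
  unfold Wt2
  rw [hs]
  simp

lemma Wt2_pos {U V : S → E d → ℝ} {s : S} : 0 < Wt2 U V s ↔ ∃ i, Jc U V i s 0 ≠ 0 := by
  constructor
  · intro h
    by_contra h1
    push Not at h1
    unfold Wt2 at h
    simp [h1] at h
  · rintro ⟨i, hi⟩
    have hz : 0 < ‖zz (U s 0) (V s 0)‖ := by
      have h1 := J_le (U s 0) (V s 0) (D i (U s) 0) (D i (V s) 0)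
      have h2 : 0 < |Jc U V i s 0| := abs_pos.2 hi
      have h3 : 0 < ‖zz (U s 0) (V s 0)‖ * ‖zz (D i (U s) 0) (D i (V s) 0)‖ := h2.trans_le h1
      exact pos_of_mul_pos_left h3 (norm_nonneg _)
    unfold Wt2
    refine div_pos ?_ (by positivity)
    refine lt_of_lt_of_le (by positivity : 0 < Jc U V i s 0 ^ 2) ?_
    exact Finset.single_le_sum (f := fun i => Jc U V i s 0 ^ 2) (fun _ _ => sq_nonneg _)
      (Finset.mem_univ i)

/-- null sets of the law of the direction -/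
theorem wave_null {U V : S → E d → ℝ} [IsProbabilityMeasure P]
    (hτ : ∀ x, MeasurePreserving (τ x) P P) (hU : Wave P τ U) (hV : Wave P τ V)
    (h0 : P {s | ∃ i, Jc U V i s 0 ≠ 0} ≠ 0) {B : Set Ci} (mB : MeasurableSet B) :
    P {s | (∃ i, Jc U V i s 0 ≠ 0) ∧ (((zz (U s 0) (V s 0)).arg : ℝ) : Ci) ∈ B} = 0 ↔
      haarAddCircle B = 0 := by
  have h1 := wave_dir hτ hU hV mB
  have mW := (Wt2_meas hU.sf hV.sf).ennreal_ofReal
  have e : ∀ A : Set S, MeasurableSet A → (∫⁻ s in A, ENNReal.ofReal (Wt2 U V s) ∂P = 0 ↔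
      P {s | (∃ i, Jc U V i s 0 ≠ 0) ∧ s ∈ A} = 0) := by
    intro A mA
    rw [lintegral_eq_zero_iff mW, Filter.EventuallyEq, ae_iff, Measure.restrict_apply']
    · have e2 : {s | ¬(ENNReal.ofReal (Wt2 U V s) = (0 : S → ENNReal) s)} ∩ A =
          {s | (∃ i, Jc U V i s 0 ≠ 0) ∧ s ∈ A} := by
        ext s
        simp only [mem_inter_iff, mem_setOf_eq, Pi.zero_apply, ENNReal.ofReal_eq_zero, not_le,
          Wt2_pos]
      rw [e2]
    · exact mA
  have z1 : Measurable fun s => zz (U s 0) (V s 0) :=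
    (Complex.measurable_ofReal.comp (hU.sf.meas 0)).add
      ((Complex.measurable_ofReal.comp (hV.sf.meas 0)).mul_const _)
  have mθ : Measurable fun s => (((zz (U s 0) (V s 0)).arg : ℝ) : Ci) :=
    (AddCircle.measurable_mk').comp (Complex.measurable_arg.comp z1)
  have h2 := e _ (mθ mB)
  have h3 := e univ MeasurableSet.univ
  rw [Measure.restrict_univ] at h3
  have h4 : ∫⁻ s, ENNReal.ofReal (Wt2 U V s) ∂P ≠ 0 := by
    intro h5
    have h6 := h3.1 h5
    simp only [mem_univ, and_true] at h6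
    exact h0 h6
  refine h2.symm.trans ?_
  constructor
  · intro h5
    have h6 : haarAddCircle B * ∫⁻ s, ENNReal.ofReal (Wt2 U V s) ∂P = 0 := h1.symm.trans h5
    rcases mul_eq_zero.1 h6 with h7 | h7
    · exact h7
    · exact absurd h7 h4
  · intro h5
    refine h1.trans ?_
    rw [h5, zero_mul]

end Pool.Agent.U39.AN
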