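import Pool.Agent.U39.AN.L

/-!
The direction of a pair of waves: linear dependence, and the transfer to all probability spaces
(helper39).
-/

set_option autoImplicit false

namespace Pool.Agent.U39.AN

open Pool.Agent.Y139.SW Pool.Agent.U39.SZ MeasureTheory Filter Topology Set AddCircle
open scoped ContDiff ENNReal

variable {d : ℕ} {S : Type*} [MeasurableSpace S] {P : Measure S} {τ : E d → S → S}

/-- the current as a polynomial -/
noncomputable def Jp (d : ℕ) (i : Fin d) : MvPolynomial (Fin 2 × List (Fin d)) ℝ :=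
  MvPolynomial.X (0, []) * MvPolynomial.X (1, [i]) - MvPolynomial.X (1, []) * MvPolynomial.X (0, [i])

lemma Jp_eq (i : Fin d) (f : Fin 2 → E d → ℝ) (y : E d) :
    poK (Jp d i) f y = f 0 y * D i (f 1) y - f 1 y * D i (f 0) y := by
  unfold Jp poK
  simp only [map_sub, map_mul, MvPolynomial.eval_X]
  rfl

lemma ray {f g : E d → ℝ} (hf : ContDiff ℝ ∞ f) (hg : ContDiff ℝ ∞ g) (h0 : f 0 ≠ 0)
    (hJ : ∀ i y, f y * D i g y - g y * D i f y = 0) (v : E d) :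
    ∃ δ > 0, ∀ t ∈ Icc (0 : ℝ) δ, g (t • v) - g 0 / f 0 * f (t • v) = 0 := by
  have cf : Continuous fun t : ℝ => f (t • v) := hf.continuous.comp (by fun_prop)
  have h1 : ∀ᶠ t in 𝓝 (0 : ℝ), f (t • v) ≠ 0 := by
    refine cf.continuousAt.eventually_ne ?_
    simpa using h0
  obtain ⟨ε, ε0, hε⟩ := Metric.eventually_nhds_iff.1 h1
  refine ⟨ε / 2, by positivity, ?_⟩
  have hne : ∀ t ∈ Icc (0 : ℝ) (ε / 2), f (t • v) ≠ 0 := by
    intro t ht
    apply hε
    rw [Real.dist_eq, sub_zero, abs_of_nonneg ht.1]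
    linarith [ht.2]
  have hd : ∀ (k : E d → ℝ), ContDiff ℝ ∞ k → ∀ t : ℝ,
      HasDerivAt (fun t : ℝ => k (t • v)) (∑ i, v i * D i k (t • v)) t := by
    intro k hk t
    have h1 : HasDerivAt (fun t : ℝ => t • v) ((1 : ℝ) • v) t := (hasDerivAt_id t).smul_const v
    have h2 := (sdiff hk (t • v)).hasFDerivAt.comp_hasDerivAt t h1
    rw [one_smul] at h2
    rw [← Dv_eq]
    exact h2
  have hq : ∀ t ∈ Icc (0 : ℝ) (ε / 2), HasDerivAt (fun t : ℝ => g (t • v) / f (t • v)) 0 t := by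
    intro t ht
    have h3 := (hd g hg t).div (hd f hf t) (hne t ht)
    refine h3.congr_deriv ?_
    rw [div_eq_zero_iff]
    left
    have : (∑ i, v i * D i g (t • v)) * f (t • v) - g (t • v) * ∑ i, v i * D i f (t • v) =
        ∑ i, v i * (f (t • v) * D i g (t • v) - g (t • v) * D i f (t • v)) := by
      rw [Finset.sum_mul, Finset.mul_sum, ← Finset.sum_sub_distrib]
      exact Finset.sum_congr rfl fun i _ => by ring
    rw [this]
    simp [hJ]
  intro t ht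
  have h4 := constant_of_has_deriv_right_zero
    (fun t ht => (hq t ht).continuousAt.continuousWithinAt)
    (fun x hx => (hq x ⟨hx.1, hx.2.le⟩).hasDerivWithinAt) t ht
  simp only [zero_smul] at h4
  rw [← h4, div_mul_cancel₀ _ (hne t ht), sub_self]

lemma JW.wv {F : Fin 2 → S → E d → ℝ} (h : JW P τ (fun _ => 1) F) (i : Fin 2) :
    Wave P τ (F i) := by
  have := h.wave i
  simpa using this

/-- the current vanishes at a point only if the waves are linearly dependent -/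
theorem JW.dep [IsProbabilityMeasure P] (hτ : ∀ x, MeasurePreserving (τ x) P P)
    {F : Fin 2 → S → E d → ℝ} (h : JW P τ (fun _ => 1) F) :
    ∀ᵐ s ∂P, (∀ i, Jc (F 0) (F 1) i s 0 = 0) →
      ∃ a b : ℝ, (a ≠ 0 ∨ b ≠ 0) ∧ ∀ y, a * F 0 s y + b * F 1 s y = 0 := by
  obtain ⟨D0, cD, dD⟩ := TopologicalSpace.exists_countable_dense (E d)
  have g1 : ∀ᵐ s ∂P, ∀ i, poK (Jp d i) (fun i => F i s) 0 = 0 →
      ∀ y, poK (Jp d i) (fun i => F i s) y = 0 := by
    rw [ae_all_iff]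
    intro i
    have := h.rigid hτ (Jp d i) 0
    rw [ae_iff]
    refine measure_mono_null (fun s hs => ?_) this
    simp only [mem_setOf_eq, not_forall] at hs
    obtain ⟨p, q⟩ := hs
    exact ⟨p, q⟩
  have g2 : ∀ᵐ s ∂P, F 0 s 0 = 0 → ∀ y, F 0 s y = 0 := by
    have := h.rigid hτ (MvPolynomial.X (0, [])) 0
    rw [ae_iff]
    refine measure_mono_null (fun s hs => ?_) this
    simp only [mem_setOf_eq, not_forall] at hs
    obtain ⟨p, y, hy⟩ := hs
    refine ⟨?_, y, ?_⟩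
    · unfold poK
      rw [MvPolynomial.eval_X]
      exact p
    · unfold poK
      rw [MvPolynomial.eval_X]
      exact hy
  have sc : ∀ v : E d, 0 < ‖v‖ + 1 ∧ ‖(‖v‖ + 1)⁻¹ • v‖ ≤ 1 := by
    intro v
    have c0 : 0 < ‖v‖ + 1 := by positivity
    refine ⟨c0, ?_⟩
    rw [norm_smul, norm_inv, Real.norm_eq_abs, abs_of_pos c0, inv_mul_le_iff₀ c0]
    linarith
  have g3 : ∀ᵐ s ∂P, ∀ v ∈ D0, ∀ j, Good (fun n => ln F 0 ((‖v‖ + 1)⁻¹ • v) j n s) := by
    rw [ae_ball_iff cD]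
    intro v _
    exact (sys hτ h.wv 0 (sc v).2).good
  filter_upwards [g1, g2, g3] with s s1 s2 s3 hJ
  by_cases h0 : F 0 s 0 = 0
  · refine ⟨1, 0, Or.inl one_ne_zero, fun y => ?_⟩
    rw [s2 h0 y]
    ring
  · refine ⟨-(F 1 s 0 / F 0 s 0), 1, Or.inr one_ne_zero, ?_⟩
    have hJ' : ∀ i y, F 0 s y * D i (F 1 s) y - F 1 s y * D i (F 0 s) y = 0 := by
      intro i y
      have := s1 i (by rw [Jp_eq]; exact hJ i) y
      rw [Jp_eq] at this
      exact this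
    have key : ∀ v ∈ D0, -(F 1 s 0 / F 0 s 0) * F 0 s v + 1 * F 1 s v = 0 := by
      intro v hv
      obtain ⟨δ, δ0, hδ⟩ := ray (h.smooth 0 s) (h.smooth 1 s) h0 hJ' ((‖v‖ + 1)⁻¹ • v)
      by_contra hne
      obtain ⟨q, hq⟩ : ∃ q : MvPolynomial (Fin 2) ℝ,
        q = MvPolynomial.X 1 - MvPolynomial.C (F 1 s 0 / F 0 s 0) * MvPolynomial.X 0 := ⟨_, rfl⟩
      have e : ∀ t, hF (ln F 0 ((‖v‖ + 1)⁻¹ • v)) q s t =
          F 1 s (t • (‖v‖ + 1)⁻¹ • v) - F 1 s 0 / F 0 s 0 * F 0 s (t • (‖v‖ + 1)⁻¹ • v) := by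
        intro t
        unfold hF
        rw [hq]
        simp only [map_sub, map_mul, MvPolynomial.eval_X, MvPolynomial.eval_C]
        show F 1 s (0 + t • (‖v‖ + 1)⁻¹ • v) - _ * F 0 s (0 + t • (‖v‖ + 1)⁻¹ • v) = _
        rw [zero_add]
      have hA : s ∈ AA (ln F 0 ((‖v‖ + 1)⁻¹ • v)) q := by
        refine ⟨‖v‖ + 1, ?_⟩
        rw [e, smul_smul, mul_inv_cancel₀ (sc v).1.ne', one_smul]
        intro h1
        apply hne
        linarith
      have h5 := null_zeros (s3 v hv) hA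
      have h6 : (volume : Measure ℝ) (Icc 0 δ) = 0 := by
        rw [ae_iff] at h5
        refine measure_mono_null (fun t ht => ?_) h5
        simp only [mem_setOf_eq, not_not]
        rw [e]
        exact hδ t ht
      rw [Real.volume_Icc, ENNReal.ofReal_eq_zero] at h6
      linarith
    have hc : Continuous fun y => -(F 1 s 0 / F 0 s 0) * F 0 s y + 1 * F 1 s y :=
      (continuous_const.mul (h.smooth 0 s).continuous).add
        (continuous_const.mul (h.smooth 1 s).continuous)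
    intro y
    exact congrFun (hc.ext_on dD continuous_const key) y

/-- all statements, on every probability space -/
theorem JL.dirs [IsProbabilityMeasure P] {F : Fin 2 → S → E d → ℝ}
    (h : JL P (fun _ : Fin 2 => 1) F) :
    (∀ B : Set Ci, MeasurableSet B →
      ∫⁻ s in {s | (((zz (F 0 s 0) (F 1 s 0)).arg : ℝ) : Ci) ∈ B},
        ENNReal.ofReal (Wt2 (F 0) (F 1) s) ∂P =
      haarAddCircle B * ∫⁻ s, ENNReal.ofReal (Wt2 (F 0) (F 1) s) ∂P) ∧
    (P {s | ∃ i, Jc (F 0) (F 1) i s 0 ≠ 0} ≠ 0 → ∀ B : Set Ci, MeasurableSet B →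
      (P {s | (∃ i, Jc (F 0) (F 1) i s 0 ≠ 0) ∧
        (((zz (F 0 s 0) (F 1 s 0)).arg : ℝ) : Ci) ∈ B} = 0 ↔ haarAddCircle B = 0)) ∧
    (∀ᵐ s ∂P, (∀ i, Jc (F 0) (F 1) i s 0 = 0) →
      ∃ a b : ℝ, (a ≠ 0 ∨ b ≠ 0) ∧ ∀ y, a * F 0 s y + b * F 1 s y = 0) := by
  obtain ⟨Φ, mΦ, v1, hτ, hW⟩ := h.canon
  have hQ : IsProbabilityMeasure (P.map Φ) := Measure.isProbabilityMeasure_map mΦ.aemeasurable
  have WU := hW.wv 0
  have WV := hW.wv 1
  obtain ⟨U, hU⟩ : ∃ U : SpK d (fun _ : Fin 2 => (1 : ℝ)) → E d → ℝ, U = fun f => f.1 0 := ⟨_, rfl⟩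
  obtain ⟨V, hV⟩ : ∃ V : SpK d (fun _ : Fin 2 => (1 : ℝ)) → E d → ℝ, V = fun f => f.1 1 := ⟨_, rfl⟩
  have eU : ∀ s, U (Φ s) = F 0 s := fun s => by rw [hU]; show (Φ s).1 0 = _; rw [v1]
  have eV : ∀ s, V (Φ s) = F 1 s := fun s => by rw [hV]; show (Φ s).1 1 = _; rw [v1]
  have WU' : Wave (P.map Φ) (shK (κ := fun _ : Fin 2 => (1 : ℝ))) U := by rw [hU]; exact WU
  have WV' : Wave (P.map Φ) (shK (κ := fun _ : Fin 2 => (1 : ℝ))) V := by rw [hV]; exact WV
  have eJ : ∀ i s, Jc U V i (Φ s) 0 = Jc (F 0) (F 1) i s 0 := fun i s => by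
    unfold Jc; rw [eU, eV]
  have eW : ∀ s, Wt2 U V (Φ s) = Wt2 (F 0) (F 1) s := fun s => by
    unfold Wt2; simp only [eJ, eU, eV]
  have mW := (Wt2_meas WU'.sf WV'.sf).ennreal_ofReal
  have z1 : Measurable fun s => zz (U s 0) (V s 0) :=
    (Complex.measurable_ofReal.comp (WU'.sf.meas 0)).add
      ((Complex.measurable_ofReal.comp (WV'.sf.meas 0)).mul_const _)
  have mθ : Measurable fun s => (((zz (U s 0) (V s 0)).arg : ℝ) : Ci) :=
    (AddCircle.measurable_mk').comp (Complex.measurable_arg.comp z1)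
  have mJ : MeasurableSet {s | ∃ i, Jc U V i s 0 ≠ 0} := by
    have : {s | ∃ i, Jc U V i s 0 ≠ 0} = ⋃ i, {s | Jc U V i s 0 ≠ 0} := by
      ext s
      simp
    rw [this]
    exact MeasurableSet.iUnion fun i =>
      ((Jc_sf WU'.sf WV'.sf i).meas 0 (measurableSet_singleton 0)).compl
  refine ⟨fun B mB => ?_, fun h0 B mB => ?_, ?_⟩
  · have h1 := wave_dir hτ WU' WV' mB
    have mB' : MeasurableSet {s | (((zz (U s 0) (V s 0)).arg : ℝ) : Ci) ∈ B} := mθ mB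
    rw [lintegral_map mW mΦ, setLIntegral_map mB' mW mΦ] at h1
    simp only [eW] at h1
    have e : Φ ⁻¹' {s | (((zz (U s 0) (V s 0)).arg : ℝ) : Ci) ∈ B} =
        {s | (((zz (F 0 s 0) (F 1 s 0)).arg : ℝ) : Ci) ∈ B} := by
      ext s
      simp only [mem_preimage, mem_setOf_eq, eU, eV]
    have h2 : ∫⁻ s in Φ ⁻¹' {s | (((zz (U s 0) (V s 0)).arg : ℝ) : Ci) ∈ B},
        ENNReal.ofReal (Wt2 (F 0) (F 1) s) ∂P = _ := h1
    rw [e] at h2
    exact h2
  · have h1 : (P.map Φ) {s | ∃ i, Jc U V i s 0 ≠ 0} ≠ 0 := by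
      rw [Measure.map_apply mΦ mJ]
      have e : Φ ⁻¹' {s | ∃ i, Jc U V i s 0 ≠ 0} = {s | ∃ i, Jc (F 0) (F 1) i s 0 ≠ 0} := by
        ext s
        simp only [mem_preimage, mem_setOf_eq, eJ]
      rw [e]
      exact h0
    have h2 := wave_null hτ WU' WV' h1 mB
    have mB' : MeasurableSet {s | (∃ i, Jc U V i s 0 ≠ 0) ∧
      (((zz (U s 0) (V s 0)).arg : ℝ) : Ci) ∈ B} := mJ.inter (mθ mB)
    rw [Measure.map_apply mΦ mB'] at h2
    have e : Φ ⁻¹' {s | (∃ i, Jc U V i s 0 ≠ 0) ∧ (((zz (U s 0) (V s 0)).arg : ℝ) : Ci) ∈ B} =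
        {s | (∃ i, Jc (F 0) (F 1) i s 0 ≠ 0) ∧
          (((zz (F 0 s 0) (F 1 s 0)).arg : ℝ) : Ci) ∈ B} := by
      ext s
      simp only [mem_preimage, mem_setOf_eq, eJ, eU, eV]
    have h3 : P (Φ ⁻¹' {s | (∃ i, Jc U V i s 0 ≠ 0) ∧
      (((zz (U s 0) (V s 0)).arg : ℝ) : Ci) ∈ B}) = 0 ↔ _ := h2
    rw [e] at h3
    exact h3
  · have h1 := hW.dep hτ
    have h2 := ae_of_ae_map mΦ.aemeasurable h1
    filter_upwards [h2] with s hs hJ
    have e0 : (Φ s).1 0 = F 0 s := by rw [v1]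
    have e1 : (Φ s).1 1 = F 1 s := by rw [v1]
    have h3 := hs (fun i => by
      have := hJ i
      unfold Jc at this ⊢
      show (Φ s).1 0 0 * D i ((Φ s).1 1) 0 - (Φ s).1 1 0 * D i ((Φ s).1 0) 0 = 0
      rw [e0, e1]
      exact this)
    obtain ⟨a, b, hab, hy⟩ := h3
    refine ⟨a, b, hab, fun y => ?_⟩
    have := hy y
    have h4 : a * (Φ s).1 0 y + b * (Φ s).1 1 y = 0 := this
    rw [e0, e1] at h4
    exact h4

end Pool.Agent.U39.AN
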