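import Pool.Agent.U39.AN.M

/-!
The direction of a pair of linear differential expressions in jointly stationary waves (helper39).
-/

set_option autoImplicit false

namespace Pool.Agent.U39.AN

open Pool.Agent.Y139.SW Pool.Agent.U39.SZ MeasureTheory Filter Topology Set AddCircle
open scoped ContDiff ENNReal

variable {d k : ℕ} {S : Type*} [MeasurableSpace S] {P : Measure S} {τ : E d → S → S}

lemma D_tsum {ι : Type*} (T : Finset ι) (c : ι → ℝ) {f : ι → E d → ℝ}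
    (hf : ∀ j, ContDiff ℝ ∞ (f j)) (i : Fin d) (y : E d) :
    D i (fun w => ∑ j ∈ T, c j * f j w) y = ∑ j ∈ T, c j * D i (f j) y := by
  rw [D_sum T (fun j => contDiff_const.mul (hf j))]
  refine Finset.sum_congr rfl fun j _ => ?_
  rw [D_mul contDiff_const (hf j)]
  have : D i (fun _ : E d => c j) y = 0 := by
    unfold D
    simp
  rw [this]
  ring

lemma Lap_tsum {ι : Type*} (T : Finset ι) (c : ι → ℝ) {f : ι → E d → ℝ}
    (hf : ∀ j, ContDiff ℝ ∞ (f j)) (y : E d) :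
    Lap (fun w => ∑ j ∈ T, c j * f j w) y = ∑ j ∈ T, c j * Lap (f j) y := by
  unfold Lap
  have e : ∀ i, D i (fun w => ∑ j ∈ T, c j * f j w) = fun w => ∑ j ∈ T, c j * D i (f j) w :=
    fun i => funext fun w => D_tsum T c hf i w
  simp only [e, D_tsum T c (fun j => D_sm (hf j) _)]
  rw [Finset.sum_comm]
  simp only [Finset.mul_sum]

lemma Wave.tsum {ι : Type*} (T : Finset ι) (c : ι → ℝ) {G : ι → S → E d → ℝ}
    (W : ∀ j, Wave P τ (G j)) : Wave P τ (fun s y => ∑ j ∈ T, c j * G j s y) := by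
  have sf : SF τ (fun s y => ∑ j ∈ T, c j * G j s y) :=
    ⟨fun y => Finset.measurable_fun_sum _ fun i _ => ((W i).sf.meas y).const_mul _,
      fun s => ContDiff.sum fun i _ => contDiff_const.mul ((W i).sf.smooth s),
      fun x s y => Finset.sum_congr rfl fun i _ => by rw [(W i).sf.cov]⟩
  refine ⟨sf, fun s y => ?_, ?_⟩
  · rw [Lap_tsum T _ (fun j => (W j).sf.smooth s), ← Finset.sum_neg_distrib]
    refine Finset.sum_congr rfl fun i _ => ?_
    rw [(W i).eq]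
    ring
  · have isum : Integrable (fun s => (∑ j ∈ T, c j ^ 2) * ∑ j ∈ T, G j s 0 ^ 2) P :=
      (integrable_finsetSum _ fun i _ => (W i).l2).const_mul _
    refine isum.mono' ((sf.meas 0).pow_const 2).aestronglyMeasurable (ae_of_all _ fun s => ?_)
    rw [Real.norm_eq_abs, abs_of_nonneg (sq_nonneg _)]
    exact Finset.sum_mul_sq_le_sq_mul_sq T c (fun j => G j s 0)

/-- a linear combination of partial derivatives -/
noncomputable def lc (a : (Fin k × List (Fin d)) →₀ ℝ) (f : Fin k → E d → ℝ) (y : E d) : ℝ :=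
  a.sum fun j c => c * jt j.2 (f j.1) y

lemma JW.wv' {F : Fin k → S → E d → ℝ} (h : JW P τ (fun _ => 1) F) (i : Fin k) :
    Wave P τ (F i) := by
  have := h.wave i
  simpa using this

lemma JW.lc [IsProbabilityMeasure P] (hτ : ∀ x, MeasurePreserving (τ x) P P)
    {F : Fin k → S → E d → ℝ} (h : JW P τ (fun _ => 1) F) (a : (Fin k × List (Fin d)) →₀ ℝ) :
    Wave P τ (fun s => lc a (fun i => F i s)) :=
  Wave.tsum a.support a (G := fun j s => jt j.2 (F j.1 s)) fun j => Wave.jt hτ (h.wv' j.1) j.2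

/-- two waves on the same space -/
lemma JW.two {U V : S → E d → ℝ} (hU : Wave P τ U) (hV : Wave P τ V) :
    JW P τ (fun _ : Fin 2 => 1) (fun i => if i = 0 then U else V) := by
  have h : ∀ i : Fin 2, Wave P τ (if i = 0 then U else V) := by
    intro i
    split_ifs
    · exact hU
    · exact hV
  exact ⟨fun _ => one_pos, fun _ => le_rfl, fun i => (h i).sf.meas, fun i => (h i).sf.smooth,
    fun i s y => by rw [(h i).eq s y, one_pow, one_mul], fun i => (h i).sf.cov, fun i => (h i).l2⟩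

/-- all statements, on every probability space -/
theorem JL.dirs2 [IsProbabilityMeasure P] {F : Fin k → S → E d → ℝ}
    (h : JL P (fun _ : Fin k => 1) F) (a b : (Fin k × List (Fin d)) →₀ ℝ) {u v : S → E d → ℝ}
    (hu : u = fun s => lc a (fun i => F i s)) (hv : v = fun s => lc b (fun i => F i s)) :
    (∫⁻ s, ENNReal.ofReal (Wt2 u v s) ∂P ≤
      ENNReal.ofReal (∫ s, u s 0 ^ 2 ∂P + ∫ s, v s 0 ^ 2 ∂P)) ∧
    (∀ B : Set Ci, MeasurableSet B →
      ∫⁻ s in {s | (((zz (u s 0) (v s 0)).arg : ℝ) : Ci) ∈ B}, ENNReal.ofReal (Wt2 u v s) ∂P =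
      haarAddCircle B * ∫⁻ s, ENNReal.ofReal (Wt2 u v s) ∂P) ∧
    (P {s | ∃ i, Jc u v i s 0 ≠ 0} ≠ 0 → ∀ B : Set Ci, MeasurableSet B →
      (P {s | (∃ i, Jc u v i s 0 ≠ 0) ∧ (((zz (u s 0) (v s 0)).arg : ℝ) : Ci) ∈ B} = 0 ↔
        haarAddCircle B = 0)) ∧
    (∀ᵐ s ∂P, (∀ i, Jc u v i s 0 = 0) →
      ∃ a b : ℝ, (a ≠ 0 ∨ b ≠ 0) ∧ ∀ y, a * u s y + b * v s y = 0) := by
  obtain ⟨Φ, mΦ, v1, hτ, hW⟩ := h.canon
  have hQ : IsProbabilityMeasure (P.map Φ) := Measure.isProbabilityMeasure_map mΦ.aemeasurable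
  obtain ⟨U, hU⟩ : ∃ U : SpK d (fun _ : Fin k => (1 : ℝ)) → E d → ℝ, U = fun f => lc a f.1 :=
    ⟨_, rfl⟩
  obtain ⟨V, hV⟩ : ∃ V : SpK d (fun _ : Fin k => (1 : ℝ)) → E d → ℝ, V = fun f => lc b f.1 :=
    ⟨_, rfl⟩
  have WU' : Wave (P.map Φ) (shK (κ := fun _ : Fin k => (1 : ℝ))) U := by
    rw [hU]; exact hW.lc hτ a
  have WV' : Wave (P.map Φ) (shK (κ := fun _ : Fin k => (1 : ℝ))) V := by
    rw [hV]; exact hW.lc hτ b
  have eU : ∀ s, U (Φ s) = u s := fun s => by rw [hU, hu]; show lc a (Φ s).1 = _; rw [v1]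
  have eV : ∀ s, V (Φ s) = v s := fun s => by rw [hV, hv]; show lc b (Φ s).1 = _; rw [v1]
  have eJ : ∀ i s, Jc U V i (Φ s) 0 = Jc u v i s 0 := fun i s => by
    unfold Jc; rw [eU, eV]
  have eW : ∀ s, Wt2 U V (Φ s) = Wt2 u v s := fun s => by
    unfold Wt2; simp only [eJ, eU, eV]
  have mW := (Wt2_meas WU'.sf WV'.sf).ennreal_ofReal
  have z1 : Measurable fun s => zz (U s 0) (V s 0) :=
    (Complex.measurable_ofReal.comp (WU'.sf.meas 0)).add
      ((Complex.measurable_ofReal.comp (WV'.sf.meas 0)).mul_const _)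
  have mθ : Measurable fun s => (((zz (U s 0) (V s 0)).arg : ℝ) : Ci) :=
    (AddCircle.measurable_mk').comp (Complex.measurable_arg.comp z1)
  have mJ : MeasurableSet {s | ∃ i, Jc U V i s 0 ≠ 0} := by
    have : {s | ∃ i, Jc U V i s 0 ≠ 0} = ⋃ i, {s | Jc U V i s 0 ≠ 0} := by
      ext s
      simp
    rw [this]
    exact MeasurableSet.iUnion fun i =>
      ((Jc_sf WU'.sf WV'.sf i).meas 0 (measurableSet_singleton 0)).compl
  refine ⟨?_, fun B mB => ?_, fun h0 B mB => ?_, ?_⟩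
  · have i2 : ∀ i, Integrable (fun s => D i (U s) 0 ^ 2 + D i (V s) 0 ^ 2) (P.map Φ) :=
      fun i => (WU'.der hτ i).l2.add (WV'.der hτ i).l2
    have i1 : Integrable (fun s => ∑ i, (D i (U s) 0 ^ 2 + D i (V s) 0 ^ 2)) (P.map Φ) :=
      integrable_finsetSum _ fun i _ => i2 i
    have h1 : ∫ s, ∑ i, (D i (U s) 0 ^ 2 + D i (V s) 0 ^ 2) ∂(P.map Φ) =
        (∫ s, U s 0 ^ 2 ∂(P.map Φ)) + ∫ s, V s 0 ^ 2 ∂(P.map Φ) := by
      rw [integral_finsetSum _ fun i _ => i2 i,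
        ← WU'.energy hτ, ← WV'.energy hτ, ← Finset.sum_add_distrib]
      exact Finset.sum_congr rfl fun i _ => integral_add (WU'.der hτ i).l2 (WV'.der hτ i).l2
    have h2 : ∫⁻ s, ENNReal.ofReal (Wt2 U V s) ∂(P.map Φ) ≤
        ENNReal.ofReal ((∫ s, U s 0 ^ 2 ∂(P.map Φ)) + ∫ s, V s 0 ^ 2 ∂(P.map Φ)) := by
      rw [← h1, ofReal_integral_eq_lintegral_ofReal i1 (ae_of_all _ fun s =>
        Finset.sum_nonneg fun i _ => by positivity)]
      exact lintegral_mono fun s => ENNReal.ofReal_le_ofReal (Wt2_le U V s)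
    rw [lintegral_map mW mΦ, integral_map mΦ.aemeasurable
      ((WU'.sf.meas 0).pow_const 2).aestronglyMeasurable, integral_map mΦ.aemeasurable
      ((WV'.sf.meas 0).pow_const 2).aestronglyMeasurable] at h2
    simp only [eW, eU, eV] at h2
    exact h2
  · have h1 := wave_dir hτ WU' WV' mB
    have mB' : MeasurableSet {s | (((zz (U s 0) (V s 0)).arg : ℝ) : Ci) ∈ B} := mθ mB
    rw [lintegral_map mW mΦ, setLIntegral_map mB' mW mΦ] at h1
    simp only [eW] at h1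
    have e : Φ ⁻¹' {s | (((zz (U s 0) (V s 0)).arg : ℝ) : Ci) ∈ B} =
        {s | (((zz (u s 0) (v s 0)).arg : ℝ) : Ci) ∈ B} := by
      ext s
      simp only [mem_preimage, mem_setOf_eq, eU, eV]
    have h2 : ∫⁻ s in Φ ⁻¹' {s | (((zz (U s 0) (V s 0)).arg : ℝ) : Ci) ∈ B},
        ENNReal.ofReal (Wt2 u v s) ∂P = _ := h1
    rw [e] at h2
    exact h2
  · have h1 : (P.map Φ) {s | ∃ i, Jc U V i s 0 ≠ 0} ≠ 0 := by
      rw [Measure.map_apply mΦ mJ]
      have e : Φ ⁻¹' {s | ∃ i, Jc U V i s 0 ≠ 0} = {s | ∃ i, Jc u v i s 0 ≠ 0} := by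
        ext s
        simp only [mem_preimage, mem_setOf_eq, eJ]
      rw [e]
      exact h0
    have h2 := wave_null hτ WU' WV' h1 mB
    have mB' : MeasurableSet {s | (∃ i, Jc U V i s 0 ≠ 0) ∧
      (((zz (U s 0) (V s 0)).arg : ℝ) : Ci) ∈ B} := mJ.inter (mθ mB)
    rw [Measure.map_apply mΦ mB'] at h2
    have e : Φ ⁻¹' {s | (∃ i, Jc U V i s 0 ≠ 0) ∧ (((zz (U s 0) (V s 0)).arg : ℝ) : Ci) ∈ B} =
        {s | (∃ i, Jc u v i s 0 ≠ 0) ∧ (((zz (u s 0) (v s 0)).arg : ℝ) : Ci) ∈ B} := by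
      ext s
      simp only [mem_preimage, mem_setOf_eq, eJ, eU, eV]
    have h3 : P (Φ ⁻¹' {s | (∃ i, Jc U V i s 0 ≠ 0) ∧
      (((zz (U s 0) (V s 0)).arg : ℝ) : Ci) ∈ B}) = 0 ↔ _ := h2
    rw [e] at h3
    exact h3
  · have h1 := (JW.two WU' WV').dep hτ
    have h2 := ae_of_ae_map mΦ.aemeasurable h1
    filter_upwards [h2] with s hs hJ
    have e0 : U (Φ s) = u s := eU s
    have e1 : V (Φ s) = v s := eV s
    have h3 := hs (fun i => by
      show U (Φ s) 0 * D i (V (Φ s)) 0 - V (Φ s) 0 * D i (U (Φ s)) 0 = 0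
      rw [e0, e1]
      exact hJ i)
    obtain ⟨a, b, hab, hy⟩ := h3
    refine ⟨a, b, hab, fun y => ?_⟩
    have h4 : a * U (Φ s) y + b * V (Φ s) y = 0 := hy y
    rw [e0, e1] at h4
    exact h4

end Pool.Agent.U39.AN
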