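import Pool.Agent.U39.AN.N

/-!
Measures on the circle whose Fourier coefficients decay like `1 / n` have a density (helper39).
-/

set_option autoImplicit false

namespace Pool.Agent.U39.AN

open MeasureTheory Filter Topology Set AddCircle
open scoped ENNReal

theorem ac_of_decay {μ : Measure Ci} [IsFiniteMeasure μ] {C : ℝ}
    (hC : ∀ n : ℤ, n ≠ 0 → ‖∫ x, fourier n x ∂μ‖ ≤ C / |(n : ℝ)|) :
    ∃ g : Ci → ℝ, Measurable g ∧ MemLp g 2 haarAddCircle ∧
      μ = (haarAddCircle : Measure Ci).withDensity (fun x => ENNReal.ofReal (g x)) := by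
  obtain ⟨a, ha⟩ : ∃ a : ℤ → ℂ, a = fun n => ∫ x, fourier (-n) x ∂μ := ⟨_, rfl⟩
  have hs : Summable fun n : ℤ => ‖a n‖ ^ (2 : ENNReal).toReal := by
    have s1 : Summable fun n : ℤ => C ^ 2 * (1 / (n : ℝ) ^ 2) :=
      (Real.summable_one_div_int_pow.2 one_lt_two).mul_left _
    have s2 : Summable fun n : ℤ => if n = 0 then ‖a 0‖ ^ 2 else 0 :=
      (hasSum_ite_eq (0 : ℤ) (‖a 0‖ ^ 2)).summable
    refine (s1.add s2).of_nonneg_of_le (fun n => by positivity) fun n => ?_
    have e : ‖a n‖ ^ (2 : ENNReal).toReal = ‖a n‖ ^ 2 := by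
      rw [ENNReal.toReal_ofNat]
      exact Real.rpow_natCast _ 2
    rw [e]
    by_cases hn : n = 0
    · rw [if_pos hn, hn]
      have : 0 ≤ C ^ 2 * (1 / ((0 : ℤ) : ℝ) ^ 2) := by positivity
      linarith
    · rw [if_neg hn, add_zero]
      have h1 := hC (-n) (by omega)
      have h2 : ‖a n‖ ≤ C / |(n : ℝ)| := by
        rw [ha]
        simpa using h1
      calc ‖a n‖ ^ 2 ≤ (C / |(n : ℝ)|) ^ 2 := pow_le_pow_left₀ (norm_nonneg _) h2 2
        _ = _ := by rw [div_pow, sq_abs]; ring
  have hmem : Memℓp a 2 := memℓp_gen hs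
  obtain ⟨h, hh⟩ : ∃ h : Lp ℂ 2 (haarAddCircle (T := 2 * Real.pi)),
    h = fourierBasis.repr.symm ⟨a, hmem⟩ := ⟨_, rfl⟩
  have hcoef : ∀ n, fourierCoeff h n = a n := by
    intro n
    rw [← fourierBasis_repr, hh]
    simp
  obtain ⟨g, hg⟩ : ∃ g : Ci → ℝ, g = fun x => (h x).re := ⟨_, rfl⟩
  have mg : Measurable g := by
    rw [hg]
    exact Complex.measurable_re.comp (Lp.stronglyMeasurable h).measurable
  have lg : MemLp g 2 (haarAddCircle (T := 2 * Real.pi)) := by
    rw [hg]
    exact (Lp.memLp h).re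
  have ih : Integrable (fun x => h x) (haarAddCircle (T := 2 * Real.pi)) :=
    (Lp.memLp h).integrable (by norm_num)
  have ig : Integrable g (haarAddCircle (T := 2 * Real.pi)) := lg.integrable (by norm_num)
  have bf : ∀ (n : ℤ) {f : Ci → ℂ}, Integrable f (haarAddCircle (T := 2 * Real.pi)) →
      Integrable (fun x => fourier n x * f x) (haarAddCircle (T := 2 * Real.pi)) := by
    intro n f hf
    refine hf.bdd_mul (c := 1) (fourier n).continuous.aestronglyMeasurable (ae_of_all _ fun x => ?_)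
    rw [fourier_apply]
    exact (Circle.norm_coe _).le
  have cg : ∀ n : ℤ, ∫ x, ((g x : ℝ) : ℂ) * fourier n x ∂(haarAddCircle (T := 2 * Real.pi)) =
      ∫ x, fourier n x ∂μ := by
    intro n
    have c1 : ∫ x, fourier n x * h x ∂(haarAddCircle (T := 2 * Real.pi)) = ∫ x, fourier n x ∂μ := by
      have := hcoef (-n)
      rw [fourierCoeff, ha] at this
      simpa using this
    have c2 : ∫ x, fourier n x * (starRingEnd ℂ) (h x) ∂(haarAddCircle (T := 2 * Real.pi)) =
        ∫ x, fourier n x ∂μ := by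
      have := congrArg (starRingEnd ℂ) (hcoef n)
      rw [fourierCoeff, ha] at this
      simp only at this
      rw [← integral_conj, ← integral_conj] at this
      simpa [fourier_neg] using this
    have e : ∀ x, ((g x : ℝ) : ℂ) * fourier n x =
        (1 / 2 : ℂ) * (fourier n x * h x + fourier n x * (starRingEnd ℂ) (h x)) := by
      intro x
      rw [hg, Complex.re_eq_add_conj]
      ring
    simp only [e]
    rw [integral_const_mul, integral_add (bf n ih) (bf n ?_), c1, c2]
    · ring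
    · exact (Complex.conjLIE.toContinuousLinearEquiv : ℂ ≃L[ℝ] ℂ).toContinuousLinearMap.integrable_comp ih
  obtain ⟨w1, hw1⟩ : ∃ w1 : Ci → NNReal, w1 = fun x => (g x).toNNReal := ⟨_, rfl⟩
  obtain ⟨w2, hw2⟩ : ∃ w2 : Ci → NNReal, w2 = fun x => (-g x).toNNReal := ⟨_, rfl⟩
  have m1 : Measurable w1 := by rw [hw1]; exact mg.real_toNNReal
  have m2 : Measurable w2 := by rw [hw2]; exact mg.neg.real_toNNReal
  obtain ⟨ρ1, hρ1⟩ : ∃ ρ1 : Measure Ci,
    ρ1 = (haarAddCircle : Measure Ci).withDensity (fun x => (w1 x : ENNReal)) := ⟨_, rfl⟩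
  obtain ⟨ρ2, hρ2⟩ : ∃ ρ2 : Measure Ci,
    ρ2 = (haarAddCircle : Measure Ci).withDensity (fun x => (w2 x : ENNReal)) := ⟨_, rfl⟩
  have f1 : IsFiniteMeasure ρ1 := by
    refine ⟨?_⟩
    rw [hρ1, withDensity_apply _ MeasurableSet.univ, Measure.restrict_univ]
    have := ig.lintegral_lt_top
    rw [hw1]
    exact this
  have f2 : IsFiniteMeasure ρ2 := by
    refine ⟨?_⟩
    rw [hρ2, withDensity_apply _ MeasurableSet.univ, Measure.restrict_univ]
    have := ig.neg.lintegral_lt_top
    rw [hw2]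
    exact this
  have i1 : ∀ n : ℤ, ∫ x, fourier n x ∂ρ1 =
      ∫ x, ((w1 x : ℝ) : ℂ) * fourier n x ∂(haarAddCircle (T := 2 * Real.pi)) := by
    intro n
    rw [hρ1, integral_withDensity_eq_integral_smul m1]
    refine integral_congr_ae (ae_of_all _ fun x => ?_)
    show w1 x • (fourier n x : ℂ) = ((w1 x : ℝ) : ℂ) * fourier n x
    rw [NNReal.smul_def, Complex.real_smul]
  have i2 : ∀ n : ℤ, ∫ x, fourier n x ∂ρ2 =
      ∫ x, ((w2 x : ℝ) : ℂ) * fourier n x ∂(haarAddCircle (T := 2 * Real.pi)) := by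
    intro n
    rw [hρ2, integral_withDensity_eq_integral_smul m2]
    refine integral_congr_ae (ae_of_all _ fun x => ?_)
    show w2 x • (fourier n x : ℂ) = ((w2 x : ℝ) : ℂ) * fourier n x
    rw [NNReal.smul_def, Complex.real_smul]
  have j1 : Integrable (fun x => ((w1 x : ℝ) : ℂ)) (haarAddCircle (T := 2 * Real.pi)) := by
    rw [hw1]
    exact ig.real_toNNReal.ofReal
  have j2 : Integrable (fun x => ((w2 x : ℝ) : ℂ)) (haarAddCircle (T := 2 * Real.pi)) := by
    rw [hw2]
    exact ig.neg.real_toNNReal.ofReal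
  have eq : μ + ρ2 = ρ1 := by
    refine fourier_unique fun n => ?_
    rw [integral_add_measure (cint_circle _) (cint_circle _), i1, i2, ← cg n]
    have k1 : Integrable (fun x => ((w2 x : ℝ) : ℂ) * fourier n x)
        (haarAddCircle (T := 2 * Real.pi)) := by
      simpa [mul_comm] using bf n j2
    have k0 : Integrable (fun x => ((g x : ℝ) : ℂ) * fourier n x)
        (haarAddCircle (T := 2 * Real.pi)) := by
      simpa [mul_comm] using bf n ig.ofReal
    rw [← integral_add k0 k1]
    refine integral_congr_ae (ae_of_all _ fun x => ?_)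
    show ((g x : ℝ) : ℂ) * fourier n x + ((w2 x : ℝ) : ℂ) * fourier n x =
      ((w1 x : ℝ) : ℂ) * fourier n x
    have e : g x + (w2 x : ℝ) = (w1 x : ℝ) := by
      rw [hw1, hw2]
      show g x + max (-g x) 0 = max (g x) 0
      rcases le_total (g x) 0 with h | h
      · rw [max_eq_left (by linarith), max_eq_right h]; ring
      · rw [max_eq_right (by linarith), max_eq_left h]; ring
    rw [← e]
    push_cast
    ring
  have mN : MeasurableSet {x | g x < 0} := measurableSet_lt mg measurable_const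
  have z1 : ρ1 {x | g x < 0} = 0 := by
    rw [hρ1, withDensity_apply _ mN]
    refine (setLIntegral_congr_fun mN (g := fun _ => 0) fun x hx => ?_).trans (by simp)
    rw [hw1]
    show ENNReal.ofReal (g x) = 0
    exact ENNReal.ofReal_of_nonpos (le_of_lt hx)
  have z2 : ρ2 {x | g x < 0} = 0 := by
    rw [← eq] at z1
    have := z1
    rw [Measure.add_apply] at this
    exact (add_eq_zero.1 this).2
  have z3 : ρ2 {x | g x < 0}ᶜ = 0 := by
    rw [hρ2, withDensity_apply _ mN.compl]
    refine (setLIntegral_congr_fun mN.compl (g := fun _ => 0) fun x hx => ?_).trans (by simp)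
    rw [hw2]
    show ENNReal.ofReal (-g x) = 0
    have : 0 ≤ g x := not_lt.1 hx
    exact ENNReal.ofReal_of_nonpos (by linarith)
  have z4 : ρ2 = 0 := by
    rw [← Measure.measure_univ_eq_zero, ← Set.union_compl_self {x | g x < 0}]
    exact measure_union_null z2 z3
  refine ⟨g, mg, lg, ?_⟩
  rw [z4, add_zero] at eq
  rw [eq, hρ1, hw1]
  rfl

end Pool.Agent.U39.AN
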