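import Pool.Agent.U39.AN.O

/-!
The current of a pair of stationary waves of different frequencies (helper39).
-/

set_option autoImplicit false

namespace Pool.Agent.U39.AN

open Pool.Agent.Y139.SW Pool.Agent.U39.SZ MeasureTheory Filter Topology Set AddCircle
open scoped ContDiff ENNReal

variable {d k : ℕ} {S : Type*} [MeasurableSpace S] {P : Measure S} {τ : E d → S → S}

/-- stationary solutions with the frequency `κ` -/
structure WK (P : Measure S) (τ : E d → S → S) (κ : ℝ) (U : S → E d → ℝ) : Prop where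
  sf : SF τ U
  eq : ∀ s y, Lap (U s) y = -(κ ^ 2 * U s y)
  l0 : Integrable (fun s => U s 0 ^ 2) P
  l1 : ∀ i, Integrable (fun s => D i (U s) 0 ^ 2) P
  l2 : ∀ i, Integrable (fun s => D i (D i (U s)) 0 ^ 2) P
  en : ∑ i, ∫ s, D i (U s) 0 ^ 2 ∂P = κ ^ 2 * ∫ s, U s 0 ^ 2 ∂P

lemma JW.jl2 [IsProbabilityMeasure P] (hτ : ∀ x, MeasurePreserving (τ x) P P) {κ : Fin k → ℝ}
    {F : Fin k → S → E d → ℝ} (h : JW P τ κ F) (i : Fin k) (L : List (Fin d)) (s : S) :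
    jt L (F i s) 0 = κ i ^ L.length * jt L (fun y => F i s ((κ i)⁻¹ • y)) 0 := by
  rw [jt_scale (h.smooth i s)]
  show _ = κ i ^ L.length * ((κ i)⁻¹ ^ L.length * jt L (F i s) ((κ i)⁻¹ • 0))
  have := (h.k0 i).ne'
  rw [smul_zero, ← mul_assoc, ← mul_pow, mul_inv_cancel₀ this, one_pow, one_mul]

lemma JW.wk [IsProbabilityMeasure P] (hτ : ∀ x, MeasurePreserving (τ x) P P) {κ : Fin k → ℝ}
    {F : Fin k → S → E d → ℝ} (h : JW P τ κ F) (i : Fin k) : WK P τ (κ i) (F i) := by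
  have hi : ∀ L : List (Fin d), Integrable (fun s => jt L (F i s) 0 ^ 2) P := by
    intro L
    have h1 := (Wave.jt (fun x => hτ _) (h.wave i) L).l2
    refine (h1.const_mul ((κ i ^ L.length) ^ 2)).congr (ae_of_all _ fun s => ?_)
    show (κ i ^ L.length) ^ 2 * jt L (fun y => F i s ((κ i)⁻¹ • y)) 0 ^ 2 = jt L (F i s) 0 ^ 2
    rw [h.jl2 hτ i L s]
    ring
  refine ⟨⟨h.meas i, h.smooth i, h.cov i⟩, h.eq i, h.l2 i, fun j => hi [j], fun j => hi [j, j], ?_⟩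
  have h2 := (h.wave i).energy (fun x => hτ _)
  have h3 : ∀ j s, D j (F i s) 0 = κ i * D j (fun y => F i s ((κ i)⁻¹ • y)) 0 := by
    intro j s
    have := h.jl2 hτ i [j] s
    rw [List.length_singleton, pow_one] at this
    exact this
  simp only [h3, mul_pow]
  have h4 : ∀ j, ∫ s, κ i ^ 2 * D j (fun y => F i s ((κ i)⁻¹ • y)) 0 ^ 2 ∂P =
      κ i ^ 2 * ∫ s, D j (fun y => F i s ((κ i)⁻¹ • y)) 0 ^ 2 ∂P := fun j =>
    integral_const_mul _ _
  simp only [h4]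
  rw [← Finset.mul_sum, h2]
  simp only [smul_zero]

lemma prod_int {a b : S → ℝ} (ma : Measurable a) (mb : Measurable b)
    (ia : Integrable (fun s => a s ^ 2) P) (ib : Integrable (fun s => b s ^ 2) P) :
    Integrable (fun s => a s * b s) P := by
  refine (ia.add ib).mono' (ma.mul mb).aestronglyMeasurable (ae_of_all _ fun s => ?_)
  show ‖a s * b s‖ ≤ a s ^ 2 + b s ^ 2
  rw [Real.norm_eq_abs, abs_le]
  constructor <;> nlinarith [sq_nonneg (a s + b s), sq_nonneg (a s - b s), sq_nonneg (a s),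
    sq_nonneg (b s)]

/-- the identity for the regularised function, different frequencies -/
lemma reg_k {U V : S → E d → ℝ} [IsProbabilityMeasure P] {κ l0 : ℝ}
    (hτ : ∀ x, MeasurePreserving (τ x) P P) (hU : WK P τ κ U) (hV : WK P τ l0 V)
    {ε : ℝ} (hε : 0 < ε) {n : ℕ} (hn : 1 ≤ n) (l : ℂ →L[ℝ] ℝ) (hl : ∀ z, |l z| ≤ ‖z‖) :
    ∫ s, l (∑ i, Ps U V ε n i s + gE ε n (U s 0) (V s 0) *
      (((κ ^ 2 - l0 ^ 2) * (U s 0 * V s 0) : ℝ) : ℂ)) ∂P = 0 := by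
  have sG := fun i => (Gl_sf hU.sf hV.sf hε n l).mul (Jc_sf hU.sf hV.sf i)
  have iPc : ∀ i, Integrable (Ps U V ε n i) P := by
    intro i
    have h1 : Integrable (fun s => (n : ℝ) * (D i (U s) 0 ^ 2 + D i (V s) 0 ^ 2)) P :=
      ((hU.l1 i).add (hV.l1 i)).const_mul _
    exact h1.mono' (Ps_meas hU.sf hV.sf hε i).aestronglyMeasurable
      (ae_of_all _ fun s => Ps_norm hε hn i s)
  have iP : ∀ i, Integrable (fun s => l (Ps U V ε n i s)) P := fun i => l.integrable_comp (iPc i)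
  have mG : Measurable fun s => l (gE ε n (U s 0) (V s 0)) := (Gl_sf hU.sf hV.sf hε n l).meas 0
  have bG : ∀ s, ‖l (gE ε n (U s 0) (V s 0))‖ ≤ 1 := fun s => by
    rw [Real.norm_eq_abs]
    exact (hl _).trans (gE_norm hε n _ _)
  have iR0 : ∀ i, Integrable (fun s => U s 0 * D i (D i (V s)) 0 - V s 0 * D i (D i (U s)) 0) P :=
    fun i => (prod_int (hU.sf.meas 0) (((hV.sf.der i).der i).meas 0) hU.l0 (hV.l2 i)).sub
      (prod_int (hV.sf.meas 0) (((hU.sf.der i).der i).meas 0) hV.l0 (hU.l2 i))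
  have iR : ∀ i, Integrable (fun s => l (gE ε n (U s 0) (V s 0)) *
      (U s 0 * D i (D i (V s)) 0 - V s 0 * D i (D i (U s)) 0)) P := fun i =>
    (iR0 i).bdd_mul (c := 1) mG.aestronglyMeasurable (ae_of_all _ bG)
  have eD : ∀ i s, D i ((fun s y => l (gE ε n (U s y) (V s y)) * Jc U V i s y) s) 0 =
      l (Ps U V ε n i s) + l (gE ε n (U s 0) (V s 0)) *
        (U s 0 * D i (D i (V s)) 0 - V s 0 * D i (D i (U s)) 0) := fun i s =>
    Dl hU.sf hV.sf hε hn l i s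
  have z : ∀ i, ∫ s, (l (Ps U V ε n i s) + l (gE ε n (U s 0) (V s 0)) *
        (U s 0 * D i (D i (V s)) 0 - V s 0 * D i (D i (U s)) 0)) ∂P = 0 := by
    intro i
    have h1 := div0 hτ (sG i) i ?_ ?_
    · simp only [eD] at h1
      exact h1
    · have h0 : Integrable (fun s => Jc U V i s 0) P :=
        (prod_int (hU.sf.meas 0) ((hV.sf.der i).meas 0) hU.l0 (hV.l1 i)).sub
          (prod_int (hV.sf.meas 0) ((hU.sf.der i).meas 0) hV.l0 (hU.l1 i))
      exact h0.bdd_mul (c := 1) mG.aestronglyMeasurable (ae_of_all _ bG)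
    · simp only [eD]
      exact (iP i).add (iR i)
  have z2 : ∑ i, ∫ s, (l (Ps U V ε n i s) + l (gE ε n (U s 0) (V s 0)) *
        (U s 0 * D i (D i (V s)) 0 - V s 0 * D i (D i (U s)) 0)) ∂P = 0 :=
    Finset.sum_eq_zero fun i _ => z i
  have h5 : ∀ i ∈ (Finset.univ : Finset (Fin d)), Integrable (fun s => l (Ps U V ε n i s) +
      l (gE ε n (U s 0) (V s 0)) *
        (U s 0 * D i (D i (V s)) 0 - V s 0 * D i (D i (U s)) 0)) P :=
    fun i _ => (iP i).add (iR i)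
  rw [← integral_finsetSum _ h5] at z2
  rw [← z2]
  refine integral_congr_ae (ae_of_all _ fun s => ?_)
  show l (∑ i, Ps U V ε n i s + gE ε n (U s 0) (V s 0) *
      (((κ ^ 2 - l0 ^ 2) * (U s 0 * V s 0) : ℝ) : ℂ)) = ∑ i, _
  rw [Finset.sum_add_distrib, ← Finset.mul_sum, Finset.sum_sub_distrib, ← Finset.mul_sum,
    ← Finset.mul_sum, map_add, map_sum]
  have l1 : ∑ i, D i (D i (V s)) 0 = -(l0 ^ 2 * V s 0) := hV.eq s 0
  have l2 : ∑ i, D i (D i (U s)) 0 = -(κ ^ 2 * U s 0) := hU.eq s 0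
  rw [l1, l2, mul_comm (gE ε n _ _), ← Complex.real_smul, map_smul, smul_eq_mul]
  ring

lemma gE_lim (n : ℕ) (u w : ℝ) {T : ℕ → ℝ} (hT : Tendsto T atTop (𝓝 0)) (c : ℝ) :
    Tendsto (fun k => gE (T k) n u w * ((c * (u * w) : ℝ) : ℂ)) atTop
      (𝓝 ((zz u w / (‖zz u w‖ : ℂ)) ^ n * ((c * (u * w) : ℝ) : ℂ))) := by
  by_cases hz : zz u w = 0
  · have h0 : u ^ 2 + w ^ 2 = 0 := by rw [← zz_norm, hz, norm_zero]; norm_num
    have hu : u = 0 := by nlinarith [sq_nonneg u, sq_nonneg w]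
    rw [hu]
    simp
  · have nz : 0 < ‖zz u w‖ := norm_pos_iff.2 hz
    have r0 : 0 < u ^ 2 + w ^ 2 := by rw [← zz_norm]; positivity
    have l1 : Tendsto (fun k => T k + u ^ 2 + w ^ 2) atTop (𝓝 (u ^ 2 + w ^ 2)) := by
      have := (hT.add_const (u ^ 2)).add_const (w ^ 2)
      rwa [zero_add] at this
    have l2 : Tendsto (fun k => (T k + u ^ 2 + w ^ 2) ^ (-(n : ℝ) / 2)) atTop
        (𝓝 ((u ^ 2 + w ^ 2) ^ (-(n : ℝ) / 2))) := l1.rpow_const (Or.inl r0.ne')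
    have m1 := (((Complex.continuous_ofReal.tendsto _).comp l2).const_mul (zz u w ^ n)).mul_const
      (((c * (u * w) : ℝ) : ℂ))
    have e1 : (u ^ 2 + w ^ 2) ^ (-(n : ℝ) / 2) = (‖zz u w‖ ^ n)⁻¹ := by
      rw [← zz_norm, ← Real.rpow_natCast ‖zz u w‖ 2, ← Real.rpow_mul nz.le,
        ← Real.rpow_natCast ‖zz u w‖ n, ← Real.rpow_neg nz.le]
      congr 1
      push_cast
      ring
    rw [e1] at m1
    have e2 : zz u w ^ n * (((‖zz u w‖ ^ n)⁻¹ : ℝ) : ℂ) = (zz u w / (‖zz u w‖ : ℂ)) ^ n := by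
      push_cast
      rw [div_pow, div_eq_mul_inv]
    rw [e2] at m1
    exact m1

/-- the weighted circular moments of a pair of different frequencies -/
theorem circ_k {U V : S → E d → ℝ} [IsProbabilityMeasure P] {κ l0 : ℝ}
    (hτ : ∀ x, MeasurePreserving (τ x) P P) (hU : WK P τ κ U) (hV : WK P τ l0 V)
    {n : ℕ} (hn : 1 ≤ n) :
    ‖∫ s, (zz (U s 0) (V s 0) / (‖zz (U s 0) (V s 0)‖ : ℂ)) ^ n * ((Wt2 U V s : ℝ) : ℂ) ∂P‖ ≤
      |κ ^ 2 - l0 ^ 2| * (∫ s, |U s 0 * V s 0| ∂P) / n := by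
  obtain ⟨T, hT⟩ : ∃ T : ℕ → ℝ, T = fun n : ℕ => 1 / ((n : ℝ) + 1) := ⟨_, rfl⟩
  have T0 : ∀ n, 0 < T n := fun n => by rw [hT]; positivity
  have Tl : Tendsto T atTop (𝓝 0) := by rw [hT]; exact tendsto_one_div_add_atTop_nhds_zero_nat
  obtain ⟨c, hc⟩ : ∃ c, c = κ ^ 2 - l0 ^ 2 := ⟨_, rfl⟩
  have iUV : Integrable (fun s => U s 0 * V s 0) P :=
    prod_int (hU.sf.meas 0) (hV.sf.meas 0) hU.l0 hV.l0
  have iUVc : Integrable (fun s => ((c * (U s 0 * V s 0) : ℝ) : ℂ)) P := (iUV.const_mul c).ofReal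
  have z1 : Measurable fun s => zz (U s 0) (V s 0) :=
    (Complex.measurable_ofReal.comp (hU.sf.meas 0)).add
      ((Complex.measurable_ofReal.comp (hV.sf.meas 0)).mul_const _)
  have mgE : ∀ k, Measurable fun s => gE (T k) n (U s 0) (V s 0) := fun k =>
    (gE_sm (T0 k) n).continuous.measurable.comp ((hU.sf.meas 0).prodMk (hV.sf.meas 0))
  have iPc : ∀ k i, Integrable (Ps U V (T k) n i) P := by
    intro k i
    have h1 : Integrable (fun s => (n : ℝ) * (D i (U s) 0 ^ 2 + D i (V s) 0 ^ 2)) P :=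
      ((hU.l1 i).add (hV.l1 i)).const_mul _
    exact h1.mono' (Ps_meas hU.sf hV.sf (T0 k) i).aestronglyMeasurable
      (ae_of_all _ fun s => Ps_norm (T0 k) hn i s)
  have iG : ∀ k, Integrable (fun s => gE (T k) n (U s 0) (V s 0) *
      ((c * (U s 0 * V s 0) : ℝ) : ℂ)) P := fun k =>
    iUVc.bdd_mul (c := 1) (mgE k).aestronglyMeasurable (ae_of_all _ fun s => gE_norm (T0 k) n _ _)
  have iS : ∀ k, Integrable (fun s => ∑ i, Ps U V (T k) n i s + gE (T k) n (U s 0) (V s 0) *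
      ((c * (U s 0 * V s 0) : ℝ) : ℂ)) P := fun k =>
    (integrable_finsetSum _ fun i _ => iPc k i).add (iG k)
  have z0 : ∀ k, ∫ s, (∑ i, Ps U V (T k) n i s + gE (T k) n (U s 0) (V s 0) *
      ((c * (U s 0 * V s 0) : ℝ) : ℂ)) ∂P = 0 := by
    intro k
    refine Complex.ext ?_ ?_
    · have h1 := reg_k hτ hU hV (T0 k) hn Complex.reCLM (fun z => Complex.abs_re_le_norm z)
      have h2 := Complex.reCLM.integral_comp_comm (iS k)
      rw [hc] at h2 ⊢
      rw [h1] at h2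
      exact h2.symm
    · have h1 := reg_k hτ hU hV (T0 k) hn Complex.imCLM (fun z => Complex.abs_im_le_norm z)
      have h2 := Complex.imCLM.integral_comp_comm (iS k)
      rw [hc] at h2 ⊢
      rw [h1] at h2
      exact h2.symm
  have lim : Tendsto (fun k => ∫ s, (∑ i, Ps U V (T k) n i s + gE (T k) n (U s 0) (V s 0) *
      ((c * (U s 0 * V s 0) : ℝ) : ℂ)) ∂P) atTop
      (𝓝 (∫ s, (∑ i, (n * Complex.I * (zz (U s 0) (V s 0) / (‖zz (U s 0) (V s 0)‖ : ℂ)) ^ n *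
        ((Jc U V i s 0 ^ 2 / ‖zz (U s 0) (V s 0)‖ ^ 2 : ℝ) : ℂ)) +
        (zz (U s 0) (V s 0) / (‖zz (U s 0) (V s 0)‖ : ℂ)) ^ n *
          ((c * (U s 0 * V s 0) : ℝ) : ℂ)) ∂P)) := by
    refine tendsto_integral_of_dominated_convergence
      (fun s => ∑ i, (n : ℝ) * (D i (U s) 0 ^ 2 + D i (V s) 0 ^ 2) + |c * (U s 0 * V s 0)|)
      (fun k => (iS k).aestronglyMeasurable) ?_ ?_ ?_
    · exact (integrable_finsetSum _ fun i _ => ((hU.l1 i).add (hV.l1 i)).const_mul _).add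
        (iUV.const_mul c).abs
    · intro k
      refine ae_of_all _ fun s => ?_
      refine (norm_add_le _ _).trans (add_le_add ?_ ?_)
      · exact (norm_sum_le _ _).trans (Finset.sum_le_sum fun i _ => Ps_norm (T0 k) hn i s)
      · rw [norm_mul, Complex.norm_real, Real.norm_eq_abs]
        exact mul_le_of_le_one_left (abs_nonneg _) (gE_norm (T0 k) n _ _)
    · refine ae_of_all _ fun s => ?_
      exact (tendsto_finsetSum _ fun i _ => gD_lim hn _ _ _ _ T0 Tl).add (gE_lim n _ _ Tl c)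
  simp only [z0] at lim
  have h1 := tendsto_nhds_unique lim tendsto_const_nhds
  have mu : Measurable fun s => (zz (U s 0) (V s 0) / (‖zz (U s 0) (V s 0)‖ : ℂ)) ^ n :=
    (z1.div (Complex.measurable_ofReal.comp z1.norm)).pow_const n
  have bu : ∀ s, ‖(zz (U s 0) (V s 0) / (‖zz (U s 0) (V s 0)‖ : ℂ)) ^ n‖ ≤ 1 := by
    intro s
    rw [norm_pow, norm_div, Complex.norm_real, norm_norm]
    exact pow_le_one₀ (by positivity) (div_self_le_one _)
  have iW : Integrable (fun s => ((Wt2 U V s : ℝ) : ℂ)) P := by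
    have h1 : Integrable (fun s => ∑ i, (D i (U s) 0 ^ 2 + D i (V s) 0 ^ 2)) P :=
      integrable_finsetSum _ fun i _ => (hU.l1 i).add (hV.l1 i)
    refine (h1.mono' (Wt2_meas hU.sf hV.sf).aestronglyMeasurable (ae_of_all _ fun s => ?_)).ofReal
    rw [Real.norm_eq_abs, abs_of_nonneg (Wt2_nonneg U V s)]
    exact Wt2_le U V s
  have i1 : Integrable (fun s => (n * Complex.I) *
      ((zz (U s 0) (V s 0) / (‖zz (U s 0) (V s 0)‖ : ℂ)) ^ n * ((Wt2 U V s : ℝ) : ℂ))) P :=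
    (iW.bdd_mul (c := 1) mu.aestronglyMeasurable (ae_of_all _ bu)).const_mul _
  have i2 : Integrable (fun s => (zz (U s 0) (V s 0) / (‖zz (U s 0) (V s 0)‖ : ℂ)) ^ n *
      ((c * (U s 0 * V s 0) : ℝ) : ℂ)) P :=
    iUVc.bdd_mul (c := 1) mu.aestronglyMeasurable (ae_of_all _ bu)
  have e : ∀ s, ∑ i, (n * Complex.I * (zz (U s 0) (V s 0) / (‖zz (U s 0) (V s 0)‖ : ℂ)) ^ n *
        ((Jc U V i s 0 ^ 2 / ‖zz (U s 0) (V s 0)‖ ^ 2 : ℝ) : ℂ)) = (n * Complex.I) *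
      ((zz (U s 0) (V s 0) / (‖zz (U s 0) (V s 0)‖ : ℂ)) ^ n * ((Wt2 U V s : ℝ) : ℂ)) := by
    intro s
    unfold Wt2
    rw [← Finset.mul_sum, Finset.sum_div]
    push_cast
    ring
  simp only [e] at h1
  rw [integral_add i1 i2, integral_const_mul] at h1
  have h2 : (n * Complex.I) * (∫ s, (zz (U s 0) (V s 0) / (‖zz (U s 0) (V s 0)‖ : ℂ)) ^ n *
      ((Wt2 U V s : ℝ) : ℂ) ∂P) = -∫ s, (zz (U s 0) (V s 0) / (‖zz (U s 0) (V s 0)‖ : ℂ)) ^ n *
      ((c * (U s 0 * V s 0) : ℝ) : ℂ) ∂P := eq_neg_of_add_eq_zero_left h1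
  have h3 := congrArg norm h2
  rw [norm_mul, norm_mul, Complex.norm_I, mul_one, Complex.norm_natCast, norm_neg] at h3
  have h4 : ‖∫ s, (zz (U s 0) (V s 0) / (‖zz (U s 0) (V s 0)‖ : ℂ)) ^ n *
      ((c * (U s 0 * V s 0) : ℝ) : ℂ) ∂P‖ ≤ |c| * ∫ s, |U s 0 * V s 0| ∂P := by
    refine (norm_integral_le_integral_norm _).trans ?_
    rw [← integral_const_mul]
    refine integral_mono i2.norm (iUV.abs.const_mul _) fun s => ?_
    show ‖_ * _‖ ≤ |c| * |U s 0 * V s 0|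
    rw [norm_mul, Complex.norm_real, Real.norm_eq_abs, abs_mul c]
    exact mul_le_of_le_one_left (by positivity) (bu s)
  have n0 : (0 : ℝ) < n := by exact_mod_cast hn
  rw [le_div_iff₀ n0, mul_comm, h3, ← hc]
  exact h4

end Pool.Agent.U39.AN
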