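import Pool.Agent.U39.AN.Q

/-!
The direction of a pair of stationary waves of different frequencies (helper39).
-/

set_option autoImplicit false

namespace Pool.Agent.U39.AN

open Pool.Agent.Y139.SW Pool.Agent.U39.SZ MeasureTheory Filter Topology Set AddCircle
open scoped ContDiff ENNReal

variable {d k : ℕ} {S : Type*} [MeasurableSpace S] {P : Measure S} {τ : E d → S → S}

lemma coef_bd {z : S → ℂ} {W : S → ℝ} (hz : ∀ s, z s = 0 → W s = 0) {C : ℝ}
    (h : ∀ n : ℕ, 1 ≤ n → ‖∫ s, (z s / (‖z s‖ : ℂ)) ^ n * ((W s : ℝ) : ℂ) ∂P‖ ≤ C / n)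
    (n : ℤ) (hn : n ≠ 0) :
    ‖∫ s, ((W s : ℝ) : ℂ) * fourier n (((z s).arg : ℝ) : Ci) ∂P‖ ≤ C / |(n : ℝ)| := by
  have hpos : ∀ n : ℕ, 1 ≤ n →
      ‖∫ s, ((W s : ℝ) : ℂ) * fourier (n : ℤ) (((z s).arg : ℝ) : Ci) ∂P‖ ≤ C / n := by
    intro n hn
    have e : ∫ s, ((W s : ℝ) : ℂ) * fourier (n : ℤ) (((z s).arg : ℝ) : Ci) ∂P =
        ∫ s, (z s / (‖z s‖ : ℂ)) ^ n * ((W s : ℝ) : ℂ) ∂P := by
      refine integral_congr_ae (ae_of_all _ fun s => ?_)
      show ((W s : ℝ) : ℂ) * fourier (n : ℤ) (((z s).arg : ℝ) : Ci) =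
        (z s / (‖z s‖ : ℂ)) ^ n * ((W s : ℝ) : ℂ)
      by_cases h0 : z s = 0
      · rw [hz s h0]
        simp
      · rw [fourier_arg h0, mul_comm]
    rw [e]
    exact h n hn
  rcases lt_or_gt_of_ne hn with hn' | hn'
  · obtain ⟨m, hm⟩ : ∃ m : ℕ, n = -(m : ℤ) := ⟨n.natAbs, by omega⟩
    have hm1 : 1 ≤ m := by omega
    have h2 : ∫ s, ((W s : ℝ) : ℂ) * fourier (-(m : ℤ)) (((z s).arg : ℝ) : Ci) ∂P =
        (starRingEnd ℂ) (∫ s, ((W s : ℝ) : ℂ) * fourier (m : ℤ) (((z s).arg : ℝ) : Ci) ∂P) := by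
      rw [← integral_conj]
      refine integral_congr_ae (ae_of_all _ fun s => ?_)
      show ((W s : ℝ) : ℂ) * fourier (-(m : ℤ)) (((z s).arg : ℝ) : Ci) =
        (starRingEnd ℂ) (((W s : ℝ) : ℂ) * fourier (m : ℤ) (((z s).arg : ℝ) : Ci))
      rw [map_mul, Complex.conj_ofReal, fourier_neg]
    rw [hm, h2, RCLike.norm_conj]
    have := hpos m hm1
    simpa using this
  · obtain ⟨m, hm⟩ : ∃ m : ℕ, n = (m : ℤ) := ⟨n.natAbs, by omega⟩
    rw [hm]
    have := hpos m (by omega)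
    simpa using this

/-- the law of the direction of `z`, weighted by `W`, has a density -/
theorem dir_ac [IsProbabilityMeasure P] {z : S → ℂ} {W : S → ℝ} (mz : Measurable z)
    (mW : Measurable W)
    (W0 : ∀ s, 0 ≤ W s) (iW : Integrable W P) {C : ℝ}
    (h : ∀ n : ℤ, n ≠ 0 → ‖∫ s, ((W s : ℝ) : ℂ) * fourier n (((z s).arg : ℝ) : Ci) ∂P‖ ≤
      C / |(n : ℝ)|) :
    ∃ g : Ci → ℝ, Measurable g ∧ MemLp g 2 haarAddCircle ∧ ∀ B : Set Ci, MeasurableSet B →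
      ∫⁻ s in {s | (((z s).arg : ℝ) : Ci) ∈ B}, ENNReal.ofReal (W s) ∂P =
        ∫⁻ x in B, ENNReal.ofReal (g x) ∂haarAddCircle := by
  obtain ⟨θ, hθ⟩ : ∃ θ : S → Ci, θ = fun s => (((z s).arg : ℝ) : Ci) := ⟨_, rfl⟩
  have mθ : Measurable θ := by
    rw [hθ]
    exact (AddCircle.measurable_mk').comp (Complex.measurable_arg.comp mz)
  obtain ⟨Wn, hWn⟩ : ∃ Wn : S → NNReal, Wn = fun s => (W s).toNNReal := ⟨_, rfl⟩
  have mWn : Measurable Wn := by rw [hWn]; exact mW.real_toNNReal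
  have eW : ∀ s, ((Wn s : NNReal) : ENNReal) = ENNReal.ofReal (W s) := fun s => by rw [hWn]; rfl
  have eW' : ∀ s, ((Wn s : NNReal) : ℝ) = W s := fun s => by
    rw [hWn]; exact Real.coe_toNNReal _ (W0 s)
  obtain ⟨ρ, hρ⟩ : ∃ ρ : Measure S, ρ = P.withDensity (fun s => (Wn s : ENNReal)) := ⟨_, rfl⟩
  have fρ : IsFiniteMeasure ρ := by
    refine ⟨?_⟩
    rw [hρ, withDensity_apply _ MeasurableSet.univ, Measure.restrict_univ]
    simp only [eW]
    exact iW.lintegral_lt_top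
  have fμ : IsFiniteMeasure (ρ.map θ) := inferInstance
  have hμ : ∀ n : ℤ, ∫ x, fourier n x ∂(ρ.map θ) = ∫ s, ((W s : ℝ) : ℂ) * fourier n (θ s) ∂P := by
    intro n
    rw [integral_map mθ.aemeasurable (fourier n).continuous.aestronglyMeasurable, hρ,
      integral_withDensity_eq_integral_smul mWn]
    refine integral_congr_ae (ae_of_all _ fun s => ?_)
    show Wn s • (fourier n (θ s) : ℂ) = ((W s : ℝ) : ℂ) * fourier n (θ s)
    rw [NNReal.smul_def, eW' s, Complex.real_smul]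
  obtain ⟨g, mg, lg, hg⟩ := ac_of_decay (μ := ρ.map θ) (C := C) (fun n hn => by
    rw [hμ, hθ]
    exact h n hn)
  refine ⟨g, mg, lg, fun B mB => ?_⟩
  have h5 : (ρ.map θ) B = (haarAddCircle : Measure Ci).withDensity
    (fun x => ENNReal.ofReal (g x)) B := by rw [← hg]
  rw [Measure.map_apply mθ mB, hρ, withDensity_apply _ (mθ mB), withDensity_apply _ mB] at h5
  simp only [eW] at h5
  rw [hθ] at h5
  exact h5

lemma ray1 {f g : E d → ℝ} (hf : ContDiff ℝ ∞ f) (hg : ContDiff ℝ ∞ g)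
    (hJ : ∀ i y, f y * D i g y - g y * D i f y = 0) (v : E d)
    (hne : ∀ t ∈ Icc (0 : ℝ) 1, f (t • v) ≠ 0) : g v = g 0 / f 0 * f v := by
  have hd : ∀ (k : E d → ℝ), ContDiff ℝ ∞ k → ∀ t : ℝ,
      HasDerivAt (fun t : ℝ => k (t • v)) (∑ i, v i * D i k (t • v)) t := by
    intro k hk t
    have h1 : HasDerivAt (fun t : ℝ => t • v) ((1 : ℝ) • v) t := (hasDerivAt_id t).smul_const v
    have h2 := (sdiff hk (t • v)).hasFDerivAt.comp_hasDerivAt t h1
    rw [one_smul] at h2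
    rw [← Dv_eq]
    exact h2
  have hq : ∀ t ∈ Icc (0 : ℝ) 1, HasDerivAt (fun t : ℝ => g (t • v) / f (t • v)) 0 t := by
    intro t ht
    have h3 := (hd g hg t).div (hd f hf t) (hne t ht)
    refine h3.congr_deriv ?_
    rw [div_eq_zero_iff]
    left
    have : (∑ i, v i * D i g (t • v)) * f (t • v) - g (t • v) * ∑ i, v i * D i f (t • v) =
        ∑ i, v i * (f (t • v) * D i g (t • v) - g (t • v) * D i f (t • v)) := by
      rw [Finset.sum_mul, Finset.mul_sum, ← Finset.sum_sub_distrib]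
      exact Finset.sum_congr rfl fun i _ => by ring
    rw [this]
    simp [hJ]
  have h4 := constant_of_has_deriv_right_zero
    (fun t ht => (hq t ht).continuousAt.continuousWithinAt)
    (fun x hx => (hq x ⟨hx.1, hx.2.le⟩).hasDerivWithinAt) 1 ⟨zero_le_one, le_rfl⟩
  have h1 := hne 1 ⟨zero_le_one, le_rfl⟩
  simp only [zero_smul, one_smul] at h4 h1
  rw [← h4, div_mul_cancel₀ _ h1]

lemma Lap_local {f g : E d → ℝ} (hf : ContDiff ℝ ∞ f) {c : ℝ}
    (h : g =ᶠ[𝓝 0] fun y => c * f y) : Lap g 0 = c * Lap f 0 := by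
  have e1 : ∀ i, D i (fun y => c * f y) = fun y => c * D i f y := by
    intro i
    funext y
    rw [D_mul contDiff_const hf]
    have : D i (fun _ : E d => c) y = 0 := by
      unfold D
      simp
    rw [this]
    ring
  have e2 : ∀ i, D i (D i (fun y => c * f y)) 0 = c * D i (D i f) 0 := by
    intro i
    rw [e1, D_mul contDiff_const (D_sm hf i)]
    have : D i (fun _ : E d => c) 0 = 0 := by
      unfold D
      simp
    rw [this]
    ring
  unfold Lap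
  rw [Finset.mul_sum]
  refine Finset.sum_congr rfl fun i _ => ?_
  rw [← e2]
  have h1 : D i g =ᶠ[𝓝 0] D i (fun y => c * f y) := by
    filter_upwards [h.fderiv (𝕜 := ℝ)] with y hy
    unfold D
    rw [hy]
  show fderiv ℝ (D i g) 0 _ = fderiv ℝ (D i (fun y => c * f y)) 0 _
  rw [h1.fderiv_eq]

/-- the current of two waves of different frequencies vanishes at a point only if one of them is
zero -/
theorem JW.dep2 [IsProbabilityMeasure P] (hτ : ∀ x, MeasurePreserving (τ x) P P)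
    {κ : Fin 2 → ℝ} {F : Fin 2 → S → E d → ℝ} (h : JW P τ κ F) (hκ : κ 0 ≠ κ 1) :
    ∀ᵐ s ∂P, (∀ i, Jc (F 0) (F 1) i s 0 = 0) → (∀ y, F 0 s y = 0) ∨ (∀ y, F 1 s y = 0) := by
  have g1 : ∀ᵐ s ∂P, ∀ i, poK (Jp d i) (fun i => F i s) 0 = 0 →
      ∀ y, poK (Jp d i) (fun i => F i s) y = 0 := by
    rw [ae_all_iff]
    intro i
    have := h.rigid hτ (Jp d i) 0
    rw [ae_iff]
    refine measure_mono_null (fun s hs => ?_) this
    simp only [mem_setOf_eq, not_forall] at hs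
    obtain ⟨p, q⟩ := hs
    exact ⟨p, q⟩
  have g2 : ∀ j : Fin 2, ∀ᵐ s ∂P, F j s 0 = 0 → ∀ y, F j s y = 0 := by
    intro j
    have := h.rigid hτ (MvPolynomial.X (j, [])) 0
    rw [ae_iff]
    refine measure_mono_null (fun s hs => ?_) this
    simp only [mem_setOf_eq, not_forall] at hs
    obtain ⟨p, y, hy⟩ := hs
    refine ⟨?_, y, ?_⟩
    · unfold poK
      rw [MvPolynomial.eval_X]
      exact p
    · unfold poK
      rw [MvPolynomial.eval_X]
      exact hy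
  filter_upwards [g1, g2 0, g2 1] with s s1 s2 s3 hJ
  by_cases h0 : F 0 s 0 = 0
  · exact Or.inl (s2 h0)
  · refine Or.inr (s3 ?_)
    have hJ' : ∀ i y, F 0 s y * D i (F 1 s) y - F 1 s y * D i (F 0 s) y = 0 := by
      intro i y
      have := s1 i (by rw [Jp_eq]; exact hJ i) y
      rw [Jp_eq] at this
      exact this
    have hc : ∀ᶠ y in 𝓝 (0 : E d), F 0 s y ≠ 0 :=
      (h.smooth 0 s).continuous.continuousAt.eventually_ne h0
    obtain ⟨ε, ε0, hε⟩ := Metric.eventually_nhds_iff.1 hc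
    have hev : F 1 s =ᶠ[𝓝 0] fun y => F 1 s 0 / F 0 s 0 * F 0 s y := by
      refine Metric.eventually_nhds_iff.2 ⟨ε, ε0, fun y hy => ?_⟩
      refine ray1 (h.smooth 0 s) (h.smooth 1 s) hJ' y fun t ht => hε ?_
      rw [dist_zero_right] at hy ⊢
      rw [norm_smul, Real.norm_eq_abs, abs_of_nonneg ht.1]
      calc t * ‖y‖ ≤ 1 * ‖y‖ := mul_le_mul_of_nonneg_right ht.2 (norm_nonneg _)
        _ = ‖y‖ := one_mul _
        _ < ε := hy
    have hL := Lap_local (h.smooth 0 s) hev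
    rw [h.eq, h.eq] at hL
    have h3 : F 1 s 0 / F 0 s 0 * -(κ 0 ^ 2 * F 0 s 0) = -(κ 0 ^ 2 * F 1 s 0) := by
      field_simp
    rw [h3] at hL
    have h4 : (κ 0 ^ 2 - κ 1 ^ 2) * F 1 s 0 = 0 := by linarith
    rcases mul_eq_zero.1 h4 with h5 | h5
    · exfalso
      have h6 : (κ 0 - κ 1) * (κ 0 + κ 1) = 0 := by linarith
      have p0 := h.k0 0
      have p1 := h.k0 1
      rcases mul_eq_zero.1 h6 with h7 | h7
      · exact hκ (by linarith)
      · linarith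
    · exact h5

/-- all statements, on every probability space -/
theorem JL.dens [IsProbabilityMeasure P] {κ : Fin 2 → ℝ} {F : Fin 2 → S → E d → ℝ}
    (h : JL P κ F) :
    (∫⁻ s, ENNReal.ofReal (Wt2 (F 0) (F 1) s) ∂P ≤
      ENNReal.ofReal (κ 0 ^ 2 * ∫ s, F 0 s 0 ^ 2 ∂P + κ 1 ^ 2 * ∫ s, F 1 s 0 ^ 2 ∂P)) ∧
    (∀ n : ℤ, n ≠ 0 → ‖∫ s, ((Wt2 (F 0) (F 1) s : ℝ) : ℂ) *
      fourier n (((zz (F 0 s 0) (F 1 s 0)).arg : ℝ) : Ci) ∂P‖ ≤
        |κ 0 ^ 2 - κ 1 ^ 2| * (∫ s, |F 0 s 0 * F 1 s 0| ∂P) / |(n : ℝ)|) ∧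
    (∃ g : Ci → ℝ, Measurable g ∧ MemLp g 2 haarAddCircle ∧ ∀ B : Set Ci, MeasurableSet B →
      ∫⁻ s in {s | (((zz (F 0 s 0) (F 1 s 0)).arg : ℝ) : Ci) ∈ B},
        ENNReal.ofReal (Wt2 (F 0) (F 1) s) ∂P = ∫⁻ x in B, ENNReal.ofReal (g x) ∂haarAddCircle) ∧
    (∀ B : Set Ci, MeasurableSet B → haarAddCircle B = 0 →
      P {s | (∃ i, Jc (F 0) (F 1) i s 0 ≠ 0) ∧
        (((zz (F 0 s 0) (F 1 s 0)).arg : ℝ) : Ci) ∈ B} = 0) ∧
    (κ 0 ≠ κ 1 → ∀ᵐ s ∂P, (∀ i, Jc (F 0) (F 1) i s 0 = 0) →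
      (∀ y, F 0 s y = 0) ∨ (∀ y, F 1 s y = 0)) := by
  obtain ⟨Φ, mΦ, v1, hτ, hW⟩ := h.canon
  have hQ : IsProbabilityMeasure (P.map Φ) := Measure.isProbabilityMeasure_map mΦ.aemeasurable
  obtain ⟨U, hU⟩ : ∃ U : SpK d κ → E d → ℝ, U = fun f => f.1 0 := ⟨_, rfl⟩
  obtain ⟨V, hV⟩ : ∃ V : SpK d κ → E d → ℝ, V = fun f => f.1 1 := ⟨_, rfl⟩
  have WU' : WK (P.map Φ) (shK (κ := κ)) (κ 0) U := by rw [hU]; exact hW.wk hτ 0
  have WV' : WK (P.map Φ) (shK (κ := κ)) (κ 1) V := by rw [hV]; exact hW.wk hτ 1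
  have eU : ∀ s, U (Φ s) = F 0 s := fun s => by rw [hU]; show (Φ s).1 0 = _; rw [v1]
  have eV : ∀ s, V (Φ s) = F 1 s := fun s => by rw [hV]; show (Φ s).1 1 = _; rw [v1]
  have eJ : ∀ i s, Jc U V i (Φ s) 0 = Jc (F 0) (F 1) i s 0 := fun i s => by
    unfold Jc; rw [eU, eV]
  have eW : ∀ s, Wt2 U V (Φ s) = Wt2 (F 0) (F 1) s := fun s => by
    unfold Wt2; simp only [eJ, eU, eV]
  have mW0 := Wt2_meas WU'.sf WV'.sf
  have mW := mW0.ennreal_ofReal
  have z1 : Measurable fun s => zz (U s 0) (V s 0) :=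
    (Complex.measurable_ofReal.comp (WU'.sf.meas 0)).add
      ((Complex.measurable_ofReal.comp (WV'.sf.meas 0)).mul_const _)
  have mθ : Measurable fun s => (((zz (U s 0) (V s 0)).arg : ℝ) : Ci) :=
    (AddCircle.measurable_mk').comp (Complex.measurable_arg.comp z1)
  have i1 : Integrable (fun s => ∑ i, (D i (U s) 0 ^ 2 + D i (V s) 0 ^ 2)) (P.map Φ) :=
    integrable_finsetSum _ fun i _ => (WU'.l1 i).add (WV'.l1 i)
  have iW : Integrable (Wt2 U V) (P.map Φ) := by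
    refine i1.mono' mW0.aestronglyMeasurable (ae_of_all _ fun s => ?_)
    rw [Real.norm_eq_abs, abs_of_nonneg (Wt2_nonneg U V s)]
    exact Wt2_le U V s
  have hz : ∀ s, zz (U s 0) (V s 0) = 0 → Wt2 U V s = 0 := by
    intro s hs
    unfold Wt2
    rw [hs]
    simp
  have hco := coef_bd (P := P.map Φ) (z := fun s => zz (U s 0) (V s 0)) (W := Wt2 U V) hz
    (C := |κ 0 ^ 2 - κ 1 ^ 2| * (∫ s, |U s 0 * V s 0| ∂(P.map Φ)))
    (fun n hn => circ_k hτ WU' WV' hn)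
  obtain ⟨g, mg, lg, hg⟩ := dir_ac z1 mW0 (Wt2_nonneg U V) iW hco
  have hB : ∀ B : Set Ci, MeasurableSet B →
      ∫⁻ s in {s | (((zz (F 0 s 0) (F 1 s 0)).arg : ℝ) : Ci) ∈ B},
        ENNReal.ofReal (Wt2 (F 0) (F 1) s) ∂P =
      ∫⁻ x in B, ENNReal.ofReal (g x) ∂haarAddCircle := by
    intro B mB
    have h1 := hg B mB
    have mB' : MeasurableSet {s | (((zz (U s 0) (V s 0)).arg : ℝ) : Ci) ∈ B} := mθ mB
    rw [setLIntegral_map mB' mW mΦ] at h1
    simp only [eW] at h1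
    have e : Φ ⁻¹' {s | (((zz (U s 0) (V s 0)).arg : ℝ) : Ci) ∈ B} =
        {s | (((zz (F 0 s 0) (F 1 s 0)).arg : ℝ) : Ci) ∈ B} := by
      ext s
      simp only [mem_preimage, mem_setOf_eq, eU, eV]
    have h2 : ∫⁻ s in Φ ⁻¹' {s | (((zz (U s 0) (V s 0)).arg : ℝ) : Ci) ∈ B},
        ENNReal.ofReal (Wt2 (F 0) (F 1) s) ∂P = _ := h1
    rw [e] at h2
    exact h2
  refine ⟨?_, fun n hn => ?_, ⟨g, mg, lg, hB⟩, fun B mB h0 => ?_, fun hκ => ?_⟩
  · have h1 : ∫ s, ∑ i, (D i (U s) 0 ^ 2 + D i (V s) 0 ^ 2) ∂(P.map Φ) =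
        κ 0 ^ 2 * (∫ s, U s 0 ^ 2 ∂(P.map Φ)) + κ 1 ^ 2 * ∫ s, V s 0 ^ 2 ∂(P.map Φ) := by
      have i2 : ∀ i, Integrable (fun s => D i (U s) 0 ^ 2 + D i (V s) 0 ^ 2) (P.map Φ) :=
        fun i => (WU'.l1 i).add (WV'.l1 i)
      rw [integral_finsetSum _ fun i _ => i2 i, ← WU'.en, ← WV'.en, ← Finset.sum_add_distrib]
      exact Finset.sum_congr rfl fun i _ => integral_add (WU'.l1 i) (WV'.l1 i)
    have h2 : ∫⁻ s, ENNReal.ofReal (Wt2 U V s) ∂(P.map Φ) ≤
        ENNReal.ofReal (κ 0 ^ 2 * (∫ s, U s 0 ^ 2 ∂(P.map Φ)) +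
          κ 1 ^ 2 * ∫ s, V s 0 ^ 2 ∂(P.map Φ)) := by
      rw [← h1, ofReal_integral_eq_lintegral_ofReal i1 (ae_of_all _ fun s =>
        Finset.sum_nonneg fun i _ => by positivity)]
      exact lintegral_mono fun s => ENNReal.ofReal_le_ofReal (Wt2_le U V s)
    rw [lintegral_map mW mΦ, integral_map mΦ.aemeasurable
      ((WU'.sf.meas 0).pow_const 2).aestronglyMeasurable, integral_map mΦ.aemeasurable
      ((WV'.sf.meas 0).pow_const 2).aestronglyMeasurable] at h2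
    simp only [eW, eU, eV] at h2
    exact h2
  · have h1 := hco n hn
    have m1 : Measurable fun s => ((Wt2 U V s : ℝ) : ℂ) *
        fourier n (((zz (U s 0) (V s 0)).arg : ℝ) : Ci) :=
      (Complex.measurable_ofReal.comp mW0).mul ((fourier n).continuous.measurable.comp mθ)
    have m2 : Measurable fun s => |U s 0 * V s 0| := by
      have := (WU'.sf.meas 0).mul (WV'.sf.meas 0)
      exact continuous_abs.measurable.comp this
    rw [integral_map mΦ.aemeasurable m1.aestronglyMeasurable,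
      integral_map mΦ.aemeasurable m2.aestronglyMeasurable] at h1
    simp only [eW, eU, eV] at h1
    exact h1
  · have h1 := hB B mB
    rw [Measure.restrict_zero_set h0, lintegral_zero_measure] at h1
    have mWF : Measurable fun s => ENNReal.ofReal (Wt2 (F 0) (F 1) s) := by
      have := mW.comp mΦ
      simpa only [Function.comp_def, eW] using this
    have mθF : Measurable fun s => (((zz (F 0 s 0) (F 1 s 0)).arg : ℝ) : Ci) := by
      have := mθ.comp mΦ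
      simpa only [Function.comp_def, eU, eV] using this
    have mBF : MeasurableSet {s | (((zz (F 0 s 0) (F 1 s 0)).arg : ℝ) : Ci) ∈ B} := mθF mB
    rw [lintegral_eq_zero_iff mWF, Filter.EventuallyEq, ae_iff,
      Measure.restrict_apply' mBF] at h1
    refine measure_mono_null (fun s hs => ?_) h1
    refine ⟨?_, hs.2⟩
    simp only [mem_setOf_eq, Pi.zero_apply, ENNReal.ofReal_eq_zero, not_le]
    exact Wt2_pos.2 hs.1
  · have h1 := hW.dep2 hτ hκ
    have h2 := ae_of_ae_map mΦ.aemeasurable h1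
    filter_upwards [h2] with s hs hJ
    have e0 : (Φ s).1 0 = F 0 s := by rw [v1]
    have e1 : (Φ s).1 1 = F 1 s := by rw [v1]
    have h3 := hs (fun i => by
      show (Φ s).1 0 0 * D i ((Φ s).1 1) 0 - (Φ s).1 1 0 * D i ((Φ s).1 0) 0 = 0
      rw [e0, e1]
      exact hJ i)
    rcases h3 with h4 | h4
    · left
      intro y
      have := h4 y
      rw [e0] at this
      exact this
    · right
      intro y
      have := h4 y
      rw [e1] at this
      exact this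

end Pool.Agent.U39.AN
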